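import Pool.Agent.LearnDeg.Comp

/-!
# Acceptable enumerations
-/

namespace Pool.Agent.LearnDeg

open Nat.Partrec (Code)
open Encodable

theorem uniform_Phi : UniformlyComputable Phi :=
  ⟨run, primrec_run.to_comp, fun _ _ _ _ _ h hk => run_mono h hk, fun _ _ _ _ => mem_Phi⟩

theorem acceptable_Phi : Acceptable Phi := by
  refine ⟨uniform_Phi, ?_⟩
  rintro Θ ⟨F, hF, hmono, hΘ⟩
  have hP : Partrec fun p : ℕ × List ℕ × ℕ => (F p.1 p.2.1 p.2.2 : Part ℕ) :=
    Computable.ofOption hF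
  obtain ⟨c, hc⟩ := Code.exists_code.1 hP
  have hc' : ∀ (a : ℕ) (σ : List ℕ) (n : ℕ),
      c.eval (Nat.pair (encode a) (Nat.pair (encode σ) n)) = (F a σ n : Part ℕ) := by
    intro a σ n
    have : Nat.pair (encode a) (Nat.pair (encode σ) n) = encode (a, σ, n) := rfl
    rw [this, hc]
    simp only [encodek, Part.coe_some, Part.bind_some]
    cases F a σ n with
    | none => simp
    | some k => simp
  refine ⟨fun a => encode (Code.curry c (encode a)), ?_, ?_⟩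
  · exact (Primrec.encode.comp (Code.primrec₂_curry.comp (Primrec.const c) Primrec.encode)).to_comp
  · intro a
    funext g
    ext n k
    rw [hΘ]
    have hd : Code.ofNatCode (encode (Code.curry c (encode a))) = Code.curry c (encode a) :=
      Denumerable.ofNat_encode (Code.curry c (encode a))
    have hev : ∀ (t n k : ℕ), k ∈ (Code.curry c (encode a)).eval (Nat.pair (encode (seg g t)) n) ↔
        F a (seg g t) n = some k := by
      intro t n k
      rw [Code.eval_curry, hc']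
      simp
    have hval : ∀ k, k ∈ Phi (encode (Code.curry c (encode a))) g n →
        ∃ t, F a (seg g t) n = some k := by
      intro k hk
      obtain ⟨u, hu⟩ := Nat.rfindOpt_spec hk
      rw [hd] at hu
      exact ⟨_, (hev _ _ _).1 (Code.evaln_sound hu)⟩
    refine ⟨?_, hval k⟩
    rintro ⟨t, ht⟩
    obtain ⟨s, hs⟩ := Code.evaln_complete.1 ((hev t n k).2 ht)
    have hdom : (Phi (encode (Code.curry c (encode a))) g n).Dom := by
      refine Nat.rfindOpt_dom.2 ⟨Nat.pair s t, k, ?_⟩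
      rw [hd]
      simpa using hs
    obtain ⟨t', ht'⟩ := hval _ (Part.get_mem hdom)
    have h1 := hmono _ _ _ _ _ (seg_prefix (le_max_left t t')) ht
    have h2 := hmono _ _ _ _ _ (seg_prefix (le_max_right t t')) ht'
    rw [h1] at h2
    rw [Option.some.inj h2]
    exact Part.get_mem hdom

theorem mcl_comp (s : ℕ → ℕ) (Ψ : List ℕ → ℕ) (g : ℕ → ℕ) : mcl (fun σ => s (Ψ σ)) g ⊆ mcl Ψ g := by
  intro n hn heq
  exact hn (congrArg s heq)

theorem indx_comp (s : ℕ → ℕ) (Ψ : List ℕ → ℕ) (g : ℕ → ℕ) :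
    indx (fun σ => s (Ψ σ)) g ⊆ s '' indx Ψ g := by
  rintro _ ⟨n, rfl⟩
  exact ⟨_, ⟨n, rfl⟩, rfl⟩

theorem classes_sub {Φ Θ : ℕ → (ℕ → ℕ) → ℕ →. ℕ} {s : ℕ → ℕ} (hs : Computable s)
    (h : ∀ e, Θ e = Φ (s e)) (i : Fin 7) : classes Θ i ⊆ classes Φ i := by
  have hI : ∀ Ψ g f, Identifies Θ Ψ g f → Identifies Φ (fun σ => s (Ψ σ)) g f := by
    rintro Ψ g f ⟨e, h1, h2⟩
    refine ⟨s e, h1.mono fun n hn => congrArg s hn, ?_⟩
    rw [← h]; exact h2
  fin_cases i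
  · rintro Γ ⟨e, he⟩
    exact ⟨s e, fun g f hf => by rw [← h]; exact he g f hf⟩
  · rintro Γ ⟨Ψ, hΨ, h1, m, hm⟩
    exact ⟨fun σ => s (Ψ σ), hs.comp hΨ, fun g f hf => hI _ _ _ (h1 g f hf), m,
      fun g hg => (Set.encard_le_encard (mcl_comp s Ψ g)).trans (hm g hg)⟩
  · rintro Γ ⟨Ψ, hΨ, h1, m, hm⟩
    exact ⟨fun σ => s (Ψ σ), hs.comp hΨ, fun g f hf => hI _ _ _ (h1 g f hf), m,
      fun g hg => ((Set.encard_le_encard (indx_comp s Ψ g)).trans
        (Set.encard_image_le _ _)).trans (hm g hg)⟩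
  · rintro Γ ⟨Ψ, hΨ, h1⟩
    exact ⟨fun σ => s (Ψ σ), hs.comp hΨ, fun g f hf => hI _ _ _ (h1 g f hf)⟩
  · rintro Γ ⟨b, hb⟩
    refine ⟨(Finset.range b).sup s + 1, fun g f hf => ?_⟩
    obtain ⟨e, he, hge⟩ := hb g f hf
    exact ⟨s e, Nat.lt_succ_of_le (Finset.le_sup (Finset.mem_range.2 he)), by rw [← h]; exact hge⟩
  · rintro Γ ⟨b, Ψ, hΨ, h1⟩
    refine ⟨b, fun i σ => s (Ψ i σ), fun i => hs.comp (hΨ i), fun g f hf => ?_⟩
    obtain ⟨i, hi⟩ := h1 g f hf
    exact ⟨i, hI _ _ _ hi⟩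
  · intro Γ h1 g f hf
    obtain ⟨e, he⟩ := h1 g f hf
    exact ⟨s e, by rw [← h]; exact he⟩

/-- The classes do not depend on the acceptable enumeration. -/
theorem classes_eq {Φ : ℕ → (ℕ → ℕ) → ℕ →. ℕ} (hΦ : Acceptable Φ) (i : Fin 7) :
    classes Φ i = classes Phi i := by
  obtain ⟨s, hs, h1⟩ := hΦ.2 Phi uniform_Phi
  obtain ⟨t, ht, h2⟩ := acceptable_Phi.2 Φ hΦ.1
  exact Set.Subset.antisymm (classes_sub ht h2 i) (classes_sub hs h1 i)

end Pool.Agent.LearnDeg
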