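import Pool.Agent.LearnDeg.Fam

/-!
# The seven classes and their families of relations
-/

namespace Pool.Agent.LearnDeg

open Filter Encodable
open Nat.Partrec (Code)

/-! ### Countability and finite-valuedness -/

theorem countable_L4 : L4.Countable := by
  classical
  have : L4 ⊆ Set.range (fun c : Code =>
      if h : ∃ Ψ : List ℕ → ℕ, ∀ σ, c.eval (encode σ) = Part.some (Ψ σ) then h.choose
      else fun _ => 0) := by
    intro Ψ hΨ
    obtain ⟨c, hc⟩ := Code.exists_code.1 (show Nat.Partrec _ from hΨ)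
    have hc' : ∀ σ, c.eval (encode σ) = Part.some (Ψ σ) := by
      intro σ
      rw [hc]
      simp
    have h : ∃ Ψ : List ℕ → ℕ, ∀ σ, c.eval (encode σ) = Part.some (Ψ σ) := ⟨Ψ, hc'⟩
    refine ⟨c, ?_⟩
    simp only [dif_pos h]
    funext σ
    have h1 := h.choose_spec σ
    rw [hc'] at h1
    exact (Part.some_injective h1).symm
  exact (Set.countable_range _).mono this

theorem CF_RL {𝓛 : Set (List ℕ → ℕ)} (h : 𝓛 ⊆ L4) : CF (RL 𝓛) := by
  constructor
  · have : RL 𝓛 ⊆ Ident '' 𝓛 := by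
      rintro _ ⟨Ψ, hΨ, rfl⟩
      exact ⟨Ψ, hΨ, rfl⟩
    exact ((countable_L4.mono h).image _).mono this
  · rintro _ ⟨Ψ, hΨ, rfl⟩ g
    refine Set.Subsingleton.finite ?_
    intro f hf f' hf'
    exact ident_unique hf hf'

theorem CF_R1 : CF R1 := by
  constructor
  · have : R1 ⊆ Set.range (fun (e : ℕ) (g f : ℕ → ℕ) => Phi e g = f) := by
      rintro _ ⟨e, rfl⟩
      exact ⟨e, rfl⟩
    exact (Set.countable_range _).mono this
  · rintro _ ⟨e, rfl⟩ g
    refine Set.Subsingleton.finite ?_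
    intro f hf f' hf'
    exact Phi_inj hf hf'

theorem CF_FU {𝓡 : Set Rl} (h : CF 𝓡) : CF (FU 𝓡) := by
  constructor
  · have : FU 𝓡 ⊆ (fun (S : Set Rl) (g f : ℕ → ℕ) => ∃ r ∈ S, r g f) '' {S | S.Finite ∧ S ⊆ 𝓡} := by
      rintro _ ⟨S, hS, rfl⟩
      exact ⟨S, hS, rfl⟩
    exact ((Set.countable_ofPred_finite_subset h.1).image _).mono this
  · rintro _ ⟨S, ⟨hS, hS'⟩, rfl⟩ g
    have : {f | ∃ r ∈ S, r g f} = ⋃ r ∈ S, {f | r g f} := by ext; simp
    rw [this]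
    exact hS.biUnion fun r hr => h.2 r (hS' hr) g

/-! ### Bounded guesses give finitely many functionals -/

/-- List of the different guesses of `Ψ` along `σ`, up to the first `k` steps, last one first. -/
def gl (Ψ : List ℕ → ℕ) (σ : List ℕ) : ℕ → List ℕ
  | 0 => [Ψ []]
  | k + 1 => if Ψ (σ.take (k + 1)) ∈ gl Ψ σ k then gl Ψ σ k else gl Ψ σ k ++ [Ψ (σ.take (k + 1))]

theorem gl_append (Ψ : List ℕ → ℕ) (σ τ : List ℕ) {k : ℕ} (hk : k ≤ σ.length) :
    gl Ψ (σ ++ τ) k = gl Ψ σ k := by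
  induction k with
  | zero => rfl
  | succ k ih =>
    simp only [gl]
    rw [ih (by omega), List.take_append_of_le_length hk]

theorem gl_prefix (Ψ : List ℕ → ℕ) (σ : List ℕ) {k l : ℕ} (h : k ≤ l) :
    gl Ψ σ k <+: gl Ψ σ l := by
  induction h with
  | refl => exact List.prefix_refl _
  | step _ ih =>
    refine ih.trans ?_
    simp only [gl]
    split_ifs
    · exact List.prefix_refl _
    · exact List.prefix_append _ _

theorem gl_spec (Ψ : List ℕ → ℕ) (σ : List ℕ) (k : ℕ) (hk : k ≤ σ.length) :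
    (gl Ψ σ k).Nodup ∧ (∀ x ∈ gl Ψ σ k, x ∈ V Ψ σ) ∧ Ψ (σ.take k) ∈ gl Ψ σ k := by
  induction k with
  | zero =>
    simp only [gl, List.nodup_singleton, List.mem_singleton, forall_eq, List.take_zero, and_true,
      true_and]
    exact mem_V.2 ⟨[], List.nil_prefix, rfl⟩
  | succ k ih =>
    obtain ⟨h1, h2, h3⟩ := ih (by omega)
    simp only [gl]
    split_ifs with h4
    · exact ⟨h1, h2, h4⟩
    · refine ⟨?_, ?_, by simp⟩
      · rw [List.nodup_append]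
        refine ⟨h1, by simp, ?_⟩
        intro a ha b hb
        simp only [List.mem_singleton] at hb
        rintro rfl
        exact h4 (hb ▸ ha)
      · intro x hx
        rcases List.mem_append.1 hx with hx | hx
        · exact h2 x hx
        · simp only [List.mem_singleton] at hx
          exact mem_V.2 ⟨_, List.take_prefix _ _, hx.symm⟩

theorem computable_gl {Ψ : List ℕ → ℕ} (h : Computable Ψ) :
    Computable fun σ : List ℕ => gl Ψ σ σ.length := by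
  have hΨ : Computable fun x : List ℕ × (ℕ × List ℕ) => Ψ (x.1.take (x.2.1 + 1)) :=
    h.comp (Primrec.list_take.to_comp.comp (Computable.succ.comp (Computable.fst.comp
      Computable.snd)) Computable.fst)
  have h2 : Computable fun x : List ℕ × (ℕ × List ℕ) => x.2.2 :=
    Computable.snd.comp Computable.snd
  have hmem : Primrec₂ fun (x : ℕ) (l : List ℕ) => decide (x ∈ l) := by
    have h3 : Primrec₂ fun (x : ℕ) (l : List ℕ) => decide (l.idxOf x < l.length) :=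
      Primrec.nat_lt.decide.comp (Primrec.list_idxOf.comp Primrec.fst Primrec.snd)
        (Primrec.list_length.comp Primrec.snd)
    refine h3.of_eq fun x l => ?_
    simp [List.idxOf_lt_length_iff]
  have hstep : Computable₂ fun (σ : List ℕ) (q : ℕ × List ℕ) =>
      if Ψ (σ.take (q.1 + 1)) ∈ q.2 then q.2 else q.2 ++ [Ψ (σ.take (q.1 + 1))] := by
    refine computable_ite ?_ h2 ?_
    · exact hmem.to_comp.comp hΨ h2
    · exact Computable.list_concat.comp h2 hΨ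
  have := Computable.nat_rec (f := fun σ : List ℕ => σ.length)
    Computable.list_length (Computable.const ([Ψ []] : List ℕ)) hstep
  refine this.of_eq fun σ => ?_
  generalize σ.length = k
  induction k with
  | zero => rfl
  | succ k ih => simp only [gl]; rw [← ih]

theorem gl_seg_prefix (Ψ : List ℕ → ℕ) (g : ℕ → ℕ) {t t' : ℕ} (h : t ≤ t') :
    gl Ψ (seg g t) t <+: gl Ψ (seg g t') t' := by
  have h5 : gl Ψ (seg g t') t = gl Ψ (seg g t) t := by
    obtain ⟨ρ, hρ⟩ := seg_prefix (g := g) h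
    rw [← hρ, gl_append Ψ _ _ (by simp)]
  rw [← h5]
  exact gl_prefix Ψ _ h

theorem gl_getElem?_mono {Ψ : List ℕ → ℕ} {g : ℕ → ℕ} {t t' j e : ℕ} (h : t ≤ t')
    (he : (gl Ψ (seg g t) t)[j]? = some e) : (gl Ψ (seg g t') t')[j]? = some e := by
  obtain ⟨ρ, hρ⟩ := gl_seg_prefix Ψ g h
  rw [← hρ, List.getElem?_append_left (List.getElem?_eq_some_iff.1 he).1, he]

theorem gl_stable {Ψ : List ℕ → ℕ} {g : ℕ → ℕ} {t t' j e e' : ℕ}
    (he : (gl Ψ (seg g t) t)[j]? = some e) (he' : (gl Ψ (seg g t') t')[j]? = some e') :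
    e' = e := by
  have h1 := gl_getElem?_mono (le_max_left t t') he
  have h2 := gl_getElem?_mono (le_max_right t t') he'
  rw [h1] at h2
  exact (Option.some.inj h2).symm

theorem gl_guess {Ψ : List ℕ → ℕ} {b : ℕ} (hb : ∀ σ, (V Ψ σ).card ≤ b) {g : ℕ → ℕ} {e m : ℕ}
    (hm : Ψ (seg g m) = e) : ∃ j < b, (gl Ψ (seg g m) m)[j]? = some e := by
  have hmem : e ∈ gl Ψ (seg g m) m := by
    have := (gl_spec Ψ (seg g m) m (by simp)).2.2
    rwa [seg_take, min_self, hm] at this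
  obtain ⟨j, hj, hj'⟩ := List.getElem_of_mem hmem
  refine ⟨j, ?_, by rw [List.getElem?_eq_getElem hj, hj']⟩
  have h3 := gl_spec Ψ (seg g m) m (by simp)
  have h4 : (gl Ψ (seg g m) m).length ≤ b := by
    rw [← List.toFinset_card_of_nodup h3.1]
    refine (Finset.card_le_card ?_).trans (hb (seg g m))
    intro x hx
    exact h3.2.1 x (by simpa using hx)
  omega

/-- Run the `j`-th guess. -/
def runG (Ψ : List ℕ → ℕ) (j : ℕ) (σ : List ℕ) (n : ℕ) : Option ℕ :=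
  ((gl Ψ σ σ.length)[j]?).bind fun e => run e σ n

theorem computable_runG {Ψ : List ℕ → ℕ} (hΨ : Computable Ψ) :
    Computable fun p : ℕ × List ℕ × ℕ => runG Ψ p.1 p.2.1 p.2.2 := by
  have h1 : Computable fun p : ℕ × List ℕ × ℕ => (gl Ψ p.2.1 p.2.1.length)[p.1]? :=
    Computable.list_getElem?.comp ((computable_gl hΨ).comp
      (Computable.fst.comp Computable.snd)) Computable.fst
  have h2 : Computable₂ fun (x : ℕ × List ℕ × ℕ) (e : ℕ) => run e x.2.1 x.2.2 :=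
    Computable.comp (f := fun p : ℕ × List ℕ × ℕ => run p.1 p.2.1 p.2.2)
      (g := fun y : (ℕ × List ℕ × ℕ) × ℕ => (y.2, y.1.2)) primrec_run.to_comp
      (Computable.snd.pair (Computable.snd.comp Computable.fst))
  exact Computable.option_bind h1 h2

theorem exists_guess_index {Ψ : List ℕ → ℕ} (hΨ : Computable Ψ) {b : ℕ}
    (hb : ∀ σ, (V Ψ σ).card ≤ b) :
    ∃ s : ℕ → ℕ, ∀ g f, Ident Ψ g f → ∃ j < b, Phi (s j) g = f := by
  obtain ⟨s, hs, H⟩ := exists_index (α := ℕ) (runG Ψ) (computable_runG hΨ)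
  refine ⟨s, ?_⟩
  rintro g f ⟨e, h1, h2⟩
  obtain ⟨m, hm⟩ := h1.exists
  obtain ⟨j, hj, hj'⟩ := gl_guess hb hm
  refine ⟨j, hj, H j g f ?_ ?_⟩
  · intro n t k hk
    simp only [runG, seg_length, Option.bind_eq_some_iff] at hk
    obtain ⟨e', he', hk⟩ := hk
    rw [gl_stable hj' he'] at hk
    exact run_eq_of_Phi h2 hk
  · intro n
    obtain ⟨t, ht⟩ := Phi_eq_iff.1 h2 n
    refine ⟨max t m, ?_⟩
    simp only [runG, seg_length, gl_getElem?_mono (le_max_right t m) hj', Option.bind_some]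
    rw [run_mono (seg_prefix (le_max_left t m)) ht]
    simp

theorem sub_R3_R5 : Sub (RL L3) (FU R1) := by
  rintro _ ⟨Ψ, ⟨hΨ, b, hb⟩, rfl⟩
  obtain ⟨s, hs⟩ := exists_guess_index hΨ hb
  refine ⟨_, ⟨(fun j (g f : ℕ → ℕ) => Phi (s j) g = f) '' {j | j < b},
    ⟨(Set.finite_lt_nat b).image _, ?_⟩, rfl⟩, ?_⟩
  · rintro _ ⟨j, _, rfl⟩
    exact ⟨s j, rfl⟩
  · intro g f h
    obtain ⟨j, hj, h'⟩ := hs g f h
    exact ⟨_, ⟨j, hj, rfl⟩, h'⟩

/-! ### The classes -/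

theorem red_one (P Q : Set (ℕ → ℕ)) : Red (oneOne Phi) P Q ↔ RR R1 P Q := by
  refine red_iff (fun Γ => ?_) P Q
  constructor
  · rintro ⟨e, he⟩
    exact ⟨_, ⟨e, rfl⟩, he⟩
  · rintro ⟨_, ⟨e, rfl⟩, he⟩
    exact ⟨e, he⟩

theorem red_two (P Q : Set (ℕ → ℕ)) : Red (oneFin Phi) P Q ↔ RR (RL L2) P Q := by
  have h1 : Red (oneFin Phi) P Q ↔
      RR {R | ∃ Ψ : List ℕ → ℕ, ∃ m : ℕ, Computable Ψ ∧
        R = fun g f => Ident Ψ g f ∧ (mcl Ψ g).encard ≤ m} P Q := by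
    refine red_iff (fun Γ => ?_) P Q
    constructor
    · rintro ⟨Ψ, hΨ, hI, m, hm⟩
      exact ⟨_, ⟨Ψ, m, hΨ, rfl⟩, fun g f hf => ⟨hI g f hf, hm g ((PFun.mem_dom _ _).2 ⟨f, hf⟩)⟩⟩
    · rintro ⟨_, ⟨Ψ, m, hΨ, rfl⟩, H⟩
      refine ⟨Ψ, hΨ, fun g f hf => (H g f hf).1, m, fun g hg => ?_⟩
      obtain ⟨f, hf⟩ := (PFun.mem_dom _ _).1 hg
      exact (H g f hf).2
  rw [h1]
  constructor
  · refine RR.mono ?_
    rintro _ ⟨Ψ, m, hΨ, rfl⟩
    refine ⟨_, ⟨trA Ψ m, ⟨computable_trA hΨ m, _, pot_trA Ψ m⟩, rfl⟩, ?_⟩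
    rintro g f ⟨⟨e, h1, h2⟩, h3⟩
    exact ⟨e, h1.mono fun n hn => by rw [trA_eq h3, hn], h2⟩
  · refine RR.mono ?_
    rintro _ ⟨Ψ, ⟨hΨ, c, hc⟩, rfl⟩
    refine ⟨_, ⟨Ψ, c [], hΨ, rfl⟩, fun g f h => ⟨h, ?_⟩⟩
    classical
    -- every finite set of mind changes has at most `c []` elements
    have key : ∀ n, (((Finset.range n).filter
        (fun k => Ψ (seg g (k + 1)) ≠ Ψ (seg g k))).card) + c (seg g n) ≤ c [] := by
      intro n
      induction n with
      | zero => simp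
      | succ n ih =>
        have h1 := hc (seg g n) (g n)
        rw [← seg_succ] at h1
        rw [Finset.range_add_one, Finset.filter_insert]
        split_ifs with h4
        · rw [Finset.card_insert_of_notMem (by simp)]
          have := h1.2 h4
          omega
        · have := h1.1
          omega
    by_contra hlt
    push Not at hlt
    obtain ⟨t, ht1, ht2⟩ := Set.exists_subset_encard_eq (Order.add_one_le_of_lt hlt)
    have hfin : t.Finite := by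
      apply Set.finite_of_encard_eq_coe (k := c [] + 1)
      rw [ht2]; rfl
    obtain ⟨N, hN⟩ := hfin.bddAbove
    have h5 : (hfin.toFinset) ⊆ (Finset.range (N + 1)).filter
        (fun k => Ψ (seg g (k + 1)) ≠ Ψ (seg g k)) := by
      intro x hx
      rw [Set.Finite.mem_toFinset] at hx
      rw [Finset.mem_filter, Finset.mem_range]
      exact ⟨Nat.lt_succ_of_le (hN hx), ht1 hx⟩
    have h6 := Finset.card_le_card h5
    have h7 : hfin.toFinset.card = c [] + 1 := by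
      have := hfin.encard_eq_coe_toFinset_card
      rw [ht2] at this
      exact_mod_cast this.symm
    have := key (N + 1)
    omega

theorem red_three (P Q : Set (ℕ → ℕ)) : Red (oneOmegaFin Phi) P Q ↔ RR (RL L3) P Q := by
  have h1 : Red (oneOmegaFin Phi) P Q ↔
      RR {R | ∃ Ψ : List ℕ → ℕ, ∃ m : ℕ, Computable Ψ ∧
        R = fun g f => Ident Ψ g f ∧ (indx Ψ g).encard ≤ m} P Q := by
    refine red_iff (fun Γ => ?_) P Q
    constructor
    · rintro ⟨Ψ, hΨ, hI, m, hm⟩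
      exact ⟨_, ⟨Ψ, m, hΨ, rfl⟩, fun g f hf => ⟨hI g f hf, hm g ((PFun.mem_dom _ _).2 ⟨f, hf⟩)⟩⟩
    · rintro ⟨_, ⟨Ψ, m, hΨ, rfl⟩, H⟩
      refine ⟨Ψ, hΨ, fun g f hf => (H g f hf).1, m, fun g hg => ?_⟩
      obtain ⟨f, hf⟩ := (PFun.mem_dom _ _).1 hg
      exact (H g f hf).2
  rw [h1]
  constructor
  · refine RR.mono ?_
    rintro _ ⟨Ψ, m, hΨ, rfl⟩
    refine ⟨_, ⟨trB Ψ m, ⟨computable_trB hΨ m, _, V_trB Ψ m⟩, rfl⟩, ?_⟩
    rintro g f ⟨⟨e, h1, h2⟩, h3⟩
    exact ⟨e, h1.mono fun n hn => by rw [trB_eq h3, hn], h2⟩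
  · refine RR.mono ?_
    rintro _ ⟨Ψ, ⟨hΨ, b, hb⟩, rfl⟩
    refine ⟨_, ⟨Ψ, b, hΨ, rfl⟩, fun g f h => ⟨h, ?_⟩⟩
    classical
    by_contra hlt
    push Not at hlt
    obtain ⟨t, ht1, ht2⟩ := Set.exists_subset_encard_eq (Order.add_one_le_of_lt hlt)
    have hfin : t.Finite := by
      apply Set.finite_of_encard_eq_coe (k := b + 1)
      rw [ht2]; rfl
    have ht1' : ∀ x ∈ t, ∃ n, Ψ (seg g n) = x := fun x hx => ht1 hx
    choose! pos hpos using ht1'
    have h5 : hfin.toFinset ⊆ V Ψ (seg g (hfin.toFinset.sup pos)) := by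
      intro x hx
      have h6 : pos x ≤ hfin.toFinset.sup pos := Finset.le_sup hx
      rw [Set.Finite.mem_toFinset] at hx
      exact mem_V.2 ⟨_, seg_prefix h6, hpos x hx⟩
    have h6 := (Finset.card_le_card h5).trans (hb _)
    have h7 : hfin.toFinset.card = b + 1 := by
      have := hfin.encard_eq_coe_toFinset_card
      rw [ht2] at this
      exact_mod_cast this.symm
    omega

theorem red_four (P Q : Set (ℕ → ℕ)) : Red (oneOmega Phi) P Q ↔ RR (RL L4) P Q := by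
  refine red_iff (fun Γ => ?_) P Q
  constructor
  · rintro ⟨Ψ, hΨ, h⟩
    exact ⟨_, ⟨Ψ, hΨ, rfl⟩, h⟩
  · rintro ⟨_, ⟨Ψ, hΨ, rfl⟩, h⟩
    exact ⟨Ψ, hΨ, h⟩

theorem red_five (P Q : Set (ℕ → ℕ)) : Red (finOne Phi) P Q ↔ RR (FU R1) P Q := by
  refine red_iff (fun Γ => ?_) P Q
  constructor
  · rintro ⟨b, h⟩
    refine ⟨_, ⟨(fun e (g f : ℕ → ℕ) => Phi e g = f) '' {e | e < b},
      ⟨(Set.finite_lt_nat b).image _, ?_⟩, rfl⟩, ?_⟩
    · rintro _ ⟨j, _, rfl⟩
      exact ⟨j, rfl⟩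
    · intro g f hf
      obtain ⟨e, he, h'⟩ := h g f hf
      exact ⟨_, ⟨e, he, rfl⟩, h'⟩
  · rintro ⟨_, ⟨S, ⟨hS, hS'⟩, rfl⟩, h⟩
    have : ∃ E : Rl → ℕ, ∀ r ∈ S, r = fun (g f : ℕ → ℕ) => Phi (E r) g = f := by
      choose! E hE using hS'
      exact ⟨E, fun r hr => hE hr⟩
    obtain ⟨E, hE⟩ := this
    obtain ⟨b, hb⟩ := (hS.image E).bddAbove
    refine ⟨b + 1, fun g f hf => ?_⟩
    obtain ⟨r, hr, hgf⟩ := h g f hf
    refine ⟨E r, Nat.lt_succ_of_le (hb ⟨r, hr, rfl⟩), ?_⟩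
    rw [hE r hr] at hgf
    exact hgf

theorem red_six (P Q : Set (ℕ → ℕ)) : Red (finOmega Phi) P Q ↔ RR (FU (RL L4)) P Q := by
  refine red_iff (fun Γ => ?_) P Q
  constructor
  · rintro ⟨b, Ψ, hΨ, h⟩
    refine ⟨_, ⟨Set.range fun i => Ident (Ψ i), ⟨Set.finite_range _, ?_⟩, rfl⟩, ?_⟩
    · rintro _ ⟨i, rfl⟩
      exact ⟨Ψ i, hΨ i, rfl⟩
    · intro g f hf
      obtain ⟨i, hi⟩ := h g f hf
      exact ⟨_, ⟨i, rfl⟩, hi⟩
  · rintro ⟨_, ⟨S, ⟨hS, hS'⟩, rfl⟩, h⟩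
    have : ∃ E : Rl → List ℕ → ℕ, ∀ r ∈ S, Computable (E r) ∧ r = Ident (E r) := by
      choose! E hE using hS'
      exact ⟨E, fun r hr => hE hr⟩
    obtain ⟨E, hE⟩ := this
    obtain ⟨n, F, _, hF⟩ := hS.fin_param
    have hFS : ∀ i, F i ∈ S := fun i => hF ▸ Set.mem_range_self i
    refine ⟨n, fun i => E (F i), fun i => (hE _ (hFS i)).1, fun g f hf => ?_⟩
    obtain ⟨r, hr, hgf⟩ := h g f hf
    obtain ⟨i, rfl⟩ : r ∈ Set.range F := hF ▸ hr
    refine ⟨i, ?_⟩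
    rw [(hE _ hr).2] at hgf
    exact hgf

theorem red_seven (P Q : Set (ℕ → ℕ)) : Red (omegaOne Phi) P Q ↔ RR R7 P Q := by
  refine red_iff (fun Γ => ?_) P Q
  constructor
  · intro h
    exact ⟨_, rfl, h⟩
  · rintro ⟨_, rfl, h⟩
    exact h

end Pool.Agent.LearnDeg
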