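import Pool.Agent.LearnDeg.Core

/-!
# Computability toolbox: functionals on Baire space through finite strings
-/

namespace Pool.Agent.LearnDeg

open Nat.Partrec (Code)
open Encodable

/-! ### Initial segments -/

@[simp] theorem seg_length (g : ℕ → ℕ) (n : ℕ) : (seg g n).length = n := by simp [seg]

@[simp] theorem seg_zero (g : ℕ → ℕ) : seg g 0 = [] := by simp [seg]

theorem seg_succ (g : ℕ → ℕ) (n : ℕ) : seg g (n + 1) = seg g n ++ [g n] := by
  simp [seg, List.range_succ]

theorem seg_getElem? (g : ℕ → ℕ) (n i : ℕ) : (seg g n)[i]? = if i < n then some (g i) else none := by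
  simp only [seg, List.getElem?_map]
  split_ifs with h
  · simp [h]
  · simp [h]

theorem seg_getElem?_of_lt {g : ℕ → ℕ} {n i : ℕ} (h : i < n) : (seg g n)[i]? = some (g i) := by
  rw [seg_getElem?, if_pos h]

theorem seg_take (g : ℕ → ℕ) (s t : ℕ) : (seg g s).take t = seg g (min t s) := by
  apply List.ext_getElem?
  intro i
  rw [List.getElem?_take, seg_getElem?, seg_getElem?]
  by_cases h1 : i < t <;> by_cases h2 : i < s <;> simp [h1, h2]

theorem seg_prefix {g : ℕ → ℕ} {s t : ℕ} (h : s ≤ t) : seg g s <+: seg g t := by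
  have : seg g s = (seg g t).take s := by rw [seg_take, min_eq_left h]
  rw [this]
  exact List.take_prefix _ _

theorem eq_seg_of_prefix {g : ℕ → ℕ} {σ : List ℕ} {t : ℕ} (h : σ <+: seg g t) :
    σ = seg g σ.length := by
  have h1 := List.prefix_iff_eq_take.1 h
  rw [seg_take] at h1
  have h2 : σ.length ≤ t := by simpa using h.length_le
  rwa [min_eq_left h2] at h1

theorem prefix_of_seg {g : ℕ → ℕ} {σ : List ℕ} (h : σ = seg g σ.length) {t : ℕ}
    (ht : σ.length ≤ t) : σ <+: seg g t := by
  rw [h]; exact seg_prefix ht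

theorem eq_seg_iff {g : ℕ → ℕ} {σ : List ℕ} :
    σ = seg g σ.length ↔ ∀ i k, σ[i]? = some k → k = g i := by
  constructor
  · intro h i k hk
    rw [h, seg_getElem?] at hk
    split_ifs at hk
    exact (Option.some.inj hk).symm
  · intro h
    apply List.ext_getElem?
    intro i
    rw [seg_getElem?]
    split_ifs with hi
    · have := h i σ[i] (by simp [hi])
      rw [← this]; simp [hi]
    · simp at hi
      simp [hi]

/-! ### The search on finite strings -/

/-- First value of `h` at places below `N`. -/
def first (h : ℕ → Option ℕ) : ℕ → Option ℕ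
  | 0 => none
  | u + 1 => (first h u) <|> (h u)

theorem first_eq_none {h : ℕ → Option ℕ} {N : ℕ} :
    first h N = none ↔ ∀ v < N, h v = none := by
  induction N with
  | zero => simp [first]
  | succ N ih =>
    simp only [first]
    constructor
    · intro H
      have h1 : first h N = none ∧ h N = none := by
        rcases hN : first h N with _ | k'
        · rw [hN] at H; exact ⟨rfl, H⟩
        · rw [hN] at H; cases H
      intro v hv
      rcases Nat.lt_succ_iff_lt_or_eq.1 hv with h3 | h3
      · exact ih.1 h1.1 v h3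
      · rw [h3]; exact h1.2
    · intro H
      have h1 : first h N = none := ih.2 (fun v hv => H v (by omega))
      rw [h1, H N (by omega)]; rfl

theorem first_eq_some {h : ℕ → Option ℕ} {N : ℕ} :
    ∀ {k : ℕ}, first h N = some k ↔ ∃ v < N, h v = some k ∧ ∀ w < v, h w = none := by
  induction N with
  | zero => simp [first]
  | succ N ih =>
    intro k
    simp only [first]
    rcases hN : first h N with _ | k'
    · have hall := first_eq_none.1 hN
      constructor
      · intro hk
        exact ⟨N, Nat.lt_succ_self N, hk, hall⟩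
      · rintro ⟨v, hv, h1, h2⟩
        rcases Nat.lt_succ_iff_lt_or_eq.1 hv with h3 | h3
        · rw [hall v h3] at h1; cases h1
        · subst h3; exact h1
    · obtain ⟨v, hv, h1, h2⟩ := ih.1 hN
      constructor
      · intro hk
        have : k' = k := Option.some.inj hk
        subst this
        exact ⟨v, by omega, h1, h2⟩
      · rintro ⟨v', hv', h1', h2'⟩
        have : v = v' := by
          rcases lt_trichotomy v v' with h | h | h
          · rw [h2' v h] at h1; cases h1
          · exact h
          · rw [h2 v' h] at h1'; cases h1'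
        subst this
        rw [h1] at h1'
        exact h1'

theorem first_mono {h : ℕ → Option ℕ} {N M k : ℕ} (hNM : N ≤ M) (hk : first h N = some k) :
    first h M = some k := by
  obtain ⟨v, hv, h1, h2⟩ := first_eq_some.1 hk
  exact first_eq_some.2 ⟨v, by omega, h1, h2⟩

theorem first_congr {h h' : ℕ → Option ℕ} {N : ℕ} (H : ∀ v < N, h v = h' v) :
    first h N = first h' N := by
  induction N with
  | zero => rfl
  | succ N ih => simp only [first]; rw [ih (fun v hv => H v (by omega)), H N (by omega)]

/-- One step of the search for `Phi e`, on a finite string. -/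
def step (e : ℕ) (σ : List ℕ) (n u : ℕ) : Option ℕ :=
  Code.evaln u.unpair.1 (Code.ofNatCode e) (Nat.pair (encode (σ.take u.unpair.2)) n)

/-- The computation of the `e`-th functional on a finite string. -/
def run (e : ℕ) (σ : List ℕ) (n : ℕ) : Option ℕ := first (step e σ n) (σ.length + 1)

theorem step_eq_of_prefix {e : ℕ} {σ τ : List ℕ} (h : σ <+: τ) {n u : ℕ} (hu : u ≤ σ.length) :
    step e σ n u = step e τ n u := by
  have h2 : u.unpair.2 ≤ σ.length := (Nat.unpair_right_le u).trans hu
  have : σ.take u.unpair.2 = τ.take u.unpair.2 := by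
    obtain ⟨ρ, rfl⟩ := h
    rw [List.take_append_of_le_length h2]
  rw [step, step, this]

theorem run_mono {e : ℕ} {σ τ : List ℕ} (h : σ <+: τ) {n k : ℕ} (hk : run e σ n = some k) :
    run e τ n = some k := by
  have h1 : first (step e τ n) (σ.length + 1) = some k := by
    rw [← hk]
    exact (first_congr fun v hv => (step_eq_of_prefix h (by omega)).symm)
  exact first_mono (by have := h.length_le; omega) h1

theorem mem_rfindOpt {h : ℕ → Option ℕ} {k : ℕ} :
    k ∈ Nat.rfindOpt h ↔ ∃ N, first h N = some k := by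
  have aux : ∀ k, k ∈ Nat.rfindOpt h → ∃ N, first h N = some k := by
    intro k hk
    obtain ⟨n, h1, h2⟩ := Part.mem_bind_iff.1 hk
    have h3 : h n = some k := Part.mem_coe.1 h2
    refine ⟨n + 1, first_eq_some.2 ⟨n, by omega, h3, fun w hw => ?_⟩⟩
    have := Part.mem_some_iff.1 (Nat.rfind_min h1 hw)
    cases hw2 : h w with
    | none => rfl
    | some a => rw [hw2] at this; simp at this
  refine ⟨aux k, ?_⟩
  rintro ⟨N, hN⟩
  obtain ⟨v, hv, h1, h2⟩ := first_eq_some.1 hN
  have hd : (Nat.rfindOpt h).Dom := Nat.rfindOpt_dom.2 ⟨v, k, h1⟩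
  obtain ⟨M, hM⟩ := aux _ (Part.get_mem hd)
  have : (Nat.rfindOpt h).get hd = k := by
    have e1 := first_mono (le_max_left N M) hN
    have e2 := first_mono (le_max_right N M) hM
    rw [e1] at e2
    exact (Option.some.inj e2).symm
  rw [← this]
  exact Part.get_mem hd

theorem mem_Phi {e : ℕ} {g : ℕ → ℕ} {n k : ℕ} :
    k ∈ Phi e g n ↔ ∃ s, run e (seg g s) n = some k := by
  rw [Phi, mem_rfindOpt]
  have key : ∀ s u, u ≤ s → Code.evaln u.unpair.1 (Code.ofNatCode e)
      (Nat.pair (encode (seg g u.unpair.2)) n) = step e (seg g s) n u := by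
    intro s u hu
    rw [step, seg_take, min_eq_left ((Nat.unpair_right_le u).trans hu)]
  constructor
  · rintro ⟨N, hN⟩
    refine ⟨N, ?_⟩
    have := first_mono (Nat.le_succ N) hN
    rw [run, seg_length, ← this]
    exact first_congr fun v hv => (key N v (by omega)).symm
  · rintro ⟨s, hs⟩
    refine ⟨s + 1, ?_⟩
    rw [← hs, run, seg_length]
    exact first_congr fun v hv => key s v (by omega)

theorem Phi_eq_iff {e : ℕ} {g f : ℕ → ℕ} :
    Phi e g = f ↔ ∀ n, ∃ s, run e (seg g s) n = some (f n) := by
  constructor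
  · intro h n
    rw [← mem_Phi, h]
    simp
  · intro h
    ext n k
    simp only [PFun.coe_val, Part.mem_some_iff]
    constructor
    · intro hk
      obtain ⟨s, hs⟩ := mem_Phi.1 hk
      obtain ⟨t, ht⟩ := h n
      have e1 := run_mono (seg_prefix (le_max_left s t)) hs
      have e2 := run_mono (seg_prefix (le_max_right s t)) ht
      rw [e1] at e2
      exact Option.some.inj e2
    · rintro rfl
      exact mem_Phi.2 (h n)

theorem run_eq_of_Phi {e : ℕ} {g f : ℕ → ℕ} (h : Phi e g = f) {s n k : ℕ}
    (hk : run e (seg g s) n = some k) : k = f n := by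
  have : k ∈ Phi e g n := mem_Phi.2 ⟨s, hk⟩
  rw [h] at this
  simpa using this

theorem Phi_inj {e : ℕ} {g f f' : ℕ → ℕ} (h : Phi e g = f) (h' : Phi e g = f') : f = f' := by
  rw [h] at h'
  funext n
  have := congrFun h' n
  simpa using this

/-! ### Computability of the search -/

theorem primrec_step : Primrec fun p : (ℕ × List ℕ × ℕ) × ℕ => step p.1.1 p.1.2.1 p.1.2.2 p.2 := by
  unfold step
  have h1 : Primrec fun p : (ℕ × List ℕ × ℕ) × ℕ => Code.ofNatCode p.1.1 :=
    (Primrec.ofNat Code).comp (Primrec.fst.comp Primrec.fst)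
  have h2 : Primrec fun p : (ℕ × List ℕ × ℕ) × ℕ => p.2.unpair.1 :=
    Primrec.fst.comp (Primrec.unpair.comp Primrec.snd)
  have h3 : Primrec fun p : (ℕ × List ℕ × ℕ) × ℕ => p.2.unpair.2 :=
    Primrec.snd.comp (Primrec.unpair.comp Primrec.snd)
  have h4 : Primrec fun p : (ℕ × List ℕ × ℕ) × ℕ => p.1.2.1.take p.2.unpair.2 :=
    Primrec.list_take.comp h3 (Primrec.fst.comp (Primrec.snd.comp Primrec.fst))
  have h5 : Primrec fun p : (ℕ × List ℕ × ℕ) × ℕ =>
      Nat.pair (encode (p.1.2.1.take p.2.unpair.2)) p.1.2.2 :=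
    Primrec₂.natPair.comp (Primrec.encode.comp h4) (Primrec.snd.comp (Primrec.snd.comp Primrec.fst))
  exact Code.primrec_evaln.comp ((h2.pair h1).pair h5)

theorem primrec_run : Primrec fun p : ℕ × List ℕ × ℕ => run p.1 p.2.1 p.2.2 := by
  have h1 : Primrec fun p : ℕ × List ℕ × ℕ => p.2.1.length + 1 :=
    Primrec.succ.comp (Primrec.list_length.comp (Primrec.fst.comp Primrec.snd))
  have h2 : Primrec₂ fun (p : ℕ × List ℕ × ℕ) (q : ℕ × Option ℕ) =>
      (q.2 <|> step p.1 p.2.1 p.2.2 q.1) :=
    Primrec.option_orElse.comp (Primrec.snd.comp Primrec.snd)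
      (primrec_step.comp (Primrec.fst.pair (Primrec.fst.comp Primrec.snd)))
  refine (Primrec.nat_rec' h1 (Primrec.const (none : Option ℕ)) h2).of_eq fun p => ?_
  unfold run
  generalize p.2.1.length + 1 = N
  induction N with
  | zero => rfl
  | succ N ih => simp only [first]; rw [← ih]

/-- The parameter theorem: a computable family of searches on finite strings is computed by a
computable family of indices. -/
theorem exists_index {α : Type*} [Primcodable α] (F : α → List ℕ → ℕ → Option ℕ)
    (hF : Computable fun p : α × List ℕ × ℕ => F p.1 p.2.1 p.2.2) :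
    ∃ s : α → ℕ, Computable s ∧ ∀ a (g f : ℕ → ℕ),
      (∀ n t k, F a (seg g t) n = some k → k = f n) → (∀ n, ∃ t, F a (seg g t) n ≠ none) →
        Phi (s a) g = f := by
  have hP : Partrec fun p : α × List ℕ × ℕ => (F p.1 p.2.1 p.2.2 : Part ℕ) :=
    Computable.ofOption hF
  obtain ⟨c, hc⟩ := Code.exists_code.1 hP
  have hc' : ∀ (a : α) (σ : List ℕ) (n : ℕ),
      c.eval (Nat.pair (encode a) (Nat.pair (encode σ) n)) = (F a σ n : Part ℕ) := by
    intro a σ n
    have : Nat.pair (encode a) (Nat.pair (encode σ) n) = encode (a, σ, n) := rfl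
    rw [this, hc]
    simp only [encodek, Part.coe_some, Part.bind_some]
    cases F a σ n with
    | none => simp
    | some k => simp
  refine ⟨fun a => encode (Code.curry c (encode a)), ?_, ?_⟩
  · exact (Primrec.encode.comp (Code.primrec₂_curry.comp (Primrec.const c) Primrec.encode)).to_comp
  · intro a g f h1 h2
    have hd : Code.ofNatCode (encode (Code.curry c (encode a))) = Code.curry c (encode a) := by
      have := Denumerable.ofNat_encode (Code.curry c (encode a))
      exact this
    have hev : ∀ (t n k : ℕ), k ∈ (Code.curry c (encode a)).eval (Nat.pair (encode (seg g t)) n) ↔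
        F a (seg g t) n = some k := by
      intro t n k
      rw [Code.eval_curry, hc']
      simp
    have hval : ∀ n k, k ∈ Phi (encode (Code.curry c (encode a))) g n → k = f n := by
      intro n k hk
      obtain ⟨u, hu⟩ := Nat.rfindOpt_spec hk
      rw [hd] at hu
      exact h1 n _ k ((hev _ _ _).1 (Code.evaln_sound hu))
    funext n
    obtain ⟨t, ht⟩ := h2 n
    obtain ⟨k, hk⟩ := Option.ne_none_iff_exists'.1 ht
    obtain ⟨s, hs⟩ := Code.evaln_complete.1 ((hev t n k).2 hk)
    have hdom : (Phi (encode (Code.curry c (encode a))) g n).Dom := by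
      refine Nat.rfindOpt_dom.2 ⟨Nat.pair s t, k, ?_⟩
      rw [hd]
      simpa using hs
    have := hval n _ (Part.get_mem hdom)
    simp only [PFun.coe_val]
    rw [← this]
    exact (Part.some_get hdom).symm

end Pool.Agent.LearnDeg
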