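import Pool.Agent.LearnDeg.Defs

/-!
# A concrete enumeration of the functionals
-/

namespace Pool.Agent.LearnDeg

open Nat.Partrec FirstOrder

/-- A concrete enumeration of the partial computable functionals on Baire space: `Phi e g n` is
found by searching for the first pair `(s, t)` such that the `e`-th program halts within `s` steps
on the input `(initial segment of g of length t, n)`; the output of that computation is the
value. -/
def Phi (e : ℕ) (g : ℕ → ℕ) : ℕ →. ℕ := fun n =>
  Nat.rfindOpt fun u =>
    Code.evaln u.unpair.1 (Code.ofNatCode e)
      (Nat.pair (Encodable.encode (seg g u.unpair.2)) n)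

/-- Identification for the concrete enumeration. -/
def Ident (Ψ : List ℕ → ℕ) (g f : ℕ → ℕ) : Prop :=
  ∃ e, (∀ᶠ n in Filter.atTop, Ψ (seg g n) = e) ∧ Phi e g = f

end Pool.Agent.LearnDeg
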