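import Mathlib

/-!
# Learnability degree structures

The seven reducibilities on subsets of Baire space given by computable functions, by learners with
boundedly many mind changes, and so on, and their degree structures.
-/

namespace Pool.Agent.LearnDeg

open FirstOrder

/-- The initial segment of length `n` of `g`. -/
def seg (g : ℕ → ℕ) (n : ℕ) : List ℕ := (List.range n).map g

/-- `Φ` is a uniformly computable sequence of partial functionals on Baire space: its values are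
read off from initial segments of the argument by one computable function `F`. -/
def UniformlyComputable (Φ : ℕ → (ℕ → ℕ) → ℕ →. ℕ) : Prop :=
  ∃ F : ℕ → List ℕ → ℕ → Option ℕ,
    Computable (fun x : ℕ × List ℕ × ℕ => F x.1 x.2.1 x.2.2) ∧
    (∀ e σ τ n k, σ <+: τ → F e σ n = some k → F e τ n = some k) ∧
    ∀ e g n k, k ∈ Φ e g n ↔ ∃ t, F e (seg g t) n = some k

/-- `Φ` is an acceptable enumeration of the partial computable functionals on Baire space: it is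
uniformly computable, and every uniformly computable sequence of functionals is obtained from it
by a computable change of indices. -/
def Acceptable (Φ : ℕ → (ℕ → ℕ) → ℕ →. ℕ) : Prop :=
  UniformlyComputable Φ ∧
    ∀ Θ, UniformlyComputable Θ → ∃ s : ℕ → ℕ, Computable s ∧ ∀ e, Θ e = Φ (s e)

/-- The places at which the learner `Ψ` changes its mind along `g`. -/
def mcl (Ψ : List ℕ → ℕ) (g : ℕ → ℕ) : Set ℕ := {n | Ψ (seg g (n + 1)) ≠ Ψ (seg g n)}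

/-- The set of guesses of the learner `Ψ` along `g`. -/
def indx (Ψ : List ℕ → ℕ) (g : ℕ → ℕ) : Set ℕ := {e | ∃ n, Ψ (seg g n) = e}

/-- Along `g` the learner `Ψ` converges to an index of a functional that maps `g` to `f`. -/
def Identifies (Φ : ℕ → (ℕ → ℕ) → ℕ →. ℕ) (Ψ : List ℕ → ℕ) (g f : ℕ → ℕ) : Prop :=
  ∃ e, (∀ᶠ n in Filter.atTop, Ψ (seg g n) = e) ∧ Φ e g = f

/-- The class `(1,1)`: partial maps that are computable. -/
def oneOne (Φ : ℕ → (ℕ → ℕ) → ℕ →. ℕ) : Set ((ℕ → ℕ) →. (ℕ → ℕ)) :=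
  {Γ | ∃ e, ∀ g, ∀ f ∈ Γ g, Φ e g = f}

/-- The class `(1,<ω)`: identified by a learner with boundedly many mind changes. -/
def oneFin (Φ : ℕ → (ℕ → ℕ) → ℕ →. ℕ) : Set ((ℕ → ℕ) →. (ℕ → ℕ)) :=
  {Γ | ∃ Ψ : List ℕ → ℕ, Computable Ψ ∧ (∀ g, ∀ f ∈ Γ g, Identifies Φ Ψ g f) ∧
    ∃ m : ℕ, ∀ g ∈ Γ.Dom, (mcl Ψ g).encard ≤ m}

/-- The class `(1,ω|<ω)`: identified by a learner with boundedly many different guesses. -/
def oneOmegaFin (Φ : ℕ → (ℕ → ℕ) → ℕ →. ℕ) : Set ((ℕ → ℕ) →. (ℕ → ℕ)) :=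
  {Γ | ∃ Ψ : List ℕ → ℕ, Computable Ψ ∧ (∀ g, ∀ f ∈ Γ g, Identifies Φ Ψ g f) ∧
    ∃ m : ℕ, ∀ g ∈ Γ.Dom, (indx Ψ g).encard ≤ m}

/-- The class `(1,ω)`: identified by a learner. -/
def oneOmega (Φ : ℕ → (ℕ → ℕ) → ℕ →. ℕ) : Set ((ℕ → ℕ) →. (ℕ → ℕ)) :=
  {Γ | ∃ Ψ : List ℕ → ℕ, Computable Ψ ∧ ∀ g, ∀ f ∈ Γ g, Identifies Φ Ψ g f}

/-- The class `(<ω,1)`: each value is computed by one of finitely many functionals. -/
def finOne (Φ : ℕ → (ℕ → ℕ) → ℕ →. ℕ) : Set ((ℕ → ℕ) →. (ℕ → ℕ)) :=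
  {Γ | ∃ b : ℕ, ∀ g, ∀ f ∈ Γ g, ∃ e < b, Φ e g = f}

/-- The class `(<ω,ω)`: on each argument identified by one of finitely many learners. -/
def finOmega (Φ : ℕ → (ℕ → ℕ) → ℕ →. ℕ) : Set ((ℕ → ℕ) →. (ℕ → ℕ)) :=
  {Γ | ∃ (b : ℕ) (Ψ : Fin b → List ℕ → ℕ), (∀ i, Computable (Ψ i)) ∧
    ∀ g, ∀ f ∈ Γ g, ∃ i, Identifies Φ (Ψ i) g f}

/-- The class `(ω,1)`: each value is computable from the argument. -/
def omegaOne (Φ : ℕ → (ℕ → ℕ) → ℕ →. ℕ) : Set ((ℕ → ℕ) →. (ℕ → ℕ)) :=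
  {Γ | ∀ g, ∀ f ∈ Γ g, ∃ e, Φ e g = f}

/-- The seven classes of partial maps on Baire space. -/
def classes (Φ : ℕ → (ℕ → ℕ) → ℕ →. ℕ) : Fin 7 → Set ((ℕ → ℕ) →. (ℕ → ℕ)) :=
  ![oneOne Φ, oneFin Φ, oneOmegaFin Φ, oneOmega Φ, finOne Φ, finOmega Φ, omegaOne Φ]

/-- `P` is reducible to `Q` with respect to the class `𝓕` of partial maps. -/
def Red (𝓕 : Set ((ℕ → ℕ) →. (ℕ → ℕ))) (P Q : Set (ℕ → ℕ)) : Prop :=
  ∃ Γ ∈ 𝓕, ∀ g ∈ Q, ∃ f ∈ Γ g, f ∈ P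

/-- The degree structure of `𝓕`: subsets of Baire space modulo mutual reducibility. -/
def Deg (𝓕 : Set ((ℕ → ℕ) →. (ℕ → ℕ))) : Type :=
  Quot fun P Q : Set (ℕ → ℕ) => Red 𝓕 P Q ∧ Red 𝓕 Q P

/-- The order on degrees. -/
instance (𝓕 : Set ((ℕ → ℕ) →. (ℕ → ℕ))) : LE (Deg 𝓕) where
  le a b := ∃ P Q : Set (ℕ → ℕ), Quot.mk _ P = a ∧ Quot.mk _ Q = b ∧ Red 𝓕 P Q

/-- The degree structure as a structure for the first-order language of orders. -/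
instance (𝓕 : Set ((ℕ → ℕ) →. (ℕ → ℕ))) : Language.order.Structure (Deg 𝓕) :=
  Language.orderStructure _

end Pool.Agent.LearnDeg
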