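import Pool.Agent.LearnDeg.Learn

/-!
# Families of relations giving the seven reducibilities
-/

namespace Pool.Agent.LearnDeg

open Filter

/-- Relations between functions. -/
abbrev Rl := (ℕ → ℕ) → (ℕ → ℕ) → Prop

/-- Closure properties of a family of relations. -/
structure Good (𝓡 : Set Rl) : Prop where
  comp : ∀ R ∈ 𝓡, ∀ S ∈ 𝓡, ∃ T ∈ 𝓡, ∀ g f h, R g f → S f h → T g h
  prod : ∀ R ∈ 𝓡, ∀ S ∈ 𝓡, ∃ T ∈ 𝓡, ∀ g f h, R g f → S g h → T g (join f h)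
  cases : ∀ R ∈ 𝓡, ∀ S ∈ 𝓡, ∃ T ∈ 𝓡, ∀ g f, (R g f → T (cons 0 g) f) ∧ (S g f → T (cons 1 g) f)
  index : ∀ e : ℕ, ∃ T ∈ 𝓡, ∀ g f : ℕ → ℕ, Phi e g = f → T g f
  turing : ∀ R ∈ 𝓡, ∀ g f, R g f → TLe f g

/-- The family is countable and its relations are finite-valued. -/
def CF (𝓡 : Set Rl) : Prop := 𝓡.Countable ∧ ∀ R ∈ 𝓡, ∀ g, {f | R g f}.Finite

/-- Each relation of `𝓡` is contained in one of `𝓢`. -/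
def Sub (𝓡 𝓢 : Set Rl) : Prop := ∀ R ∈ 𝓡, ∃ S ∈ 𝓢, ∀ g f, R g f → S g f

/-- Reducibility given by a family of relations. -/
def RR (𝓡 : Set Rl) (P Q : Set (ℕ → ℕ)) : Prop := ∃ R ∈ 𝓡, ∀ g ∈ Q, ∃ f ∈ P, R g f

theorem Sub.refl (𝓡 : Set Rl) : Sub 𝓡 𝓡 := fun R hR => ⟨R, hR, fun _ _ h => h⟩

theorem Sub.trans {𝓡 𝓢 𝓣 : Set Rl} (h : Sub 𝓡 𝓢) (h' : Sub 𝓢 𝓣) : Sub 𝓡 𝓣 := by
  intro R hR
  obtain ⟨S, hS, h1⟩ := h R hR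
  obtain ⟨T, hT, h2⟩ := h' S hS
  exact ⟨T, hT, fun g f hgf => h2 g f (h1 g f hgf)⟩

theorem RR.mono {𝓡 𝓢 : Set Rl} (h : Sub 𝓡 𝓢) {P Q : Set (ℕ → ℕ)} (hPQ : RR 𝓡 P Q) :
    RR 𝓢 P Q := by
  obtain ⟨R, hR, H⟩ := hPQ
  obtain ⟨S, hS, h1⟩ := h R hR
  refine ⟨S, hS, fun g hg => ?_⟩
  obtain ⟨f, hf, hgf⟩ := H g hg
  exact ⟨f, hf, h1 g f hgf⟩

/-- Elimination of the partial maps. -/
theorem red_iff {𝓕 : Set ((ℕ → ℕ) →. (ℕ → ℕ))} {𝓡 : Set Rl}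
    (h : ∀ Γ : (ℕ → ℕ) →. (ℕ → ℕ), Γ ∈ 𝓕 ↔ ∃ R ∈ 𝓡, ∀ g, ∀ f ∈ Γ g, R g f)
    (P Q : Set (ℕ → ℕ)) : Red 𝓕 P Q ↔ RR 𝓡 P Q := by
  constructor
  · rintro ⟨Γ, hΓ, H⟩
    obtain ⟨R, hR, h1⟩ := (h Γ).1 hΓ
    refine ⟨R, hR, fun g hg => ?_⟩
    obtain ⟨f, hf, hfP⟩ := H g hg
    exact ⟨f, hfP, h1 g f hf⟩
  · rintro ⟨R, hR, H⟩
    choose F hF using H
    refine ⟨fun g => ⟨g ∈ Q, fun hg => F g hg⟩, (h _).2 ⟨R, hR, ?_⟩, ?_⟩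
    · rintro g f ⟨hg, rfl⟩
      exact (hF g hg).2
    · intro g hg
      exact ⟨F g hg, ⟨hg, rfl⟩, (hF g hg).1⟩

/-! ### Basic facts for good families -/

namespace Good

variable {𝓡 : Set Rl} (hG : Good 𝓡)
include hG

theorem of_index {P Q : Set (ℕ → ℕ)} (e : ℕ) (h : ∀ g ∈ Q, ∃ f ∈ P, Phi e g = f) : RR 𝓡 P Q := by
  obtain ⟨T, hT, hT'⟩ := hG.index e
  refine ⟨T, hT, fun g hg => ?_⟩
  obtain ⟨f, hf, hgf⟩ := h g hg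
  exact ⟨f, hf, hT' g f hgf⟩

theorem of_subset {P Q : Set (ℕ → ℕ)} (h : Q ⊆ P) : RR 𝓡 P Q := by
  obtain ⟨e, he⟩ := exists_idIx
  exact hG.of_index e fun g hg => ⟨g, h hg, he g⟩

theorem refl (P : Set (ℕ → ℕ)) : RR 𝓡 P P := hG.of_subset subset_rfl

theorem trans {P Q R : Set (ℕ → ℕ)} (h1 : RR 𝓡 P Q) (h2 : RR 𝓡 Q R) : RR 𝓡 P R := by
  obtain ⟨A, hA, h1⟩ := h1
  obtain ⟨B, hB, h2⟩ := h2
  obtain ⟨T, hT, hT'⟩ := hG.comp B hB A hA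
  refine ⟨T, hT, fun g hg => ?_⟩
  obtain ⟨f, hf, hgf⟩ := h2 g hg
  obtain ⟨h, hh, hfh⟩ := h1 f hf
  exact ⟨h, hh, hT' g f h hgf hfh⟩

theorem le_single {P : Set (ℕ → ℕ)} {g : ℕ → ℕ} : RR 𝓡 P {g} ↔ ∃ f ∈ P, TLe f g := by
  constructor
  · rintro ⟨R, hR, H⟩
    obtain ⟨f, hf, hgf⟩ := H g rfl
    exact ⟨f, hf, hG.turing R hR g f hgf⟩
  · rintro ⟨f, hf, e, he⟩
    exact hG.of_index e fun g' hg' => ⟨f, hf, by rw [Set.mem_singleton_iff.1 hg']; exact he⟩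

theorem single_single {f g : ℕ → ℕ} : RR 𝓡 {f} {g} ↔ TLe f g := by
  rw [hG.le_single]; simp

end Good

/-- The join of two sets. -/
def jn (P Q : Set (ℕ → ℕ)) : Set (ℕ → ℕ) := {x | ∃ f ∈ P, ∃ g ∈ Q, x = join f g}

/-- The meet of two sets. -/
def mt (P Q : Set (ℕ → ℕ)) : Set (ℕ → ℕ) := {x | (∃ f ∈ P, x = cons 0 f) ∨ ∃ f ∈ Q, x = cons 1 f}

theorem Good.le_jn_left {𝓡 : Set Rl} (hG : Good 𝓡) (P Q : Set (ℕ → ℕ)) : RR 𝓡 P (jn P Q) := by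
  obtain ⟨e, he⟩ := exists_fstIx
  refine hG.of_index e ?_
  rintro _ ⟨f, hf, g, hg, rfl⟩
  exact ⟨f, hf, he f g⟩

theorem Good.le_jn_right {𝓡 : Set Rl} (hG : Good 𝓡) (P Q : Set (ℕ → ℕ)) : RR 𝓡 Q (jn P Q) := by
  obtain ⟨e, he⟩ := exists_sndIx
  refine hG.of_index e ?_
  rintro _ ⟨f, hf, g, hg, rfl⟩
  exact ⟨g, hg, he f g⟩

theorem Good.jn_le {𝓡 : Set Rl} (hG : Good 𝓡) {P Q R : Set (ℕ → ℕ)} (h1 : RR 𝓡 P R)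
    (h2 : RR 𝓡 Q R) : RR 𝓡 (jn P Q) R := by
  obtain ⟨A, hA, h1⟩ := h1
  obtain ⟨B, hB, h2⟩ := h2
  obtain ⟨T, hT, hT'⟩ := hG.prod A hA B hB
  refine ⟨T, hT, fun g hg => ?_⟩
  obtain ⟨f, hf, hgf⟩ := h1 g hg
  obtain ⟨h, hh, hgh⟩ := h2 g hg
  exact ⟨join f h, ⟨f, hf, h, hh, rfl⟩, hT' g f h hgf hgh⟩

theorem Good.mt_le_left {𝓡 : Set Rl} (hG : Good 𝓡) (P Q : Set (ℕ → ℕ)) : RR 𝓡 (mt P Q) P := by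
  obtain ⟨s, _, H⟩ := exists_consIx
  exact hG.of_index (s 0) fun g hg => ⟨cons 0 g, Or.inl ⟨g, hg, rfl⟩, H 0 g⟩

theorem Good.mt_le_right {𝓡 : Set Rl} (hG : Good 𝓡) (P Q : Set (ℕ → ℕ)) : RR 𝓡 (mt P Q) Q := by
  obtain ⟨s, _, H⟩ := exists_consIx
  exact hG.of_index (s 1) fun g hg => ⟨cons 1 g, Or.inr ⟨g, hg, rfl⟩, H 1 g⟩

theorem Good.le_mt {𝓡 : Set Rl} (hG : Good 𝓡) {P Q R : Set (ℕ → ℕ)} (h1 : RR 𝓡 R P)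
    (h2 : RR 𝓡 R Q) : RR 𝓡 R (mt P Q) := by
  obtain ⟨A, hA, h1⟩ := h1
  obtain ⟨B, hB, h2⟩ := h2
  obtain ⟨T, hT, hT'⟩ := hG.cases A hA B hB
  refine ⟨T, hT, ?_⟩
  rintro _ (⟨g, hg, rfl⟩ | ⟨g, hg, rfl⟩)
  · obtain ⟨f, hf, hgf⟩ := h1 g hg
    exact ⟨f, hf, (hT' g f).1 hgf⟩
  · obtain ⟨f, hf, hgf⟩ := h2 g hg
    exact ⟨f, hf, (hT' g f).2 hgf⟩

/-- Semantics of being below the join. -/
theorem Good.lj_iff {𝓡 : Set Rl} (hG : Good 𝓡) {x y z : Set (ℕ → ℕ)} :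
    (∀ w, RR 𝓡 y w → RR 𝓡 z w → RR 𝓡 x w) ↔ RR 𝓡 x (jn y z) :=
  ⟨fun H => H _ (hG.le_jn_left _ _) (hG.le_jn_right _ _),
    fun H _ h1 h2 => hG.trans H (hG.jn_le h1 h2)⟩

/-- Semantics of the meet being below the join. -/
theorem Good.ml_iff {𝓡 : Set Rl} (hG : Good 𝓡) {a b y z : Set (ℕ → ℕ)} :
    (∀ w, RR 𝓡 y w → RR 𝓡 z w → ∀ x, RR 𝓡 x a → RR 𝓡 x b → RR 𝓡 x w) ↔
      RR 𝓡 (mt a b) (jn y z) :=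
  ⟨fun H => H _ (hG.le_jn_left _ _) (hG.le_jn_right _ _) _ (hG.mt_le_left _ _)
      (hG.mt_le_right _ _),
    fun H _ h1 h2 _ h3 h4 => hG.trans (hG.le_mt h3 h4) (hG.trans H (hG.jn_le h1 h2))⟩

/-! ### The seven families -/

def R1 : Set Rl := {R | ∃ e, R = fun (g f : ℕ → ℕ) => Phi e g = f}

/-- Relations given by a set of learners. -/
def RL (𝓛 : Set (List ℕ → ℕ)) : Set Rl := {R | ∃ Ψ ∈ 𝓛, R = Ident Ψ}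

def L2 : Set (List ℕ → ℕ) := {Ψ | Computable Ψ ∧ ∃ c, Pot Ψ c}
def L3 : Set (List ℕ → ℕ) := {Ψ | Computable Ψ ∧ ∃ b, ∀ σ, (V Ψ σ).card ≤ b}
def L4 : Set (List ℕ → ℕ) := {Ψ | Computable Ψ}

/-- Finite unions of relations. -/
def FU (𝓡 : Set Rl) : Set Rl := {R | ∃ S : Set Rl, (S.Finite ∧ S ⊆ 𝓡) ∧ R = fun g f => ∃ r ∈ S, r g f}

def R7 : Set Rl := {fun g f => TLe f g}

theorem good_R1 : Good R1 where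
  comp := by
    obtain ⟨s, _, H⟩ := exists_cmp
    rintro _ ⟨a, rfl⟩ _ ⟨b, rfl⟩
    exact ⟨_, ⟨s a b, rfl⟩, fun g f h h1 h2 => H a b g f h h1 h2⟩
  prod := by
    obtain ⟨s, _, H⟩ := exists_pr
    rintro _ ⟨a, rfl⟩ _ ⟨b, rfl⟩
    exact ⟨_, ⟨s a b, rfl⟩, fun g f h h1 h2 => H a b g f h h1 h2⟩
  cases := by
    obtain ⟨s, _, H⟩ := exists_cs
    rintro _ ⟨a, rfl⟩ _ ⟨b, rfl⟩
    exact ⟨_, ⟨s a b, rfl⟩, fun g f => H a b g f⟩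
  index := fun e => ⟨_, ⟨e, rfl⟩, fun g f h => h⟩
  turing := by
    rintro _ ⟨a, rfl⟩ g f h
    exact ⟨a, h⟩

theorem good_RL {𝓛 : Set (List ℕ → ℕ)} (hconst : ∀ e, (fun _ => e) ∈ 𝓛)
    (hcmp : ∀ s, Computable₂ s → ∀ Ψ₁ ∈ 𝓛, ∀ Ψ₂ ∈ 𝓛, cmpL s Ψ₁ Ψ₂ ∈ 𝓛)
    (hpr : ∀ s, Computable₂ s → ∀ Ψ₁ ∈ 𝓛, ∀ Ψ₂ ∈ 𝓛, prL s Ψ₁ Ψ₂ ∈ 𝓛)
    (hcase : ∀ s, Computable s → ∀ Ψ₁ ∈ 𝓛, ∀ Ψ₂ ∈ 𝓛, caseL s Ψ₁ Ψ₂ ∈ 𝓛) : Good (RL 𝓛) where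
  comp := by
    obtain ⟨s, hs, H⟩ := exists_cmp
    rintro _ ⟨a, ha, rfl⟩ _ ⟨b, hb, rfl⟩
    exact ⟨_, ⟨_, hcmp s hs a ha b hb, rfl⟩, fun g f h h1 h2 => ident_cmpL H h1 h2⟩
  prod := by
    obtain ⟨s, hs, H⟩ := exists_pr
    rintro _ ⟨a, ha, rfl⟩ _ ⟨b, hb, rfl⟩
    exact ⟨_, ⟨_, hpr s hs a ha b hb, rfl⟩, fun g f h h1 h2 => ident_prL H h1 h2⟩
  cases := by
    obtain ⟨s, hs, H⟩ := exists_tl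
    rintro _ ⟨a, ha, rfl⟩ _ ⟨b, hb, rfl⟩
    exact ⟨_, ⟨_, hcase s hs a ha b hb, rfl⟩, fun g f => ident_caseL H⟩
  index := fun e => ⟨_, ⟨_, hconst e, rfl⟩, fun g f h => ident_const.2 h⟩
  turing := by
    rintro _ ⟨a, _, rfl⟩ g f h
    exact ident_TLe h

theorem good_R2 : Good (RL L2) := by
  refine good_RL ?_ ?_ ?_ ?_
  · exact fun e => ⟨Computable.const e, fun _ => 0, fun σ a => ⟨le_rfl, fun h => absurd rfl h⟩⟩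
  · rintro s hs Ψ₁ ⟨h1, c1, h1'⟩ Ψ₂ ⟨h2, c2, h2'⟩
    exact ⟨computable_cmpL hs h1 h2, _, pot_cmpL s h1' h2'⟩
  · rintro s hs Ψ₁ ⟨h1, c1, h1'⟩ Ψ₂ ⟨h2, c2, h2'⟩
    exact ⟨computable_prL hs h1 h2, _, pot_prL s h1' h2'⟩
  · rintro s hs Ψ₁ ⟨h1, c1, h1'⟩ Ψ₂ ⟨h2, c2, h2'⟩
    exact ⟨computable_caseL hs h1 h2, _, pot_caseL s h1' h2'⟩

theorem good_R3 : Good (RL L3) := by
  refine good_RL ?_ ?_ ?_ ?_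
  · refine fun e => ⟨Computable.const e, 1, fun σ => ?_⟩
    have : V (fun _ => e) σ ⊆ {e} := by
      intro x hx
      obtain ⟨_, _, rfl⟩ := mem_V.1 hx
      simp
    exact (Finset.card_le_card this).trans (by simp)
  · rintro s hs Ψ₁ ⟨h1, b1, h1'⟩ Ψ₂ ⟨h2, b2, h2'⟩
    exact ⟨computable_cmpL hs h1 h2, _, V_cmpL s h1' h2'⟩
  · rintro s hs Ψ₁ ⟨h1, b1, h1'⟩ Ψ₂ ⟨h2, b2, h2'⟩
    exact ⟨computable_prL hs h1 h2, _, V_prL s h1' h2'⟩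
  · rintro s hs Ψ₁ ⟨h1, b1, h1'⟩ Ψ₂ ⟨h2, b2, h2'⟩
    exact ⟨computable_caseL hs h1 h2, _, V_caseL s h1' h2'⟩

theorem good_R4 : Good (RL L4) := by
  refine good_RL ?_ ?_ ?_ ?_
  · exact fun e => Computable.const e
  · exact fun s hs Ψ₁ h1 Ψ₂ h2 => computable_cmpL hs h1 h2
  · exact fun s hs Ψ₁ h1 Ψ₂ h2 => computable_prL hs h1 h2
  · exact fun s hs Ψ₁ h1 Ψ₂ h2 => computable_caseL hs h1 h2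

theorem good_FU {𝓡 : Set Rl} (hG : Good 𝓡) : Good (FU 𝓡) where
  comp := by
    rintro _ ⟨S, ⟨hS, hS'⟩, rfl⟩ _ ⟨S₂, ⟨hS₂, hS₂'⟩, rfl⟩
    choose! F hF hF' using hG.comp
    refine ⟨_, ⟨Set.image2 F S S₂, ⟨hS.image2 F hS₂, ?_⟩, rfl⟩, ?_⟩
    · rintro _ ⟨a, ha, b, hb, rfl⟩
      exact hF a (hS' ha) b (hS₂' hb)
    · rintro g f h ⟨a, ha, h1⟩ ⟨b, hb, h2⟩
      exact ⟨F a b, ⟨a, ha, b, hb, rfl⟩, hF' a (hS' ha) b (hS₂' hb) g f h h1 h2⟩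
  prod := by
    rintro _ ⟨S, ⟨hS, hS'⟩, rfl⟩ _ ⟨S₂, ⟨hS₂, hS₂'⟩, rfl⟩
    choose! F hF hF' using hG.prod
    refine ⟨_, ⟨Set.image2 F S S₂, ⟨hS.image2 F hS₂, ?_⟩, rfl⟩, ?_⟩
    · rintro _ ⟨a, ha, b, hb, rfl⟩
      exact hF a (hS' ha) b (hS₂' hb)
    · rintro g f h ⟨a, ha, h1⟩ ⟨b, hb, h2⟩
      exact ⟨F a b, ⟨a, ha, b, hb, rfl⟩, hF' a (hS' ha) b (hS₂' hb) g f h h1 h2⟩
  cases := by
    rintro _ ⟨S, ⟨hS, hS'⟩, rfl⟩ _ ⟨S₂, ⟨hS₂, hS₂'⟩, rfl⟩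
    choose! F hF hF' using hG.cases
    obtain ⟨T₀, hT₀, _⟩ := hG.index 0
    refine ⟨_, ⟨Set.image2 F (insert T₀ S) (insert T₀ S₂), ⟨(hS.insert _).image2 F (hS₂.insert _),
      ?_⟩, rfl⟩, ?_⟩
    · rintro _ ⟨a, ha, b, hb, rfl⟩
      refine hF a ?_ b ?_
      · rcases ha with rfl | ha
        exacts [hT₀, hS' ha]
      · rcases hb with rfl | hb
        exacts [hT₀, hS₂' hb]
    · intro g f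
      constructor
      · rintro ⟨a, ha, h1⟩
        exact ⟨F a T₀, ⟨a, Set.mem_insert_of_mem _ ha, T₀, Set.mem_insert _ _, rfl⟩,
          (hF' a (hS' ha) T₀ hT₀ g f).1 h1⟩
      · rintro ⟨b, hb, h1⟩
        exact ⟨F T₀ b, ⟨T₀, Set.mem_insert _ _, b, Set.mem_insert_of_mem _ hb, rfl⟩,
          (hF' T₀ hT₀ b (hS₂' hb) g f).2 h1⟩
  index := by
    intro e
    obtain ⟨T, hT, h⟩ := hG.index e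
    exact ⟨_, ⟨{T}, ⟨Set.finite_singleton _, by simpa using hT⟩, rfl⟩,
      fun g f hgf => ⟨T, rfl, h g f hgf⟩⟩
  turing := by
    rintro _ ⟨S, ⟨hS, hS'⟩, rfl⟩ g f ⟨r, hr, h⟩
    exact hG.turing r (hS' hr) g f h

theorem good_R7 : Good R7 where
  comp := by
    rintro _ rfl _ rfl
    exact ⟨_, rfl, fun g f h h1 h2 => h2.trans h1⟩
  prod := by
    rintro _ rfl _ rfl
    exact ⟨_, rfl, fun g f h h1 h2 => h1.join h2⟩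
  cases := by
    rintro _ rfl _ rfl
    exact ⟨_, rfl, fun g f => ⟨fun h => h.trans (TLe.of_cons 0 g),
      fun h => h.trans (TLe.of_cons 1 g)⟩⟩
  index := fun e => ⟨_, rfl, fun g f h => ⟨e, h⟩⟩
  turing := by
    rintro _ rfl g f h
    exact h

/-! ### Inclusions -/

theorem sub_R1_R2 : Sub R1 (RL L2) := by
  rintro _ ⟨e, rfl⟩
  exact ⟨_, ⟨fun _ => e, ⟨Computable.const e, fun _ => 0,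
    fun σ a => ⟨le_rfl, fun h => absurd rfl h⟩⟩, rfl⟩, fun g f h => ident_const.2 h⟩

theorem sub_RL {𝓛 𝓛' : Set (List ℕ → ℕ)} (h : 𝓛 ⊆ 𝓛') : Sub (RL 𝓛) (RL 𝓛') := by
  rintro _ ⟨Ψ, hΨ, rfl⟩
  exact ⟨_, ⟨Ψ, h hΨ, rfl⟩, fun g f h => h⟩

theorem sub_R3_R4 : Sub (RL L3) (RL L4) := sub_RL fun _ h => h.1

theorem sub_FU {𝓡 : Set Rl} : Sub 𝓡 (FU 𝓡) := by
  intro R hR
  exact ⟨_, ⟨{R}, ⟨Set.finite_singleton _, by simpa using hR⟩, rfl⟩, fun g f h => ⟨R, rfl, h⟩⟩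

theorem sub_FU_FU {𝓡 𝓢 : Set Rl} (h : Sub 𝓡 𝓢) : Sub (FU 𝓡) (FU 𝓢) := by
  rintro _ ⟨S, ⟨hS, hS'⟩, rfl⟩
  choose! F hF hF' using h
  refine ⟨_, ⟨F '' S, ⟨hS.image F, ?_⟩, rfl⟩, ?_⟩
  · rintro _ ⟨a, ha, rfl⟩
    exact hF a (hS' ha)
  · rintro g f ⟨r, hr, h⟩
    exact ⟨F r, ⟨r, hr, rfl⟩, hF' r (hS' hr) g f h⟩

theorem sub_R7 {𝓡 : Set Rl} (hG : Good 𝓡) : Sub 𝓡 R7 :=
  fun R hR => ⟨_, rfl, fun g f h => hG.turing R hR g f h⟩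

end Pool.Agent.LearnDeg
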