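import Pool.Agent.LearnDeg.Force

/-!
# An uncountable independent family indexed by a scale
-/

namespace Pool.Agent.LearnDeg

open Filter Encodable

/-- Join of a finite list of functions. -/
def J : List (ℕ → ℕ) → ℕ → ℕ
  | [] => fun _ => 0
  | y :: l => join y (J l)

theorem TLe_J {l : List (ℕ → ℕ)} {y : ℕ → ℕ} (h : y ∈ l) : TLe y (J l) := by
  induction l with
  | nil => simp at h
  | cons z l ih =>
    rcases List.mem_cons.1 h with rfl | h
    · exact TLe.left _ _
    · exact (ih h).trans (TLe.right _ _)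

theorem J_TLe {l : List (ℕ → ℕ)} {z : ℕ → ℕ} (h : ∀ y ∈ l, TLe y z) : TLe (J l) z := by
  induction l with
  | nil => exact TLe.of_computable (Computable.const 0) _
  | cons y l ih =>
    exact TLe.join (h y (by simp)) (ih fun y hy => h y (by simp [hy]))

/-- `r` is computable from finitely many elements of `S`. -/
def Idl (S : Set (ℕ → ℕ)) (r : ℕ → ℕ) : Prop := ∃ l : List (ℕ → ℕ), (∀ y ∈ l, y ∈ S) ∧ TLe r (J l)

theorem Idl.of_mem {S : Set (ℕ → ℕ)} {y : ℕ → ℕ} (h : y ∈ S) : Idl S y :=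
  ⟨[y], by simpa using h, TLe_J (by simp)⟩

theorem Idl.mono {S S' : Set (ℕ → ℕ)} (h : S ⊆ S') {r : ℕ → ℕ} (hr : Idl S r) : Idl S' r := by
  obtain ⟨l, h1, h2⟩ := hr
  exact ⟨l, fun y hy => h (h1 y hy), h2⟩

theorem Idl.down {S : Set (ℕ → ℕ)} {r r' : ℕ → ℕ} (h : Idl S r) (h' : TLe r' r) : Idl S r' := by
  obtain ⟨l, h1, h2⟩ := h
  exact ⟨l, h1, h'.trans h2⟩

theorem Idl.join {S : Set (ℕ → ℕ)} {r r' : ℕ → ℕ} (h : Idl S r) (h' : Idl S r') :
    Idl S (LearnDeg.join r r') := by
  obtain ⟨l, h1, h2⟩ := h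
  obtain ⟨l', h1', h2'⟩ := h'
  refine ⟨l ++ l', ?_, TLe.join ?_ ?_⟩
  · intro y hy
    rcases List.mem_append.1 hy with hy | hy
    exacts [h1 y hy, h1' y hy]
  · exact h2.trans (J_TLe fun y hy => TLe_J (by simp [hy]))
  · exact h2'.trans (J_TLe fun y hy => TLe_J (by simp [hy]))

theorem Idl.zero (S : Set (ℕ → ℕ)) {r : ℕ → ℕ} (h : Computable r) : Idl S r :=
  ⟨[], by simp, TLe.of_computable h _⟩

theorem idl_J {S : Set (ℕ → ℕ)} {l : List (ℕ → ℕ)} (h : ∀ y ∈ l, Idl S y) : Idl S (J l) := by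
  induction l with
  | nil => exact Idl.zero S (Computable.const 0)
  | cons y l ih => exact Idl.join (h y (by simp)) (ih fun y hy => h y (by simp [hy]))

theorem idl_insert {S : Set (ℕ → ℕ)} {y r : ℕ → ℕ} (h : Idl (insert y S) r) :
    ∃ l : List (ℕ → ℕ), (∀ z ∈ l, z ∈ S) ∧ TLe r (join (J l) y) := by
  obtain ⟨l, h1, h2⟩ := h
  induction l generalizing r with
  | nil => exact ⟨[], by simp, h2.trans (TLe.left _ _)⟩
  | cons z l ih =>
    obtain ⟨l', h3, h4⟩ := ih (fun z hz => h1 z (by simp [hz])) (TLe.refl _)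
    rcases h1 z (by simp) with rfl | hz
    · exact ⟨l', h3, h2.trans (TLe.join (TLe.right _ _) h4)⟩
    · refine ⟨z :: l', ?_, h2.trans (TLe.join ?_ ?_)⟩
      · intro x hx
        rcases List.mem_cons.1 hx with rfl | hx
        exacts [hz, h3 x hx]
      · exact (TLe_J (by simp)).trans (TLe.left _ _)
      · exact h4.trans (TLe.join_le_join (J_TLe fun x hx => TLe_J (by simp [hx])) (TLe.refl _))

theorem countable_lists {S : Set (ℕ → ℕ)} (hS : S.Countable) :
    {l : List (ℕ → ℕ) | ∀ y ∈ l, y ∈ S}.Countable := by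
  have := hS.to_subtype
  refine (Set.countable_range (List.map (Subtype.val : S → ℕ → ℕ))).mono ?_
  intro l hl
  refine ⟨l.attach.map fun y => ⟨y.1, hl y.1 y.2⟩, ?_⟩
  simp [List.map_map, Function.comp_def]

theorem countable_idl {S : Set (ℕ → ℕ)} (hS : S.Countable) : {r | Idl S r}.Countable := by
  have : {r | Idl S r} ⊆ ⋃ l ∈ {l : List (ℕ → ℕ) | ∀ y ∈ l, y ∈ S}, {r | TLe r (J l)} := by
    rintro r ⟨l, h1, h2⟩
    exact Set.mem_biUnion (x := l) h1 h2
  exact ((countable_lists hS).biUnion fun l _ => countable_lower (J l)).mono this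

theorem exists_notMem_of_countable {S : Set (ℕ → ℕ)} (hS : S.Countable) : ∃ x, x ∉ S := by
  by_contra h
  push Not at h
  have h1 : (Set.univ : Set (ℕ → ℕ)).Countable := hS.mono fun x _ => h x
  have h2 : Uncountable (ℕ → ℕ) := by
    rw [← Cardinal.aleph0_lt_mk_iff]
    simp [Cardinal.aleph0_lt_continuum]
  rw [Set.countable_univ_iff] at h1
  exact not_countable h1

/-! ### Domination -/

/-- Constraint: values exceed those of the first `N` functions. -/
def cdom (xs : ℕ → ℕ → ℕ) : ℕ → ℕ → ℕ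
  | 0 => fun _ => 0
  | N + 1 => fun t => if cdom xs N t = 0 ∧ xs N t.unpair.1 < t.unpair.2 then 0 else 1

theorem cdom_eq_zero {xs : ℕ → ℕ → ℕ} {N m v : ℕ} :
    cdom xs N (Nat.pair m v) = 0 ↔ ∀ i < N, xs i m < v := by
  induction N with
  | zero => simp [cdom]
  | succ N ih =>
    simp only [cdom, Nat.unpair_pair, ih, Nat.lt_succ_iff_lt_or_eq]
    constructor
    · intro h i hi
      have h' : (∀ i < N, xs i m < v) ∧ xs N m < v := by
        by_contra hcon
        rw [if_neg hcon] at h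
        exact one_ne_zero h
      rcases hi with hi | rfl
      exacts [h'.1 i hi, h'.2]
    · intro h
      rw [if_pos ⟨fun i hi => h i (Or.inl hi), h N (Or.inr rfl)⟩]

theorem TLe_cdom (xs : ℕ → ℕ → ℕ) (N : ℕ) :
    TLe (cdom xs N) (J ((List.range N).map xs)) := by
  induction N with
  | zero => exact TLe.of_computable (Computable.const 0) _
  | succ N ih =>
    have h1 : TLe (cdom xs N) (J ((List.range (N + 1)).map xs)) := by
      refine ih.trans (J_TLe fun y hy => TLe_J ?_)
      rw [List.range_succ, List.map_append]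
      exact List.mem_append_left _ hy
    have h2 : TLe (xs N) (J ((List.range (N + 1)).map xs)) := by
      refine TLe_J ?_
      rw [List.range_succ]
      simp
    have h3 : TLe (fun t => xs N t.unpair.1) (xs N) :=
      TLe.reindex (Primrec.to_comp (Primrec.fst.comp Primrec.unpair)) _
    have h4 : TLe (fun t : ℕ => t) (J ((List.range (N + 1)).map xs)) :=
      TLe.of_computable Computable.id _
    have h5 : TLe (join (cdom xs N) (join (fun t => xs N t.unpair.1) fun t => t))
        (J ((List.range (N + 1)).map xs)) := h1.join ((h3.trans h2).join h4)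
    let q : ℕ → ℕ := fun u =>
      if u.unpair.1 = 0 ∧ u.unpair.2.unpair.1 < u.unpair.2.unpair.2.unpair.2 then 0 else 1
    have hq : Computable q := by
      refine Primrec.to_comp ?_
      have a1 : Primrec fun u : ℕ => u.unpair.1 := Primrec.fst.comp Primrec.unpair
      have a2 : Primrec fun u : ℕ => u.unpair.2 := Primrec.snd.comp Primrec.unpair
      refine Primrec.ite (PrimrecPred.and (Primrec.eq.comp a1 (Primrec.const 0))
        (Primrec.nat_lt.comp (a1.comp a2) (a2.comp (a2.comp a2))))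
        (Primrec.const 0) (Primrec.const 1)
    have h6 := (TLe.map hq (join (cdom xs N) (join (fun t => xs N t.unpair.1) fun t => t))).trans h5
    have h7 : (fun n => q (join (cdom xs N) (join (fun t => xs N t.unpair.1) fun t => t) n)) =
        cdom xs (N + 1) := by
      funext t
      simp [q, join, cdom]
    rwa [h7] at h6

/-- A function dominating countably many given functions and avoiding cones. -/
theorem exists_dom {X : Set (ℕ → ℕ)} (hX : X.Countable) {W : Set ((ℕ → ℕ) × (ℕ → ℕ))}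
    (hW : W.Countable)
    (h : ∀ p ∈ W, ∀ l : List (ℕ → ℕ), (∀ y ∈ l, y ∈ X) → ¬ TLe p.1 (join p.2 (J l))) :
    ∃ x, (∀ y ∈ X, ∀ᶠ m in atTop, y m < x m) ∧ ∀ p ∈ W, ¬ TLe p.1 (join p.2 x) := by
  classical
  -- enumerate `X` together with the zero function
  obtain ⟨xs, hxs⟩ := (hX.insert (fun _ => 0)).exists_eq_range (Set.insert_nonempty _ _)
  have hxs' : ∀ n, Idl X (xs n) := by
    intro n
    have : xs n ∈ insert (fun _ => 0) X := hxs ▸ Set.mem_range_self n
    rcases this with h0 | h0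
    · rw [h0]; exact Idl.zero X (Computable.const 0)
    · exact Idl.of_mem h0
  have hc : ∀ N, Idl X (cdom xs N) := by
    intro N
    refine Idl.down (idl_J (l := (List.range N).map xs) ?_) (TLe_cdom xs N)
    intro y hy
    obtain ⟨i, _, rfl⟩ := List.mem_map.1 hy
    exact hxs' i
  -- a dummy pair
  obtain ⟨r₀, hr₀⟩ := exists_notMem_of_countable (countable_idl hX)
  have h' : ∀ p ∈ insert ((r₀, fun _ => 0) : (ℕ → ℕ) × (ℕ → ℕ)) W, ∀ N,
      ¬ TLe p.1 (join p.2 (cdom xs N)) := by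
    intro p hp N hcon
    rcases hp with rfl | hp
    · refine hr₀ (Idl.down ?_ hcon)
      exact (Idl.zero X (Computable.const 0)).join (hc N)
    · obtain ⟨l, hl, hl'⟩ := hc N
      exact h p hp l hl (hcon.trans (TLe.join_le_join (TLe.refl _) hl'))
  obtain ⟨P, hP⟩ := (hW.insert ((r₀, fun _ => 0) : (ℕ → ℕ) × (ℕ → ℕ))).exists_eq_range
    (Set.insert_nonempty _ _)
  obtain ⟨x, hx1, hx2⟩ := exists_avoid (cdom xs) (by
      intro N m
      refine ⟨(Finset.range N).sup (fun i => xs i m) + 1, cdom_eq_zero.2 fun i hi => ?_⟩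
      exact Nat.lt_succ_of_le (Finset.le_sup (f := fun i => xs i m) (Finset.mem_range.2 hi)))
    (by
      intro N m v h
      rw [cdom_eq_zero] at h ⊢
      exact fun i hi => h i (by omega))
    (fun j => (P j).1) (fun j => (P j).2) (by
      intro j N
      exact h' (P j) (hP ▸ Set.mem_range_self j) N)
  refine ⟨x, fun y hy => ?_, fun p hp => ?_⟩
  · obtain ⟨i, rfl⟩ : y ∈ Set.range xs := hxs ▸ Set.mem_insert_of_mem _ hy
    filter_upwards [hx1 (i + 1)] with m hm
    exact cdom_eq_zero.1 hm i (Nat.lt_succ_self i)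
  · obtain ⟨j, rfl⟩ : p ∈ Set.range P := hP ▸ Set.mem_insert_of_mem _ hp
    exact hx2 j

/-- A function outside a countable set and avoiding cones. -/
theorem exists_out {Z : Set (ℕ → ℕ)} (hZ : Z.Countable) {W : Set ((ℕ → ℕ) × (ℕ → ℕ))}
    (hW : W.Countable) (h : ∀ p ∈ W, ¬ TLe p.1 p.2) :
    ∃ x, x ∉ Z ∧ ∀ p ∈ W, ¬ TLe p.1 (join p.2 x) := by
  obtain ⟨zs, hzs⟩ := (hZ.insert (fun _ => 0)).exists_eq_range (Set.insert_nonempty _ _)
  obtain ⟨r₀, hr₀⟩ := exists_notMem_of_countable (countable_lower fun _ => 0)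
  obtain ⟨P, hP⟩ := (hW.insert ((r₀, fun _ => 0) : (ℕ → ℕ) × (ℕ → ℕ))).exists_eq_range
    (Set.insert_nonempty _ _)
  obtain ⟨x, hx1, hx2⟩ := exists_avoid' (fun j => (P j).1) (fun j => (P j).2) zs (by
    intro j
    have : P j ∈ insert ((r₀, fun _ => 0) : (ℕ → ℕ) × (ℕ → ℕ)) W := hP ▸ Set.mem_range_self j
    rcases this with h0 | h0
    · simp only [h0]; exact hr₀
    · exact h _ h0)
  refine ⟨x, fun hx => ?_, fun p hp => ?_⟩
  · obtain ⟨i, hi⟩ : x ∈ Set.range zs := hzs ▸ Set.mem_insert_of_mem _ hx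
    exact hx1 i hi.symm
  · obtain ⟨j, rfl⟩ : p ∈ Set.range P := hP ▸ Set.mem_insert_of_mem _ hp
    exact hx2 j

/-! ### Independence -/

/-- Independence of the family `(x, k)` on the index set `A`. -/
def Ind {O : Type} (A : Set O) (x k : O → ℕ → ℕ) : Prop :=
  (∀ γ ∈ A, ¬ Idl (x '' A) (k γ)) ∧
    ∀ γ ∈ A, ∀ α ∈ A, α ≠ γ → ¬ Idl (insert (k α) (x '' A)) (k γ)

theorem ind_step {O : Type} {A : Set O} (hA : A.Countable) {x k : O → ℕ → ℕ} (h : Ind A x k) :
    ∃ x' k' : ℕ → ℕ, (∀ i ∈ A, ∀ᶠ m in atTop, x i m < x' m) ∧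
      (¬ Idl (insert x' (x '' A)) k') ∧ (∀ γ ∈ A, ¬ Idl (insert x' (x '' A)) (k γ)) ∧
      (∀ α ∈ A, ¬ Idl (insert (k α) (insert x' (x '' A))) k') ∧
      (∀ γ ∈ A, ¬ Idl (insert k' (insert x' (x '' A))) (k γ)) ∧
      ∀ γ ∈ A, ∀ α ∈ A, α ≠ γ → ¬ Idl (insert (k α) (insert x' (x '' A))) (k γ) := by
  obtain ⟨h1, h2⟩ := h
  have hXc : (x '' A).Countable := hA.image x
  -- the pairs for `x'`
  let W : Set ((ℕ → ℕ) × (ℕ → ℕ)) :=
    (⋃ γ ∈ A, (fun l => (k γ, J l)) '' {l : List (ℕ → ℕ) | ∀ y ∈ l, y ∈ x '' A}) ∪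
    (⋃ γ ∈ A, ⋃ α ∈ A, (fun l => (k γ, J l)) ''
      {l : List (ℕ → ℕ) | α ≠ γ ∧ ∀ y ∈ l, y ∈ insert (k α) (x '' A)})
  have hW : W.Countable := by
    refine Set.Countable.union ?_ ?_
    · exact hA.biUnion fun γ _ => (countable_lists hXc).image _
    · refine hA.biUnion fun γ _ => hA.biUnion fun α _ => Set.Countable.image ?_ _
      exact (countable_lists (hXc.insert (k α))).mono fun l hl => hl.2
  obtain ⟨x', hx1, hx2⟩ := exists_dom hXc hW (by
    intro p hp l hl hcon
    rcases hp with hp | hp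
    · simp only [Set.mem_iUnion] at hp
      obtain ⟨γ, hγ, l', hl', rfl⟩ := hp
      refine h1 γ hγ (Idl.down ?_ hcon)
      exact (idl_J fun y hy => Idl.of_mem (hl' y hy)).join (idl_J fun y hy => Idl.of_mem (hl y hy))
    · simp only [Set.mem_iUnion] at hp
      obtain ⟨γ, hγ, α, hα, l', ⟨hne, hl'⟩, rfl⟩ := hp
      refine h2 γ hγ α hα hne (Idl.down ?_ hcon)
      exact (idl_J fun y hy => Idl.of_mem (hl' y hy)).join
        (idl_J fun y hy => Idl.of_mem (Set.mem_insert_of_mem _ (hl y hy))))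
  have f1 : ∀ γ ∈ A, ¬ Idl (insert x' (x '' A)) (k γ) := by
    intro γ hγ hcon
    obtain ⟨l, hl, hl'⟩ := idl_insert hcon
    refine hx2 (k γ, J l) (Or.inl ?_) hl'
    simp only [Set.mem_iUnion]
    exact ⟨γ, hγ, l, hl, rfl⟩
  have f2 : ∀ γ ∈ A, ∀ α ∈ A, α ≠ γ → ¬ Idl (insert (k α) (insert x' (x '' A))) (k γ) := by
    intro γ hγ α hα hne hcon
    rw [Set.insert_comm] at hcon
    obtain ⟨l, hl, hl'⟩ := idl_insert hcon
    refine hx2 (k γ, J l) (Or.inr ?_) hl'
    simp only [Set.mem_iUnion]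
    exact ⟨γ, hγ, α, hα, l, ⟨hne, hl⟩, rfl⟩
  -- the pairs and the excluded functions for `k'`
  have hX'c : (insert x' (x '' A)).Countable := hXc.insert x'
  let W' : Set ((ℕ → ℕ) × (ℕ → ℕ)) :=
    ⋃ γ ∈ A, (fun l => (k γ, J l)) '' {l : List (ℕ → ℕ) | ∀ y ∈ l, y ∈ insert x' (x '' A)}
  have hW' : W'.Countable := hA.biUnion fun γ _ => (countable_lists hX'c).image _
  let Z : Set (ℕ → ℕ) := {r | Idl (insert x' (x '' A)) r} ∪
    ⋃ α ∈ A, {r | Idl (insert (k α) (insert x' (x '' A))) r}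
  have hZ : Z.Countable := (countable_idl hX'c).union
    (hA.biUnion fun α _ => countable_idl (hX'c.insert (k α)))
  obtain ⟨k', hk1, hk2⟩ := exists_out hZ hW' (by
    intro p hp hcon
    simp only [W', Set.mem_iUnion] at hp
    obtain ⟨γ, hγ, l, hl, rfl⟩ := hp
    exact f1 γ hγ ⟨l, hl, hcon⟩)
  refine ⟨x', k', fun i hi => hx1 _ ⟨i, hi, rfl⟩, fun h => hk1 (Or.inl h), f1, ?_, ?_, f2⟩
  · intro α hα hcon
    refine hk1 (Or.inr ?_)
    simp only [Set.mem_iUnion]
    exact ⟨α, hα, hcon⟩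
  · intro γ hγ hcon
    obtain ⟨l, hl, hl'⟩ := idl_insert hcon
    refine hk2 (k γ, J l) ?_ hl'
    simp only [W', Set.mem_iUnion]
    exact ⟨γ, hγ, l, hl, rfl⟩

theorem Ind.congr {O : Type} {A : Set O} {x k x' k' : O → ℕ → ℕ} (hx : ∀ i ∈ A, x i = x' i)
    (hk : ∀ i ∈ A, k i = k' i) (h : Ind A x k) : Ind A x' k' := by
  have h0 : x '' A = x' '' A := Set.image_congr hx
  refine ⟨fun γ hγ => ?_, fun γ hγ α hα hne => ?_⟩
  · rw [← h0, ← hk γ hγ]; exact h.1 γ hγ
  · rw [← h0, ← hk γ hγ, ← hk α hα]; exact h.2 γ hγ α hα hne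

/-- Independence is a finitary condition. -/
theorem ind_of_initial {O : Type} [LinearOrder O] {A : Set O} {x k : O → ℕ → ℕ}
    (hA : ∀ μ ∈ A, Set.Iic μ ⊆ A) (h : ∀ μ ∈ A, Ind (Set.Iic μ) x k) : Ind A x k := by
  classical
  -- elements of lists come from initial segments
  have key : ∀ μ₀ ∈ A, ∀ l : List (ℕ → ℕ), ∀ (z : ℕ → ℕ), (∀ y ∈ l, y = z ∨ y ∈ x '' A) →
      ∃ μ ∈ A, μ₀ ≤ μ ∧ ∀ y ∈ l, y = z ∨ y ∈ x '' Set.Iic μ := by
    intro μ₀ hμ₀ l z
    induction l with
    | nil => intro _; exact ⟨μ₀, hμ₀, le_rfl, by simp⟩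
    | cons y l ih =>
      intro hl
      obtain ⟨μ, hμ, h1, h2⟩ := ih fun y hy => hl y (by simp [hy])
      rcases hl y (by simp) with rfl | ⟨δ, hδ, rfl⟩
      · refine ⟨μ, hμ, h1, fun y' hy' => ?_⟩
        rcases List.mem_cons.1 hy' with rfl | hy'
        · exact Or.inl rfl
        · exact h2 y' hy'
      · refine ⟨max μ δ, ?_, h1.trans (le_max_left _ _), fun y' hy' => ?_⟩
        · rcases max_choice μ δ with h | h <;> rw [h] <;> assumption
        · rcases List.mem_cons.1 hy' with rfl | hy'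
          · exact Or.inr ⟨δ, le_max_right μ δ, rfl⟩
          · rcases h2 y' hy' with h | ⟨δ', hδ', rfl⟩
            · exact Or.inl h
            · exact Or.inr ⟨δ', le_trans hδ' (le_max_left μ δ), rfl⟩
  refine ⟨fun γ hγ hcon => ?_, fun γ hγ α hα hne hcon => ?_⟩
  · obtain ⟨l, hl, hl'⟩ := hcon
    obtain ⟨μ, hμ, h1, h2⟩ := key γ hγ l (x γ) (fun y hy => Or.inr (hl y hy))
    refine (h μ hμ).1 γ h1 ⟨l, fun y hy => ?_, hl'⟩
    rcases h2 y hy with rfl | h
    · exact ⟨γ, h1, rfl⟩
    · exact h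
  · obtain ⟨l, hl, hl'⟩ := hcon
    have hmax : max γ α ∈ A := by
      rcases max_choice γ α with h | h <;> rw [h] <;> assumption
    obtain ⟨μ, hμ, h1, h2⟩ := key (max γ α) hmax l (k α) (fun y hy => hl y hy)
    exact (h μ hμ).2 γ (le_trans (le_max_left γ α) h1) α (le_trans (le_max_right γ α) h1) hne
      ⟨l, h2, hl'⟩

/-- Transfinite construction of an independent scale. -/
theorem exists_scale (O : Type) [LinearOrder O] [WellFoundedLT O]
    (hO : ∀ β : O, (Set.Iio β).Countable) :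
    ∃ x k : O → ℕ → ℕ, (∀ γ δ, γ < δ → ∀ᶠ m in atTop, x γ m < x δ m) ∧
      Ind Set.univ x k := by
  classical
  -- extension of a function on an initial segment
  let ext : (β : O) → ((γ : O) → γ < β → (ℕ → ℕ) × (ℕ → ℕ)) → O → (ℕ → ℕ) × (ℕ → ℕ) :=
    fun β ih γ => if h : γ < β then ih γ h else (fun _ => 0, fun _ => 0)
  let P : (β : O) → ((γ : O) → γ < β → (ℕ → ℕ) × (ℕ → ℕ)) → (ℕ → ℕ) × (ℕ → ℕ) → Prop :=
    fun β ih q => (∀ γ < β, ∀ᶠ m in atTop, (ext β ih γ).1 m < q.1 m) ∧
      Ind (Set.Iic β) (fun γ => if γ = β then q.1 else (ext β ih γ).1)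
        (fun γ => if γ = β then q.2 else (ext β ih γ).2)
  let step : (β : O) → ((γ : O) → γ < β → (ℕ → ℕ) × (ℕ → ℕ)) → (ℕ → ℕ) × (ℕ → ℕ) :=
    fun β ih => if h : ∃ q, P β ih q then h.choose else (fun _ => 0, fun _ => 0)
  let p : O → (ℕ → ℕ) × (ℕ → ℕ) := (wellFounded_lt (α := O)).fix step
  have hp : ∀ β, p β = step β (fun γ _ => p γ) := fun β => (wellFounded_lt (α := O)).fix_eq step β
  have hext : ∀ β, ∀ γ < β, ext β (fun γ _ => p γ) γ = p γ := by
    intro β γ h
    simp only [ext, dif_pos h]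
  have main : ∀ β, (∀ γ < β, ∀ᶠ m in atTop, (p γ).1 m < (p β).1 m) ∧
      Ind (Set.Iic β) (fun γ => (p γ).1) (fun γ => (p γ).2) := by
    intro β
    induction β using WellFoundedLT.induction with
    | _ β ih =>
      have h1 : Ind (Set.Iio β) (fun γ => (p γ).1) (fun γ => (p γ).2) :=
        ind_of_initial (fun μ hμ ν hν => lt_of_le_of_lt hν hμ) fun μ hμ => (ih μ hμ).2
      obtain ⟨x', k', hdom, a1, a2, a3, a4, a5⟩ := ind_step (hO β) h1
      have hex : ∃ q, P β (fun γ _ => p γ) q := by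
        refine ⟨(x', k'), ?_, ?_⟩
        · intro γ hγ
          rw [hext β γ hγ]
          exact hdom γ hγ
        · have himg : (fun γ => if γ = β then x' else (ext β (fun γ _ => p γ) γ).1) ''
              Set.Iic β = insert x' ((fun γ => (p γ).1) '' Set.Iio β) := by
            ext y
            constructor
            · rintro ⟨γ, hγ, rfl⟩
              rcases eq_or_lt_of_le (show γ ≤ β from hγ) with rfl | hlt
              · left; simp
              · right
                refine ⟨γ, hlt, ?_⟩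
                simp only [if_neg hlt.ne]
                rw [hext β γ hlt]
            · rintro (rfl | ⟨γ, hγ, rfl⟩)
              · exact ⟨β, le_rfl, by simp⟩
              · refine ⟨γ, le_of_lt hγ, ?_⟩
                simp only [if_neg (ne_of_lt hγ)]
                rw [hext β γ hγ]
          have hkβ : ∀ γ, γ < β → (if γ = β then k' else (ext β (fun γ _ => p γ) γ).2) =
              (p γ).2 := by
            intro γ hγ
            rw [if_neg (ne_of_lt hγ), hext β γ hγ]
          refine ⟨fun γ hγ => ?_, fun γ hγ α hα hne => ?_⟩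
          · rw [himg]
            rcases eq_or_lt_of_le (show γ ≤ β from hγ) with rfl | hlt
            · simpa using a1
            · simp only [hkβ γ hlt]
              exact a2 γ hlt
          · rw [himg]
            rcases eq_or_lt_of_le (show γ ≤ β from hγ) with rfl | hlt
            · rcases eq_or_lt_of_le (show α ≤ γ from hα) with rfl | hlt'
              · exact absurd rfl hne
              · simp only [hkβ α hlt', if_true]
                exact a3 α hlt'
            · rcases eq_or_lt_of_le (show α ≤ β from hα) with rfl | hlt'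
              · simp only [hkβ γ hlt, if_true]
                exact a4 γ hlt
              · simp only [hkβ γ hlt, hkβ α hlt']
                exact a5 γ hlt α hlt' hne
      have hq : P β (fun γ _ => p γ) (p β) := by
        rw [hp β]
        simp only [step, dif_pos hex]
        exact hex.choose_spec
      refine ⟨fun γ hγ => ?_, ?_⟩
      · have := hq.1 γ hγ
        rwa [hext β γ hγ] at this
      · refine hq.2.congr ?_ ?_
        · intro γ hγ
          rcases eq_or_lt_of_le (show γ ≤ β from hγ) with rfl | hlt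
          · simp
          · simp only [if_neg hlt.ne]; rw [hext β γ hlt]
        · intro γ hγ
          rcases eq_or_lt_of_le (show γ ≤ β from hγ) with rfl | hlt
          · simp
          · simp only [if_neg hlt.ne]; rw [hext β γ hlt]
  exact ⟨fun γ => (p γ).1, fun γ => (p γ).2, fun γ δ h => (main δ).1 γ h,
    ind_of_initial (fun _ _ => Set.subset_univ _) fun μ _ => (main μ).2⟩

/-- The independent family. -/
theorem exists_family : ∃ (O : Type) (_ : LinearOrder O) (x k : O → ℕ → ℕ),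
    Uncountable O ∧ (∀ S : Set O, S.Countable → ∃ β, ∀ α ∈ S, α < β) ∧
    (∀ β : O, (Set.Iio β).Countable) ∧
    (∀ γ δ, γ < δ → ∀ᶠ m in atTop, x γ m < x δ m) ∧
    ∀ γ α, α ≠ γ → ¬ Idl (insert (k α) (Set.range x)) (k γ) := by
  classical
  let O := (Cardinal.aleph 1).ord.ToType
  have hO : ∀ β : O, (Set.Iio β).Countable := by
    intro β
    rw [← Cardinal.le_aleph0_iff_set_countable, ← Cardinal.lt_aleph_one_iff]
    exact Cardinal.mk_Iio_toType_ord_lt β
  have hU : Uncountable O := by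
    rw [← Cardinal.aleph0_lt_mk_iff]
    simp [O]
  obtain ⟨x, k, h1, h2⟩ := exists_scale O hO
  refine ⟨O, inferInstance, x, k, hU, ?_, hO, h1, ?_⟩
  · intro S hS
    by_contra hcon
    push Not at hcon
    have h3 : (Set.univ : Set O) ⊆ ⋃ α ∈ S, Set.Iic α := by
      intro β _
      obtain ⟨α, hα, hβ⟩ := hcon β
      exact Set.mem_biUnion hα hβ
    have h4 : (Set.univ : Set O).Countable := by
      refine (hS.biUnion fun α _ => ?_).mono h3
      rw [← Set.Iio_insert]
      exact (hO α).insert α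
    rw [Set.countable_univ_iff] at h4
    exact not_countable h4
  · intro γ α hne
    have := h2.2 γ (Set.mem_univ _) α (Set.mem_univ _) hne
    rwa [Set.image_univ] at this

end Pool.Agent.LearnDeg
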