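import Pool.Agent.LearnDeg.Turing

/-!
# Generic functions avoiding cones, with side conditions
-/

namespace Pool.Agent.LearnDeg

open Filter Encodable

/-- `x` respects the constraint `c` from place `a` on. -/
def Resp (c : ℕ → ℕ) (a : ℕ) (x : ℕ → ℕ) : Prop := ∀ m, a ≤ m → c (Nat.pair m (x m)) = 0

/-- Extension of a finite string to a function that respects `c` beyond it. -/
theorem exists_ext {c : ℕ → ℕ} (hne : ∀ m, ∃ v, c (Nat.pair m v) = 0) (σ : List ℕ) :
    ∃ x, seg x σ.length = σ ∧ Resp c σ.length x := by
  choose v hv using hne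
  refine ⟨fun m => if h : m < σ.length then σ[m] else v m, ?_, ?_⟩
  · symm
    rw [eq_seg_iff]
    intro i k hk
    obtain ⟨hi, hk⟩ := List.getElem?_eq_some_iff.1 hk
    simp [hi, hk]
  · intro m hm
    simp only
    rw [dif_neg (by omega)]
    exact hv m

/-- Abstract generic construction. -/
theorem exists_generic (c : ℕ → ℕ → ℕ) (hne : ∀ N m, ∃ v, c N (Nat.pair m v) = 0)
    (hdec : ∀ N m v, c (N + 1) (Nat.pair m v) = 0 → c N (Nat.pair m v) = 0)
    (Req : ℕ → Set (ℕ → ℕ))
    (hReq : ∀ j (y : ℕ → ℕ) a N, ∃ (z : ℕ → ℕ) (b : ℕ), a ≤ b ∧ seg z a = seg y a ∧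
      Resp (c N) a z ∧ ∀ x, seg x b = seg z b → Resp (c N) a x → x ∈ Req j) :
    ∃ x, (∀ N, ∀ᶠ m in atTop, c N (Nat.pair m (x m)) = 0) ∧ ∀ j, x ∈ Req j := by
  choose Z b hb hZ hR hx using hReq
  choose v hv using hne
  -- state: a function and a length
  let st : ℕ → (ℕ → ℕ) × ℕ := fun n =>
    Nat.rec (fun _ => 0, 0) (fun j s => (Z j s.1 s.2 j, b j s.1 s.2 j + 1)) n
  have hst : ∀ j, st (j + 1) = (Z j (st j).1 (st j).2 j, b j (st j).1 (st j).2 j + 1) :=
    fun j => rfl
  have hlt : ∀ j, (st j).2 < (st (j + 1)).2 := by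
    intro j
    rw [hst]
    have := hb j (st j).1 (st j).2 j
    simp only
    omega
  have hle : ∀ i j, i ≤ j → (st i).2 ≤ (st j).2 := by
    intro i j hij
    induction hij with
    | refl => exact le_rfl
    | @step j _ ih => exact ih.trans (hlt j).le
  have hge : ∀ j, j ≤ (st j).2 := by
    intro j
    induction j with
    | zero => exact Nat.zero_le _
    | succ j ih => have := hlt j; omega
  have hval : ∀ i j, i ≤ j → ∀ m < (st i).2, (st j).1 m = (st i).1 m := by
    intro i j hij
    induction hij with
    | refl => intro m _; rfl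
    | @step j hij ih =>
      intro m hm
      rw [← ih m hm]
      have h1 : seg (st (j + 1)).1 (st j).2 = seg (st j).1 (st j).2 := by
        rw [hst]; exact hZ j (st j).1 (st j).2 j
      have h2 : m < (st j).2 := lt_of_lt_of_le hm (hle i j hij)
      have h3 := congrArg (fun l => l[m]?) h1
      simpa [seg_getElem?_of_lt h2] using h3
  let x : ℕ → ℕ := fun m => (st (m + 1)).1 m
  have hxv : ∀ j, ∀ m < (st j).2, x m = (st j).1 m := by
    intro j m hm
    rcases le_total j (m + 1) with h | h
    · exact hval j (m + 1) h m hm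
    · exact (hval (m + 1) j h m (lt_of_lt_of_le (Nat.lt_succ_self m) (hge (m + 1)))).symm
  have hcmono : ∀ N M m v, N ≤ M → c M (Nat.pair m v) = 0 → c N (Nat.pair m v) = 0 := by
    intro N M m v hNM
    induction hNM with
    | refl => exact fun h => h
    | step _ ih => exact fun h => ih (hdec _ _ _ h)
  have hresp : ∀ j, Resp (c j) (st j).2 x := by
    intro j m hm
    -- find the stage at which place `m` is decided
    have hex : ∃ i, m < (st i).2 := ⟨m + 1, lt_of_lt_of_le (Nat.lt_succ_self m) (hge (m + 1))⟩
    classical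
    let i := Nat.find hex
    have hi : m < (st i).2 := Nat.find_spec hex
    have hij : j < i := by
      by_contra hcon
      push Not at hcon
      exact absurd (lt_of_lt_of_le hi (hle i j hcon)) (by omega)
    obtain ⟨k, hk⟩ : ∃ k, i = k + 1 := ⟨i - 1, by omega⟩
    have hkm : (st k).2 ≤ m := by
      by_contra hcon
      push Not at hcon
      have := Nat.find_min hex (m := k) (by omega)
      exact this hcon
    rw [hxv i m hi, hk, hst]
    exact hcmono j k m _ (by omega) (hR k (st k).1 (st k).2 k m hkm)
  refine ⟨x, fun N => ?_, fun j => ?_⟩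
  · filter_upwards [eventually_ge_atTop (st N).2] with m hm
    exact hresp N m hm
  · refine hx j (st j).1 (st j).2 j x ?_ (hresp j)
    apply List.ext_getElem?
    intro m
    rw [seg_getElem?, seg_getElem?]
    split_ifs with h
    · have : m < (st (j + 1)).2 := by rw [hst]; simp only; omega
      rw [hxv (j + 1) m this, hst]
    · rfl

/-! ### Cone avoidance -/

/-- Side condition in the search of the cone avoidance argument. -/
def okStr (σ ρ τ : List ℕ) : Prop :=
  τ.length ≤ ρ.length ∧ σ.length ≤ τ.length ∧ τ.take σ.length = σ ∧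
    ∀ i ∈ List.range τ.length, σ.length ≤ i → (ρ[Nat.pair i (τ.getD i 0)]?).map (fun v => v.unpair.2) = some 0

/-- Combination of the first components of `ρ` with `τ`. -/
def zipStr (ρ τ : List ℕ) : List ℕ :=
  (List.range τ.length).map fun i => Nat.pair (ρ.getD i 0).unpair.1 (τ.getD i 0)

theorem primrec_okStr (σ : List ℕ) : PrimrecPred fun p : List ℕ × List ℕ => okStr σ p.1 p.2 := by
  classical
  unfold okStr
  refine PrimrecPred.and ?_ (PrimrecPred.and ?_ (PrimrecPred.and ?_ ?_))
  · exact Primrec.nat_le.comp (Primrec.list_length.comp Primrec.snd)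
      (Primrec.list_length.comp Primrec.fst)
  · exact Primrec.nat_le.comp (Primrec.const _) (Primrec.list_length.comp Primrec.snd)
  · exact Primrec.eq.comp (Primrec.list_take.comp (Primrec.const _) Primrec.snd) (Primrec.const _)
  · have hR : PrimrecRel fun (i : ℕ) (p : List ℕ × List ℕ) => σ.length ≤ i →
        (p.1[Nat.pair i (p.2.getD i 0)]?).map (fun v => v.unpair.2) = some 0 := by
      have h1 : PrimrecPred fun q : ℕ × List ℕ × List ℕ => σ.length ≤ q.1 :=
        Primrec.nat_le.comp (Primrec.const _) Primrec.fst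
      have h2 : PrimrecPred fun q : ℕ × List ℕ × List ℕ =>
          (q.2.1[Nat.pair q.1 (q.2.2.getD q.1 0)]?).map (fun v => v.unpair.2) = some 0 := by
        refine Primrec.eq.comp ?_ (Primrec.const _)
        refine Primrec.option_map (Primrec.list_getElem?.comp (Primrec.fst.comp Primrec.snd)
          (Primrec₂.natPair.comp Primrec.fst ((Primrec.list_getD 0).comp
            (Primrec.snd.comp Primrec.snd) Primrec.fst))) ?_
        exact (Primrec.snd.comp (Primrec.unpair.comp Primrec.snd)).to₂
      refine (h1.not.or h2).of_eq fun q => ?_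
      tauto
    exact (hR.forall_mem_list).comp (Primrec.list_range.comp (Primrec.list_length.comp Primrec.snd))
      Primrec.id

theorem primrec_zipStr : Primrec₂ zipStr := by
  unfold zipStr
  refine Primrec.list_map (Primrec.list_range.comp (Primrec.list_length.comp Primrec.snd)) ?_
  refine Primrec₂.natPair.comp ?_ ?_
  · exact Primrec.fst.comp (Primrec.unpair.comp ((Primrec.list_getD 0).comp
      (Primrec.fst.comp Primrec.fst) Primrec.snd))
  · exact (Primrec.list_getD 0).comp (Primrec.snd.comp Primrec.fst) Primrec.snd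

theorem zipStr_seg (w c x : ℕ → ℕ) {s t : ℕ} (h : s ≤ t) :
    zipStr (seg (join w c) t) (seg x s) = seg (join w x) s := by
  unfold zipStr
  rw [seg_length]
  unfold seg
  apply List.map_congr_left
  intro i hi
  have hi' : i < s := List.mem_range.1 hi
  have hi'' : i < t := by omega
  simp [join, List.getD_eq_getElem?_getD, hi', hi'']

theorem seg_eq_mono {x z : ℕ → ℕ} {a b : ℕ} (h : a ≤ b) (hb : seg x b = seg z b) :
    seg x a = seg z a := by
  have h1 : (seg x b).take a = (seg z b).take a := by rw [hb]
  rwa [seg_take, seg_take, min_eq_left h] at h1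

/-- The forcing step for cone avoidance. -/
theorem cone_step {c r w : ℕ → ℕ} (hne : ∀ m, ∃ v, c (Nat.pair m v) = 0)
    (h : ¬ TLe r (join w c)) (e : ℕ) (y : ℕ → ℕ) (a : ℕ) :
    ∃ (z : ℕ → ℕ) (b : ℕ), a ≤ b ∧ seg z a = seg y a ∧ Resp c a z ∧
      ∀ x, seg x b = seg z b → Resp c a x → ¬ Phi e (join w x) = r := by
  classical
  by_cases hspl : ∃ (z : ℕ → ℕ) (b n k : ℕ), a ≤ b ∧ seg z a = seg y a ∧ Resp c a z ∧
      run e (seg (join w z) b) n = some k ∧ k ≠ r n
  · obtain ⟨z, b, n, k, hab, hz, hR, hrun, hk⟩ := hspl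
    refine ⟨z, b, hab, hz, hR, fun x hx _ hP => hk ?_⟩
    have h1 : seg (join w x) b = seg (join w z) b := by
      rw [← zipStr_seg w w x le_rfl, ← zipStr_seg w w z le_rfl, hx]
    rw [← h1] at hrun
    exact run_eq_of_Phi hP hrun
  · push Not at hspl
    obtain ⟨z, hz, hR⟩ := exists_ext hne (seg y a)
    rw [seg_length] at hz hR
    refine ⟨z, a, le_rfl, hz, hR, fun x hx hRx hP => h ?_⟩
    have hxa : seg x a = seg y a := hx.trans hz
    let τ : List ℕ → List ℕ := fun ρ => Denumerable.ofNat (List ℕ) ρ.length.unpair.1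
    refine TLe.of_search (fun ρ n => if okStr (seg y a) ρ (τ ρ) then run e (zipStr ρ (τ ρ)) n
      else none) ?_ ?_ ?_
    · have hτ : Primrec τ := (Primrec.ofNat (List ℕ)).comp
        (Primrec.fst.comp (Primrec.unpair.comp Primrec.list_length))
      have h1 : PrimrecPred fun p : List ℕ × ℕ => okStr (seg y a) p.1 (τ p.1) :=
        (primrec_okStr (seg y a)).comp (Primrec.fst.pair (hτ.comp Primrec.fst))
      have h2 : Primrec fun p : List ℕ × ℕ => run e (zipStr p.1 (τ p.1)) p.2 :=
        primrec_run.comp ((Primrec.const e).pair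
          ((primrec_zipStr.comp Primrec.fst (hτ.comp Primrec.fst)).pair Primrec.snd))
      exact (Primrec.ite h1 h2 (Primrec.const none)).to_comp
    · intro n t k hk
      split_ifs at hk with hok
      obtain ⟨h1, h2, h3, h4⟩ := hok
      rw [seg_length] at h1 h2 h3 h4
      set τ' := τ (seg (join w c) t) with hτ'
      obtain ⟨z', hz', hR'⟩ := exists_ext hne τ'
      have h5 : seg z' a = seg y a := by
        rw [← h3, ← hz', seg_take, min_eq_left h2]
      have h6 : Resp c a z' := by
        intro m hm
        by_cases hm' : m < τ'.length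
        · have h7 := h4 m (List.mem_range.2 hm') hm
          have h8 : τ'.getD m 0 = z' m := by
            rw [List.getD_eq_getElem?_getD, ← hz', seg_getElem?_of_lt hm']; rfl
          rw [h8, seg_getElem?] at h7
          split_ifs at h7 with h9
          · simpa [join] using h7
          · simp at h7
        · exact hR' m (by omega)
      have h7 : zipStr (seg (join w c) t) τ' = seg (join w z') τ'.length := by
        conv_lhs => rw [← hz']
        exact zipStr_seg w c z' h1
      rw [h7] at hk
      exact hspl z' τ'.length n k h2 h5 h6 hk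
    · intro n
      obtain ⟨s, hs⟩ := Phi_eq_iff.1 hP n
      set s' := max s a with hs'
      have hs1 : run e (seg (join w x) s') n = some (r n) :=
        run_mono (seg_prefix (le_max_left _ _)) hs
      obtain ⟨M, hM⟩ : ∃ M, ∀ i < s', Nat.pair i (x i) < M := by
        refine ⟨(Finset.range s').sup (fun i => Nat.pair i (x i)) + 1, fun i hi => ?_⟩
        exact Nat.lt_succ_of_le (Finset.le_sup (f := fun i => Nat.pair i (x i))
          (Finset.mem_range.2 hi))
      refine ⟨Nat.pair (encode (seg x s')) (M + s'), ?_⟩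
      have ht : τ (seg (join w c) (Nat.pair (encode (seg x s')) (M + s'))) = seg x s' := by
        simp [τ]
      have hlen : M + s' ≤ Nat.pair (encode (seg x s')) (M + s') := Nat.right_le_pair _ _
      simp only [ht]
      rw [if_pos, zipStr_seg w c x (by omega), hs1]
      · simp
      · refine ⟨by simp; omega, by simp [hs'], ?_, ?_⟩
        · rw [seg_length, seg_take, min_eq_left (by simp [hs']), hxa]
        · intro i hi hai
          rw [seg_length] at hi hai
          have hi' := List.mem_range.1 hi
          have h8 : (seg x s').getD i 0 = x i := by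
            rw [List.getD_eq_getElem?_getD, seg_getElem?_of_lt hi']; rfl
          rw [h8, seg_getElem?_of_lt (by have := hM i hi'; omega)]
          simp [join, hRx i hai]

/-- Generic functions respecting constraints and avoiding countably many cones. -/
theorem exists_avoid (c : ℕ → ℕ → ℕ) (hne : ∀ N m, ∃ v, c N (Nat.pair m v) = 0)
    (hdec : ∀ N m v, c (N + 1) (Nat.pair m v) = 0 → c N (Nat.pair m v) = 0)
    (r w : ℕ → ℕ → ℕ) (hrw : ∀ j N, ¬ TLe (r j) (join (w j) (c N))) :
    ∃ x, (∀ N, ∀ᶠ m in atTop, c N (Nat.pair m (x m)) = 0) ∧ ∀ j, ¬ TLe (r j) (join (w j) x) := by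
  obtain ⟨x, h1, h2⟩ := exists_generic c hne hdec
    (fun k => {x | ¬ Phi k.unpair.2 (join (w k.unpair.1) x) = r k.unpair.1}) (by
      intro k y a N
      exact cone_step (hne N) (hrw k.unpair.1 N) k.unpair.2 y a)
  refine ⟨x, h1, fun j => ?_⟩
  rintro ⟨e, he⟩
  have := h2 (Nat.pair j e)
  simp only [Nat.unpair_pair, Set.mem_ofPred_eq] at this
  exact this he

/-- Generic functions avoiding countably many cones and countably many functions. -/
theorem exists_avoid' (r w z : ℕ → ℕ → ℕ) (hrw : ∀ j, ¬ TLe (r j) (w j)) :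
    ∃ x, (∀ j, x ≠ z j) ∧ ∀ j, ¬ TLe (r j) (join (w j) x) := by
  have h0 : ∀ j, ¬ TLe (r j) (join (w j) fun _ => 0) := by
    intro j hj
    exact hrw j (hj.trans (TLe.join (TLe.refl _) (TLe.of_computable (Computable.const 0) _)))
  obtain ⟨x, h1, h2⟩ := exists_generic (fun _ _ => 0) (fun _ _ => ⟨0, rfl⟩) (fun _ _ _ h => h)
    (fun k => {x | x ≠ z k ∧ ¬ Phi k.unpair.2 (join (w k.unpair.1) x) = r k.unpair.1}) (by
      intro k y a N
      obtain ⟨z₁, b, hb, h3, h4, h5⟩ := cone_step (fun m => ⟨0, rfl⟩) (h0 k.unpair.1) k.unpair.2 y a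
      refine ⟨fun m => if m < b then z₁ m else z k m + 1, b + 1, by omega, ?_, fun _ _ => rfl, ?_⟩
      · rw [← h3]
        apply List.ext_getElem?
        intro i
        rw [seg_getElem?, seg_getElem?]
        split_ifs <;> first | rfl | omega
      · intro x hx _
        have h6 : x b = z k b + 1 := by
          have := congrArg (fun l => l[b]?) hx
          simp only [seg_getElem?_of_lt (Nat.lt_succ_self b), lt_irrefl, if_false] at this
          exact Option.some.inj this
        have h7 : seg x b = seg z₁ b := by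
          rw [seg_eq_mono (Nat.le_succ b) hx]
          apply List.ext_getElem?
          intro i
          rw [seg_getElem?, seg_getElem?]
          split_ifs <;> rfl
        refine ⟨fun hxz => ?_, h5 x h7 fun _ _ => rfl⟩
        rw [hxz] at h6
        omega)
  refine ⟨x, fun j => (h2 j).1, fun j => ?_⟩
  rintro ⟨e, he⟩
  have := (h2 (Nat.pair j e)).2
  simp only [Nat.unpair_pair] at this
  exact this he

end Pool.Agent.LearnDeg
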