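import Pool.Agent.LearnDeg.Defs

/-!
# First-order formulas with named variables over one binary relation
-/

namespace Pool.Agent.LearnDeg

open FirstOrder Function

/-- Formulas with named variables over one binary relation. -/
inductive Fm : Type
  | le (i j : ℕ) : Fm
  | neg (φ : Fm) : Fm
  | and (φ ψ : Fm) : Fm
  | all (i : ℕ) (φ : Fm) : Fm

/-- Truth of a formula. -/
def sat {A : Type*} (r : A → A → Prop) : Fm → (ℕ → A) → Prop
  | Fm.le i j, v => r (v i) (v j)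
  | Fm.neg φ, v => ¬ sat r φ v
  | Fm.and φ ψ, v => sat r φ v ∧ sat r ψ v
  | Fm.all i φ, v => ∀ a, sat r φ (update v i a)

def Fm.ex (i : ℕ) (φ : Fm) : Fm := Fm.neg (Fm.all i (Fm.neg φ))
def Fm.imp (φ ψ : Fm) : Fm := Fm.neg (Fm.and φ (Fm.neg ψ))
def Fm.or (φ ψ : Fm) : Fm := Fm.neg (Fm.and (Fm.neg φ) (Fm.neg ψ))

section
variable {A : Type*} (r : A → A → Prop) (v : ℕ → A)

@[simp] theorem sat_le (i j : ℕ) : sat r (Fm.le i j) v ↔ r (v i) (v j) := Iff.rfl
@[simp] theorem sat_neg (φ : Fm) : sat r (Fm.neg φ) v ↔ ¬ sat r φ v := Iff.rfl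
@[simp] theorem sat_and (φ ψ : Fm) : sat r (Fm.and φ ψ) v ↔ sat r φ v ∧ sat r ψ v := Iff.rfl
@[simp] theorem sat_all (i : ℕ) (φ : Fm) : sat r (Fm.all i φ) v ↔ ∀ a, sat r φ (update v i a) :=
  Iff.rfl
@[simp] theorem sat_ex (i : ℕ) (φ : Fm) : sat r (Fm.ex i φ) v ↔ ∃ a, sat r φ (update v i a) := by
  simp [Fm.ex]
@[simp] theorem sat_imp (φ ψ : Fm) : sat r (Fm.imp φ ψ) v ↔ (sat r φ v → sat r ψ v) := by
  simp [Fm.imp]
@[simp] theorem sat_or (φ ψ : Fm) : sat r (Fm.or φ ψ) v ↔ (sat r φ v ∨ sat r ψ v) := by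
  simp only [Fm.or, sat_neg, sat_and]
  tauto

end

/-- Truth is preserved under a surjection reflecting the relation. -/
theorem sat_surj {A B : Type*} (r : A → A → Prop) (s : B → B → Prop) (π : A → B)
    (hπ : Surjective π) (h : ∀ a b, s (π a) (π b) ↔ r a b) (φ : Fm) :
    ∀ v : ℕ → A, sat s φ (π ∘ v) ↔ sat r φ v := by
  induction φ with
  | le i j => intro v; simp [h]
  | neg φ ih => intro v; simp [ih]
  | and φ ψ ih1 ih2 => intro v; simp [ih1, ih2]
  | all i φ ih =>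
    intro v
    simp only [sat_all]
    constructor
    · intro H a
      have := H (π a)
      rw [← ih]
      convert this using 1
      ext j
      by_cases hj : j = i <;> simp [hj]
    · intro H b
      obtain ⟨a, rfl⟩ := hπ b
      have := H a
      rw [← ih] at this
      convert this using 1
      ext j
      by_cases hj : j = i <;> simp [hj]

/-- `a` has a strong successor. -/
def SolvP {A : Type*} (r : A → A → Prop) (a : A) : Prop :=
  ∃ b, (r a b ∧ ¬ r b a) ∧ ∀ c, (r a c ∧ ¬ r c a) → r b c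

/-- `s` is a minimal solvable element above `i`. -/
def MinP {A : Type*} (r : A → A → Prop) (i s : A) : Prop :=
  SolvP r s ∧ r i s ∧ ∀ t, SolvP r t → r i t → r t s → r s t

/-- `x` is below the join of `y` and `z`. -/
def LJP {A : Type*} (r : A → A → Prop) (x y z : A) : Prop :=
  ∀ w, r y w → r z w → r x w

/-- The meet of `a` and `b` is below the join of `y` and `z`. -/
def MLP {A : Type*} (r : A → A → Prop) (a b y z : A) : Prop :=
  ∀ w, r y w → r z w → ∀ x, r x a → r x b → r x w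

def S1P {A : Type*} (r : A → A → Prop) : Prop :=
  ∃ i, (¬ ∃ v, SolvP r v ∧ ∀ s, MinP r i s → r s v) ∧
    ∀ s, MinP r i s → ∃ g, SolvP r g ∧ ∃ a b,
      (∀ s', MinP r i s' → ¬ r s' s → ¬ LJP r s s' g ∧ ¬ LJP r s' s g) ∧
      (∀ t, SolvP r t → r a t → r s t) ∧
      (∀ t, SolvP r t → r b t → ∃ s', MinP r i s' ∧ ¬ r s' s ∧ r s' t) ∧
      MLP r a b i g

def S2P {A : Type*} (r : A → A → Prop) : Prop :=
  ∃ i, (¬ ∃ v, SolvP r v ∧ ∀ s, MinP r i s → r s v) ∧
    ∀ u, SolvP r u → ∃ v, SolvP r v ∧ ∃ g, SolvP r g ∧ ∃ a b,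
      (∀ s, MinP r i s → r s u → r a s) ∧
      (∀ s, MinP r i s → r a s → r s v) ∧
      (∀ t, SolvP r t → r a t → ∃ s, MinP r i s ∧ r a s ∧ r s t) ∧
      (∀ t, SolvP r t → r b t → ∃ s, MinP r i s ∧ ¬ r a s ∧ r s t) ∧
      (∀ s, MinP r i s → ∀ s', MinP r i s' → r a s → ¬ r a s' →
        ¬ LJP r s' s g ∧ ¬ LJP r s s' g) ∧
      MLP r a b i g

def S3P {A : Type*} (r : A → A → Prop) : Prop :=
  ∀ i, (∃ v, SolvP r v ∧ ∀ s, MinP r i s → r s v) →
    ∃ T, (∀ s, MinP r i s → r T s) ∧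
      ∀ u, SolvP r u → ∀ z, SolvP r z → ¬ r z u → ∀ q, (∀ s, MinP r i s → r q s) →
        ∃ g, SolvP r g ∧
          (∀ s, MinP r i s → ∀ s', MinP r i s' → ¬ r s' s → ¬ LJP r s' s g) ∧
          ¬ LJP r z u g ∧ LJP r q T g

def S4P {A : Type*} (r : A → A → Prop) : Prop :=
  ∀ s, SolvP r s → ∀ t, SolvP r t → ∀ v, (∀ x, SolvP r x → r v x → r s x ∨ r t x) →
    ∃ a b, (∀ x, SolvP r x → r a x → r s x) ∧ (∀ x, SolvP r x → r b x → r t x) ∧
      ∀ w, r w a → r w b → r w v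

def S5P {A : Type*} (r : A → A → Prop) : Prop :=
  ∀ a b, (∀ s, SolvP r s → r b s → r a s) → r a b

namespace Fm

def solv (x : ℕ) : Fm :=
  ex 0 (and (and (le x 0) (neg (le 0 x)))
    (all 1 (imp (and (le x 1) (neg (le 1 x))) (le 0 1))))

def min (i s : ℕ) : Fm :=
  and (solv s) (and (le i s) (all 2 (imp (solv 2) (imp (le i 2) (imp (le 2 s) (le s 2))))))

def lj (x y z : ℕ) : Fm :=
  all 0 (imp (le y 0) (imp (le z 0) (le x 0)))

def ml (a b y z : ℕ) : Fm :=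
  all 0 (imp (le y 0) (imp (le z 0) (all 1 (imp (le 1 a) (imp (le 1 b) (le 1 0))))))

def s1 : Fm :=
  ex 3 (and (neg (ex 4 (and (solv 4) (all 5 (imp (min 3 5) (le 5 4))))))
    (all 4 (imp (min 3 4) (ex 5 (and (solv 5) (ex 6 (ex 7
      (and (all 8 (imp (min 3 8) (imp (neg (le 8 4)) (and (neg (lj 4 8 5)) (neg (lj 8 4 5))))))
      (and (all 8 (imp (solv 8) (imp (le 6 8) (le 4 8))))
      (and (all 8 (imp (solv 8) (imp (le 7 8)
        (ex 9 (and (min 3 9) (and (neg (le 9 4)) (le 9 8)))))))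
      (ml 6 7 3 5)))))))))))

def s2 : Fm :=
  ex 3 (and (neg (ex 4 (and (solv 4) (all 5 (imp (min 3 5) (le 5 4))))))
    (all 4 (imp (solv 4) (ex 5 (and (solv 5) (ex 6 (and (solv 6) (ex 7 (ex 8
      (and (all 9 (imp (min 3 9) (imp (le 9 4) (le 7 9))))
      (and (all 9 (imp (min 3 9) (imp (le 7 9) (le 9 5))))
      (and (all 9 (imp (solv 9) (imp (le 7 9)
        (ex 10 (and (min 3 10) (and (le 7 10) (le 10 9)))))))
      (and (all 9 (imp (solv 9) (imp (le 8 9)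
        (ex 10 (and (min 3 10) (and (neg (le 7 10)) (le 10 9)))))))
      (and (all 9 (imp (min 3 9) (all 10 (imp (min 3 10) (imp (le 7 9) (imp (neg (le 7 10))
        (and (neg (lj 10 9 6)) (neg (lj 9 10 6)))))))))
      (ml 7 8 3 6)))))))))))))))

def s3 : Fm :=
  all 3 (imp (ex 4 (and (solv 4) (all 5 (imp (min 3 5) (le 5 4)))))
    (ex 4 (and (all 5 (imp (min 3 5) (le 4 5)))
      (all 5 (imp (solv 5) (all 6 (imp (solv 6) (imp (neg (le 6 5))
        (all 7 (imp (all 8 (imp (min 3 8) (le 7 8)))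
          (ex 8 (and (solv 8)
            (and (all 9 (imp (min 3 9) (all 10 (imp (min 3 10) (imp (neg (le 10 9))
              (neg (lj 10 9 8)))))))
            (and (neg (lj 6 5 8)) (lj 7 4 8)))))))))))))))

def s4 : Fm :=
  all 3 (imp (solv 3) (all 4 (imp (solv 4) (all 5
    (imp (all 6 (imp (solv 6) (imp (le 5 6) (or (le 3 6) (le 4 6)))))
      (ex 6 (ex 7 (and (all 8 (imp (solv 8) (imp (le 6 8) (le 3 8))))
        (and (all 8 (imp (solv 8) (imp (le 7 8) (le 4 8))))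
          (all 8 (imp (le 8 6) (imp (le 8 7) (le 8 5)))))))))))))

def s5 : Fm :=
  all 3 (all 4 (imp (all 5 (imp (solv 5) (imp (le 4 5) (le 3 5)))) (le 3 4)))

end Fm

section
variable {A : Type*} (r : A → A → Prop) (v : ℕ → A)

theorem sat_solv {x : ℕ} (hx : 2 ≤ x) : sat r (Fm.solv x) v ↔ SolvP r (v x) := by
  have h0 : x ≠ 0 := by omega
  have h1 : x ≠ 1 := by omega
  simp [Fm.solv, SolvP, h0, h1]

theorem sat_min {i s : ℕ} (hi : 3 ≤ i) (hs : 3 ≤ s) :
    sat r (Fm.min i s) v ↔ MinP r (v i) (v s) := by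
  have h0 : i ≠ 2 := by omega
  have h1 : s ≠ 2 := by omega
  simp [Fm.min, MinP, h0, h1, sat_solv, (show 2 ≤ s by omega)]

theorem sat_lj {x y z : ℕ} (hx : 1 ≤ x) (hy : 1 ≤ y) (hz : 1 ≤ z) :
    sat r (Fm.lj x y z) v ↔ LJP r (v x) (v y) (v z) := by
  have h0 : x ≠ 0 := by omega
  have h1 : y ≠ 0 := by omega
  have h2 : z ≠ 0 := by omega
  simp [Fm.lj, LJP, h0, h1, h2]

theorem sat_ml {a b y z : ℕ} (ha : 2 ≤ a) (hb : 2 ≤ b) (hy : 2 ≤ y) (hz : 2 ≤ z) :
    sat r (Fm.ml a b y z) v ↔ MLP r (v a) (v b) (v y) (v z) := by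
  have h1 : a ≠ 0 := by omega
  have h2 : a ≠ 1 := by omega
  have h3 : b ≠ 0 := by omega
  have h4 : b ≠ 1 := by omega
  have h5 : y ≠ 0 := by omega
  have h6 : z ≠ 0 := by omega
  simp [Fm.ml, MLP, h1, h2, h3, h4, h5, h6]

theorem sat_s1 : sat r Fm.s1 v ↔ S1P r := by
  simp [Fm.s1, S1P, sat_solv, sat_min, sat_lj, sat_ml]

theorem sat_s2 : sat r Fm.s2 v ↔ S2P r := by
  simp [Fm.s2, S2P, sat_solv, sat_min, sat_lj, sat_ml]

theorem sat_s3 : sat r Fm.s3 v ↔ S3P r := by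
  simp [Fm.s3, S3P, sat_solv, sat_min, sat_lj]

theorem sat_s4 : sat r Fm.s4 v ↔ S4P r := by
  simp [Fm.s4, S4P, sat_solv]

theorem sat_s5 : sat r Fm.s5 v ↔ S5P r := by
  simp [Fm.s5, S5P, sat_solv]

end

/-- Translation into Mathlib formulas. -/
noncomputable def toFormula : Fm → Language.order.Formula ℕ
  | Fm.le i j => (Language.leSymb : Language.order.Relations 2).formula₂ (Language.var i) (Language.var j)
  | Fm.neg φ => ∼(toFormula φ)
  | Fm.and φ ψ => toFormula φ ⊓ toFormula ψ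
  | Fm.all i φ => Language.Formula.iAlls Unit
      (Language.Formula.relabel (fun j => if j = i then Sum.inr () else Sum.inl j) (toFormula φ))

theorem realize_toFormula {M : Type} [LE M] (φ : Fm) :
    ∀ v : ℕ → M,
      (letI := Language.orderStructure M; (toFormula φ).Realize v) ↔ sat (· ≤ ·) φ v := by
  let _ := Language.orderStructure M
  induction φ with
  | le i j => 
    intro v
    simp only [toFormula, Language.Formula.realize_rel₂]
    exact Iff.rfl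
  | neg φ ih => intro v; simp [toFormula, Language.Formula.realize_not, ih]
  | and φ ψ ih1 ih2 => intro v; simp [toFormula, Language.Formula.realize_inf, ih1, ih2]
  | all i φ ih =>
    intro v
    simp only [toFormula, Language.Formula.realize_iAlls, Language.Formula.realize_relabel, ih,
      sat_all]
    have key : ∀ a : Unit → M, (Sum.elim v a ∘ fun j => if j = i then Sum.inr () else Sum.inl j)
        = update v i (a ()) := by
      intro a
      ext j
      by_cases hj : j = i <;> simp [hj]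
    constructor
    · intro H a
      have := H (fun _ => a)
      rwa [key] at this
    · intro H a
      rw [key]
      exact H _

/-- Mathlib sentence of a formula: all variables are replaced by one, universally quantified. -/
noncomputable def toSentence (φ : Fm) : Language.order.Sentence :=
  Language.Formula.iAlls Unit
      (Language.Formula.relabel (fun _ => Sum.inr ()) (toFormula φ) :
        Language.order.Formula (Empty ⊕ Unit))

theorem realize_toSentence {M : Type} [LE M] (φ : Fm) :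
    (letI := Language.orderStructure M; M ⊨ toSentence φ) ↔
      ∀ a : M, sat (· ≤ ·) φ (fun _ => a) := by
  let _ := Language.orderStructure M
  simp only [toSentence, Language.Sentence.Realize, Language.Formula.realize_iAlls,
    Language.Formula.realize_relabel, realize_toFormula]
  constructor
  · intro H a
    exact H (fun _ => a)
  · intro H a
    exact H (a ())

/-- The degree of a set. -/
def mkD (𝓕 : Set ((ℕ → ℕ) →. (ℕ → ℕ))) (P : Set (ℕ → ℕ)) : Deg 𝓕 := Quot.mk _ P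

theorem mkD_surj (𝓕 : Set ((ℕ → ℕ) →. (ℕ → ℕ))) : Surjective (mkD 𝓕) := Quot.mk_surjective

/-- Elementarily equivalent degree structures satisfy the same formulas without free variables,
evaluated in the preorders of subsets of Baire space. -/
theorem transfer {𝓕 : Set ((ℕ → ℕ) →. (ℕ → ℕ))}
    (hr : ∀ P, Red 𝓕 P P) (ht : ∀ P Q R, Red 𝓕 P Q → Red 𝓕 Q R → Red 𝓕 P R)
    (φ : Fm) : (Deg 𝓕 ⊨ toSentence φ) ↔ ∀ P : Set (ℕ → ℕ), sat (Red 𝓕) φ (fun _ => P) := by
  have hle : ∀ P Q : Set (ℕ → ℕ),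
      (mkD 𝓕 P ≤ mkD 𝓕 Q) ↔ Red 𝓕 P Q := by
    intro P Q
    constructor
    · rintro ⟨P', Q', hP, hQ, h⟩
      have eqv : Equivalence fun P Q : Set (ℕ → ℕ) => Red 𝓕 P Q ∧ Red 𝓕 Q P :=
        ⟨fun P => ⟨hr P, hr P⟩, fun h => ⟨h.2, h.1⟩,
          fun h h' => ⟨ht _ _ _ h.1 h'.1, ht _ _ _ h'.2 h.2⟩⟩
      have h1 := (Quot.eq.1 hP)
      have h2 := (Quot.eq.1 hQ)
      rw [eqv.eqvGen_iff] at h1 h2
      exact ht _ _ _ h1.2 (ht _ _ _ h h2.1)
    · intro h
      exact ⟨P, Q, rfl, rfl, h⟩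
  have h1 := realize_toSentence (M := Deg 𝓕) φ
  refine h1.trans ?_
  constructor
  · intro H P
    exact (sat_surj (Red 𝓕) (fun a b : Deg 𝓕 => a ≤ b) (mkD 𝓕) (mkD_surj 𝓕) hle φ
      (fun _ => P)).1 (H (mkD 𝓕 P))
  · intro H a
    obtain ⟨P, rfl⟩ := mkD_surj 𝓕 a
    exact (sat_surj (Red 𝓕) (fun a b : Deg 𝓕 => a ≤ b) (mkD 𝓕) (mkD_surj 𝓕) hle φ
      (fun _ => P)).2 (H P)

theorem ee_iff {𝓕 𝓖 : Set ((ℕ → ℕ) →. (ℕ → ℕ))}
    (hr : ∀ P, Red 𝓕 P P) (ht : ∀ P Q R, Red 𝓕 P Q → Red 𝓕 Q R → Red 𝓕 P R)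
    (hr' : ∀ P, Red 𝓖 P P) (ht' : ∀ P Q R, Red 𝓖 P Q → Red 𝓖 Q R → Red 𝓖 P R)
    (h : Language.order.ElementarilyEquivalent (Deg 𝓕) (Deg 𝓖)) :
    (S1P (Red 𝓕) ↔ S1P (Red 𝓖)) ∧ (S2P (Red 𝓕) ↔ S2P (Red 𝓖)) ∧
    (S3P (Red 𝓕) ↔ S3P (Red 𝓖)) ∧ (S4P (Red 𝓕) ↔ S4P (Red 𝓖)) ∧
    (S5P (Red 𝓕) ↔ S5P (Red 𝓖)) := by
  have key : ∀ φ : Fm, (∀ P : Set (ℕ → ℕ), sat (Red 𝓕) φ (fun _ => P)) ↔
      ∀ P : Set (ℕ → ℕ), sat (Red 𝓖) φ (fun _ => P) := by
    intro φ
    rw [← transfer hr ht, ← transfer hr' ht']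
    exact Language.elementarilyEquivalent_iff.1 h (toSentence φ)
  have := key Fm.s1
  have h2 := key Fm.s2
  have h3 := key Fm.s3
  have h4 := key Fm.s4
  have h5 := key Fm.s5
  simp only [sat_s1, sat_s2, sat_s3, sat_s4, sat_s5, forall_const] at this h2 h3 h4 h5
  exact ⟨this, h2, h3, h4, h5⟩

end Pool.Agent.LearnDeg
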