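import Pool.Agent.LearnDeg.Turing

/-!
# Learners: composition, pairing, case distinction, truncation
-/

namespace Pool.Agent.LearnDeg

open Filter

/-! ### Combination of learners -/

def cmpL (s : ℕ → ℕ → ℕ) (Ψ₁ Ψ₂ : List ℕ → ℕ) (σ : List ℕ) : ℕ :=
  s (Ψ₁ σ) (Ψ₂ (approx (Ψ₁ σ) σ))

def prL (s : ℕ → ℕ → ℕ) (Ψ₁ Ψ₂ : List ℕ → ℕ) (σ : List ℕ) : ℕ := s (Ψ₁ σ) (Ψ₂ σ)

def caseL (s : ℕ → ℕ) (Ψ₁ Ψ₂ : List ℕ → ℕ) (σ : List ℕ) : ℕ :=
  if σ = [] then 0 else if σ.headI = 0 then s (Ψ₁ σ.tail) else s (Ψ₂ σ.tail)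

theorem computable_ite {α β : Type*} [Primcodable α] [Primcodable β] {c : α → Prop}
    [DecidablePred c] {f g : α → β} (hc : Computable fun a => decide (c a)) (hf : Computable f)
    (hg : Computable g) : Computable fun a => if c a then f a else g a := by
  refine (Computable.cond hc hf hg).of_eq fun a => ?_
  by_cases h : c a <;> simp [h]

theorem computable_cmpL {s : ℕ → ℕ → ℕ} (hs : Computable₂ s) {Ψ₁ Ψ₂ : List ℕ → ℕ}
    (h₁ : Computable Ψ₁) (h₂ : Computable Ψ₂) : Computable (cmpL s Ψ₁ Ψ₂) :=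
  hs.comp h₁ (h₂.comp (primrec_approx.to_comp.comp h₁ Computable.id))

theorem computable_prL {s : ℕ → ℕ → ℕ} (hs : Computable₂ s) {Ψ₁ Ψ₂ : List ℕ → ℕ}
    (h₁ : Computable Ψ₁) (h₂ : Computable Ψ₂) : Computable (prL s Ψ₁ Ψ₂) :=
  hs.comp h₁ h₂

theorem computable_caseL {s : ℕ → ℕ} (hs : Computable s) {Ψ₁ Ψ₂ : List ℕ → ℕ}
    (h₁ : Computable Ψ₁) (h₂ : Computable Ψ₂) : Computable (caseL s Ψ₁ Ψ₂) := by
  have ht : Computable (List.tail : List ℕ → List ℕ) := Primrec.list_tail.to_comp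
  refine computable_ite ?_ (Computable.const 0) (computable_ite ?_ (hs.comp (h₁.comp ht))
    (hs.comp (h₂.comp ht)))
  · exact (Primrec.eq.comp Primrec.id (Primrec.const ([] : List ℕ))).decide.to_comp
  · exact (Primrec.eq.comp Primrec.list_headI (Primrec.const 0)).decide.to_comp

theorem ident_cmpL {s : ℕ → ℕ → ℕ}
    (H : ∀ a b (g f h : ℕ → ℕ), Phi a g = f → Phi b f = h → Phi (s a b) g = h)
    {Ψ₁ Ψ₂ : List ℕ → ℕ} {g f h : ℕ → ℕ} (h₁ : Ident Ψ₁ g f) (h₂ : Ident Ψ₂ f h) :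
    Ident (cmpL s Ψ₁ Ψ₂) g h := by
  obtain ⟨e₁, h1, h1'⟩ := h₁
  obtain ⟨e₂, h2, h2'⟩ := h₂
  refine ⟨s e₁ e₂, ?_, H _ _ _ _ _ h1' h2'⟩
  obtain ⟨m, hm⟩ := eventually_atTop.1 h2
  obtain ⟨N, hN⟩ := approx_length_large h1' m
  filter_upwards [h1, eventually_ge_atTop N] with n hn hn'
  unfold cmpL
  rw [hn, approx_seg h1', hm _ (hN n hn')]

theorem ident_prL {s : ℕ → ℕ → ℕ}
    (H : ∀ a b (g f h : ℕ → ℕ), Phi a g = f → Phi b g = h → Phi (s a b) g = join f h)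
    {Ψ₁ Ψ₂ : List ℕ → ℕ} {g f h : ℕ → ℕ} (h₁ : Ident Ψ₁ g f) (h₂ : Ident Ψ₂ g h) :
    Ident (prL s Ψ₁ Ψ₂) g (join f h) := by
  obtain ⟨e₁, h1, h1'⟩ := h₁
  obtain ⟨e₂, h2, h2'⟩ := h₂
  refine ⟨s e₁ e₂, ?_, H _ _ _ _ _ h1' h2'⟩
  filter_upwards [h1, h2] with n hn hn'
  unfold prL
  rw [hn, hn']

theorem ident_caseL {s : ℕ → ℕ}
    (H : ∀ e c (g f : ℕ → ℕ), Phi e g = f → Phi (s e) (cons c g) = f)
    {Ψ₁ Ψ₂ : List ℕ → ℕ} {g f : ℕ → ℕ} :
    (Ident Ψ₁ g f → Ident (caseL s Ψ₁ Ψ₂) (cons 0 g) f) ∧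
    (Ident Ψ₂ g f → Ident (caseL s Ψ₁ Ψ₂) (cons 1 g) f) := by
  constructor
  · rintro ⟨e, h, h'⟩
    refine ⟨s e, ?_, H _ _ _ _ h'⟩
    obtain ⟨m, hm⟩ := eventually_atTop.1 h
    filter_upwards [eventually_ge_atTop (m + 1)] with n hn
    obtain ⟨k, rfl⟩ : ∃ k, n = k + 1 := ⟨n - 1, by omega⟩
    simp [caseL, seg_cons, hm k (by omega)]
  · rintro ⟨e, h, h'⟩
    refine ⟨s e, ?_, H _ _ _ _ h'⟩
    obtain ⟨m, hm⟩ := eventually_atTop.1 h
    filter_upwards [eventually_ge_atTop (m + 1)] with n hn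
    obtain ⟨k, rfl⟩ : ∃ k, n = k + 1 := ⟨n - 1, by omega⟩
    simp [caseL, seg_cons, hm k (by omega)]

theorem ident_const {e : ℕ} {g f : ℕ → ℕ} : Ident (fun _ => e) g f ↔ Phi e g = f := by
  constructor
  · rintro ⟨e', h, h'⟩
    obtain ⟨n, hn⟩ := h.exists
    have : e = e' := hn
    rw [this]; exact h'
  · intro h
    exact ⟨e, Eventually.of_forall fun _ => rfl, h⟩

theorem ident_unique {Ψ : List ℕ → ℕ} {g f f' : ℕ → ℕ} (h : Ident Ψ g f) (h' : Ident Ψ g f') :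
    f = f' := by
  obtain ⟨e, h1, h2⟩ := h
  obtain ⟨e', h1', h2'⟩ := h'
  obtain ⟨n, hn, hn'⟩ := (h1.and h1').exists
  rw [← hn, hn'] at h2
  exact Phi_inj h2 h2'

theorem ident_TLe {Ψ : List ℕ → ℕ} {g f : ℕ → ℕ} (h : Ident Ψ g f) : TLe f g := by
  obtain ⟨e, h1, h2⟩ := h
  exact ⟨e, h2⟩

/-! ### Potentials bounding the number of mind changes -/

/-- `c` decreases whenever `Ψ` changes its mind. -/
def Pot (Ψ : List ℕ → ℕ) (c : List ℕ → ℕ) : Prop :=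
  ∀ σ a, c (σ ++ [a]) ≤ c σ ∧ (Ψ (σ ++ [a]) ≠ Ψ σ → c (σ ++ [a]) < c σ)

theorem Pot.of_pre {Ψ c} (h : Pot Ψ c) {σ τ : List ℕ} (hp : σ <+: τ) :
    c τ ≤ c σ ∧ (Ψ τ ≠ Ψ σ → c τ < c σ) := by
  obtain ⟨ρ, rfl⟩ := hp
  induction ρ using List.reverseRecOn with
  | nil => simp
  | append_singleton ρ a ih =>
    rw [← List.append_assoc]
    obtain ⟨h1, h2⟩ := h (σ ++ ρ) a
    refine ⟨h1.trans ih.1, fun hne => ?_⟩
    by_cases h3 : Ψ (σ ++ ρ) = Ψ σ
    · rw [← h3] at hne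
      exact lt_of_lt_of_le (h2 hne) ih.1
    · exact lt_of_le_of_lt h1 (ih.2 h3)

theorem pot_cmpL (s : ℕ → ℕ → ℕ) {Ψ₁ Ψ₂ c₁ c₂ : List ℕ → ℕ} (h₁ : Pot Ψ₁ c₁) (h₂ : Pot Ψ₂ c₂) :
    Pot (cmpL s Ψ₁ Ψ₂) (fun σ => c₁ σ * (c₂ [] + 1) + c₂ (approx (Ψ₁ σ) σ)) := by
  have hM : ∀ τ, c₂ τ ≤ c₂ [] := fun τ => (h₂.of_pre (List.nil_prefix)).1
  intro σ a
  obtain ⟨h1, h2⟩ := h₁ σ a
  by_cases he : Ψ₁ (σ ++ [a]) = Ψ₁ σ
  · have hp := h₂.of_pre (approx_prefix (e := Ψ₁ σ) (List.prefix_append σ [a]))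
    simp only [he]
    have h3 : c₁ (σ ++ [a]) * (c₂ [] + 1) ≤ c₁ σ * (c₂ [] + 1) := Nat.mul_le_mul_right _ h1
    refine ⟨by omega, fun hne => ?_⟩
    have h4 := hp.2 (by
      intro h5
      apply hne
      simp only [cmpL, he, h5])
    omega
  · have h3 := h2 he
    have h4 : (c₁ (σ ++ [a]) + 1) * (c₂ [] + 1) ≤ c₁ σ * (c₂ [] + 1) := Nat.mul_le_mul_right _ h3
    have h5 := hM (approx (Ψ₁ (σ ++ [a])) (σ ++ [a]))
    have h6 : c₁ (σ ++ [a]) * (c₂ [] + 1) + c₂ (approx (Ψ₁ (σ ++ [a])) (σ ++ [a])) <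
        c₁ σ * (c₂ [] + 1) + c₂ (approx (Ψ₁ σ) σ) := by
      have : (c₁ (σ ++ [a]) + 1) * (c₂ [] + 1) = c₁ (σ ++ [a]) * (c₂ [] + 1) + (c₂ [] + 1) := by
        ring
      omega
    exact ⟨h6.le, fun _ => h6⟩

theorem pot_prL (s : ℕ → ℕ → ℕ) {Ψ₁ Ψ₂ c₁ c₂ : List ℕ → ℕ} (h₁ : Pot Ψ₁ c₁) (h₂ : Pot Ψ₂ c₂) :
    Pot (prL s Ψ₁ Ψ₂) (fun σ => c₁ σ + c₂ σ) := by
  intro σ a
  obtain ⟨h1, h2⟩ := h₁ σ a
  obtain ⟨h3, h4⟩ := h₂ σ a
  refine ⟨by simp only; omega, fun hne => ?_⟩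
  by_cases h5 : Ψ₁ (σ ++ [a]) = Ψ₁ σ
  · have h6 : Ψ₂ (σ ++ [a]) ≠ Ψ₂ σ := by
      intro h6
      apply hne
      simp only [prL, h5, h6]
    have := h4 h6
    simp only
    omega
  · have := h2 h5
    simp only
    omega

theorem pot_caseL (s : ℕ → ℕ) {Ψ₁ Ψ₂ c₁ c₂ : List ℕ → ℕ} (h₁ : Pot Ψ₁ c₁) (h₂ : Pot Ψ₂ c₂) :
    Pot (caseL s Ψ₁ Ψ₂) (fun σ => if σ = [] then c₁ [] + c₂ [] + 1 else
      if σ.headI = 0 then c₁ σ.tail else c₂ σ.tail) := by
  intro σ a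
  cases σ with
  | nil =>
    have key : ∀ (p : Prop) (d : Decidable p),
        @ite ℕ p d (c₁ []) (c₂ []) < c₁ [] + c₂ [] + 1 := by
      intro p d
      by_cases hp : p
      · rw [if_pos hp]; omega
      · rw [if_neg hp]; omega
    exact ⟨(key _ _).le, fun _ => key _ _⟩
  | cons x σ =>
    obtain ⟨h1, h2⟩ := h₁ σ a
    obtain ⟨h3, h4⟩ := h₂ σ a
    by_cases hx : x = 0
    · subst hx
      simp only [List.cons_append, reduceCtorEq, if_false, List.headI_cons, if_true,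
        List.tail_cons, caseL]
      exact ⟨h1, fun hne => h2 fun h5 => hne (by rw [h5])⟩
    · simp only [List.cons_append, reduceCtorEq, if_false, List.headI_cons, hx,
        List.tail_cons, caseL]
      exact ⟨h3, fun hne => h4 fun h5 => hne (by rw [h5])⟩

/-! ### The set of guesses along a finite string -/

/-- The guesses of `Ψ` on the initial segments of `σ`. -/
def V (Ψ : List ℕ → ℕ) (σ : List ℕ) : Finset ℕ :=
  (Finset.range (σ.length + 1)).image fun k => Ψ (σ.take k)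

theorem mem_V {Ψ : List ℕ → ℕ} {σ : List ℕ} {x : ℕ} : x ∈ V Ψ σ ↔ ∃ τ, τ <+: σ ∧ Ψ τ = x := by
  simp only [V, Finset.mem_image, Finset.mem_range]
  constructor
  · rintro ⟨k, _, rfl⟩
    exact ⟨_, List.take_prefix _ _, rfl⟩
  · rintro ⟨τ, hτ, rfl⟩
    refine ⟨τ.length, by have := hτ.length_le; omega, ?_⟩
    rw [← List.prefix_iff_eq_take.1 hτ]

theorem V_mono {Ψ : List ℕ → ℕ} {σ τ : List ℕ} (h : σ <+: τ) : V Ψ σ ⊆ V Ψ τ := by
  intro x hx
  obtain ⟨ρ, h1, h2⟩ := mem_V.1 hx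
  exact mem_V.2 ⟨ρ, h1.trans h, h2⟩

theorem V_cmpL (s : ℕ → ℕ → ℕ) {Ψ₁ Ψ₂ : List ℕ → ℕ} {b₁ b₂ : ℕ} (h₁ : ∀ σ, (V Ψ₁ σ).card ≤ b₁)
    (h₂ : ∀ σ, (V Ψ₂ σ).card ≤ b₂) (σ : List ℕ) : (V (cmpL s Ψ₁ Ψ₂) σ).card ≤ b₁ * b₂ := by
  have hsub : V (cmpL s Ψ₁ Ψ₂) σ ⊆
      (V Ψ₁ σ).biUnion fun e => (V Ψ₂ (approx e σ)).image (s e) := by
    intro x hx
    obtain ⟨τ, hτ, rfl⟩ := mem_V.1 hx
    refine Finset.mem_biUnion.2 ⟨Ψ₁ τ, mem_V.2 ⟨τ, hτ, rfl⟩, Finset.mem_image.2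
      ⟨_, mem_V.2 ⟨_, approx_prefix hτ, rfl⟩, rfl⟩⟩
  refine (Finset.card_le_card hsub).trans ?_
  refine (Finset.card_biUnion_le_card_mul _ _ b₂ ?_).trans (Nat.mul_le_mul_right _ (h₁ σ))
  intro e _
  exact Finset.card_image_le.trans (h₂ _)

theorem V_prL (s : ℕ → ℕ → ℕ) {Ψ₁ Ψ₂ : List ℕ → ℕ} {b₁ b₂ : ℕ} (h₁ : ∀ σ, (V Ψ₁ σ).card ≤ b₁)
    (h₂ : ∀ σ, (V Ψ₂ σ).card ≤ b₂) (σ : List ℕ) : (V (prL s Ψ₁ Ψ₂) σ).card ≤ b₁ * b₂ := by
  have hsub : V (prL s Ψ₁ Ψ₂) σ ⊆ (V Ψ₁ σ ×ˢ V Ψ₂ σ).image fun p => s p.1 p.2 := by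
    intro x hx
    obtain ⟨τ, hτ, rfl⟩ := mem_V.1 hx
    exact Finset.mem_image.2 ⟨(Ψ₁ τ, Ψ₂ τ), Finset.mem_product.2
      ⟨mem_V.2 ⟨τ, hτ, rfl⟩, mem_V.2 ⟨τ, hτ, rfl⟩⟩, rfl⟩
  refine (Finset.card_le_card hsub).trans (Finset.card_image_le.trans ?_)
  rw [Finset.card_product]
  exact Nat.mul_le_mul (h₁ σ) (h₂ σ)

theorem tail_prefix {τ σ : List ℕ} (h : τ <+: σ) (hτ : τ ≠ []) : τ.tail <+: σ.tail := by
  obtain ⟨ρ, rfl⟩ := h
  cases τ with
  | nil => exact absurd rfl hτ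
  | cons x τ => exact List.prefix_append _ _

theorem V_caseL (s : ℕ → ℕ) {Ψ₁ Ψ₂ : List ℕ → ℕ} {b₁ b₂ : ℕ} (h₁ : ∀ σ, (V Ψ₁ σ).card ≤ b₁)
    (h₂ : ∀ σ, (V Ψ₂ σ).card ≤ b₂) (σ : List ℕ) :
    (V (caseL s Ψ₁ Ψ₂) σ).card ≤ b₁ + b₂ + 1 := by
  have hsub : V (caseL s Ψ₁ Ψ₂) σ ⊆
      insert 0 ((V Ψ₁ σ.tail).image s ∪ (V Ψ₂ σ.tail).image s) := by
    intro x hx
    obtain ⟨τ, hτ, rfl⟩ := mem_V.1 hx
    unfold caseL
    split_ifs with h1 h2
    · simp
    · refine Finset.mem_insert_of_mem (Finset.mem_union_left _ (Finset.mem_image_of_mem _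
        (mem_V.2 ⟨_, ?_, rfl⟩)))
      exact tail_prefix hτ h1
    · refine Finset.mem_insert_of_mem (Finset.mem_union_right _ (Finset.mem_image_of_mem _
        (mem_V.2 ⟨_, ?_, rfl⟩)))
      exact tail_prefix hτ h1
  refine (Finset.card_le_card hsub).trans ?_
  have h3 := Finset.card_insert_le 0 ((V Ψ₁ σ.tail).image s ∪ (V Ψ₂ σ.tail).image s)
  have h4 := Finset.card_union_le ((V Ψ₁ σ.tail).image s) ((V Ψ₂ σ.tail).image s)
  have h5 : ((V Ψ₁ σ.tail).image s).card ≤ b₁ := Finset.card_image_le.trans (h₁ _)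
  have h6 : ((V Ψ₂ σ.tail).image s).card ≤ b₂ := Finset.card_image_le.trans (h₂ _)
  omega

/-! ### Truncation: at most `m` mind changes -/

/-- State of the truncated learner: number of mind changes and current guess. -/
def stA (Ψ : List ℕ → ℕ) (m : ℕ) (σ : List ℕ) : ℕ → ℕ × ℕ
  | 0 => (0, Ψ [])
  | k + 1 =>
    if Ψ (σ.take (k + 1)) = (stA Ψ m σ k).2 then stA Ψ m σ k
    else if (stA Ψ m σ k).1 < m then ((stA Ψ m σ k).1 + 1, Ψ (σ.take (k + 1)))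
    else stA Ψ m σ k

def trA (Ψ : List ℕ → ℕ) (m : ℕ) (σ : List ℕ) : ℕ := (stA Ψ m σ σ.length).2

theorem stA_le (Ψ : List ℕ → ℕ) (m : ℕ) (σ : List ℕ) (k : ℕ) : (stA Ψ m σ k).1 ≤ m := by
  induction k with
  | zero => simp [stA]
  | succ k ih =>
    simp only [stA]
    split_ifs with h1 h2
    · exact ih
    · simp only; omega
    · exact ih

theorem stA_append (Ψ : List ℕ → ℕ) (m : ℕ) (σ τ : List ℕ) {k : ℕ} (hk : k ≤ σ.length) :
    stA Ψ m (σ ++ τ) k = stA Ψ m σ k := by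
  induction k with
  | zero => rfl
  | succ k ih =>
    simp only [stA]
    rw [ih (by omega), List.take_append_of_le_length hk]

theorem pot_trA (Ψ : List ℕ → ℕ) (m : ℕ) :
    Pot (trA Ψ m) (fun σ => m - (stA Ψ m σ σ.length).1) := by
  intro σ a
  have h1 : stA Ψ m (σ ++ [a]) σ.length = stA Ψ m σ σ.length := stA_append Ψ m σ [a] le_rfl
  have h0 := stA_le Ψ m σ σ.length
  simp only [trA, List.length_append, List.length_singleton, stA, h1]
  split_ifs with h2 h3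
  · exact ⟨le_rfl, fun h => absurd rfl h⟩
  · exact ⟨by simp only; omega, fun _ => by simp only; omega⟩
  · exact ⟨le_rfl, fun h => absurd rfl h⟩

theorem computable_trA {Ψ : List ℕ → ℕ} (h : Computable Ψ) (m : ℕ) : Computable (trA Ψ m) := by
  have hΨ : Computable fun x : List ℕ × (ℕ × (ℕ × ℕ)) => Ψ (x.1.take (x.2.1 + 1)) :=
    h.comp (Primrec.list_take.to_comp.comp (Computable.succ.comp (Computable.fst.comp
      Computable.snd)) Computable.fst)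
  have h2 : Computable fun x : List ℕ × (ℕ × (ℕ × ℕ)) => x.2.2 := Computable.snd.comp Computable.snd
  have hstep : Computable₂ fun (σ : List ℕ) (q : ℕ × (ℕ × ℕ)) =>
      if Ψ (σ.take (q.1 + 1)) = q.2.2 then q.2
      else if q.2.1 < m then (q.2.1 + 1, Ψ (σ.take (q.1 + 1))) else q.2 := by
    refine computable_ite ?_ h2 (computable_ite ?_ ?_ h2)
    · exact (Primrec.eq (α := ℕ)).decide.to_comp.comp hΨ (Computable.snd.comp h2)
    · exact Primrec.nat_lt.decide.to_comp.comp (Computable.fst.comp h2) (Computable.const m)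
    · exact (Computable.succ.comp (Computable.fst.comp h2)).pair hΨ
  have := Computable.nat_rec (f := fun σ : List ℕ => σ.length)
    Computable.list_length (Computable.const ((0, Ψ []) : ℕ × ℕ)) hstep
  refine (Computable.snd.comp this).of_eq fun σ => ?_
  unfold trA
  congr 1
  generalize σ.length = k
  induction k with
  | zero => rfl
  | succ k ih => simp only [stA]; rw [← ih]

theorem trA_eq {Ψ : List ℕ → ℕ} {m : ℕ} {g : ℕ → ℕ} (h : (mcl Ψ g).encard ≤ m) (n : ℕ) :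
    trA Ψ m (seg g n) = Ψ (seg g n) := by
  classical
  have hcard : ∀ n, ((Finset.range n).filter (fun k => Ψ (seg g (k + 1)) ≠ Ψ (seg g k))).card ≤ m := by
    intro n
    have h1 : (((Finset.range n).filter (fun k => Ψ (seg g (k + 1)) ≠ Ψ (seg g k)) : Finset ℕ) :
        Set ℕ) ⊆ mcl Ψ g := by
      intro k hk
      exact (Finset.mem_filter.1 (Finset.mem_coe.1 hk)).2
    have h2 := (Set.encard_le_encard h1).trans h
    rw [Set.encard_coe_eq_coe_finsetCard] at h2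
    exact_mod_cast h2
  have key : ∀ N k, k ≤ N → stA Ψ m (seg g N) k =
      (((Finset.range k).filter (fun k => Ψ (seg g (k + 1)) ≠ Ψ (seg g k))).card, Ψ (seg g k)) := by
    intro N k
    induction k with
    | zero => intro _; simp [stA]
    | succ k ih =>
      intro hk
      have ih' := ih (by omega)
      have h3 := hcard (k + 1)
      rw [Finset.range_add_one, Finset.filter_insert] at h3 ⊢
      simp only [stA, ih', seg_take, min_eq_left hk]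
      by_cases h4 : Ψ (seg g (k + 1)) = Ψ (seg g k)
      · simp [h4]
      · rw [if_pos h4, Finset.card_insert_of_notMem (by simp)] at h3
        rw [if_neg h4, if_pos h4, Finset.card_insert_of_notMem (by simp), if_pos (by omega)]
  unfold trA
  rw [seg_length, key n n le_rfl]

/-! ### Truncation: at most `m` different guesses -/

/-- State of the truncated learner: guesses made so far and current guess. -/
def stB (Ψ : List ℕ → ℕ) (m : ℕ) (σ : List ℕ) : ℕ → List ℕ × ℕ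
  | 0 => ([Ψ []], Ψ [])
  | k + 1 =>
    if Ψ (σ.take (k + 1)) ∈ (stB Ψ m σ k).1 then ((stB Ψ m σ k).1, Ψ (σ.take (k + 1)))
    else if (stB Ψ m σ k).1.length < m then
      (Ψ (σ.take (k + 1)) :: (stB Ψ m σ k).1, Ψ (σ.take (k + 1)))
    else stB Ψ m σ k

def trB (Ψ : List ℕ → ℕ) (m : ℕ) (σ : List ℕ) : ℕ := (stB Ψ m σ σ.length).2

theorem stB_append (Ψ : List ℕ → ℕ) (m : ℕ) (σ τ : List ℕ) {k : ℕ} (hk : k ≤ σ.length) :
    stB Ψ m (σ ++ τ) k = stB Ψ m σ k := by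
  induction k with
  | zero => rfl
  | succ k ih =>
    simp only [stB]
    rw [ih (by omega), List.take_append_of_le_length hk]

theorem stB_len (Ψ : List ℕ → ℕ) (m : ℕ) (σ : List ℕ) (k : ℕ) :
    (stB Ψ m σ k).1.length ≤ m + 1 ∧ (stB Ψ m σ k).2 ∈ (stB Ψ m σ k).1 := by
  induction k with
  | zero => simp [stB]
  | succ k ih =>
    simp only [stB]
    split_ifs with h1 h2
    · exact ⟨ih.1, h1⟩
    · simp only [List.length_cons, List.mem_cons, true_or, and_true]; omega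
    · exact ih

theorem stB_mono (Ψ : List ℕ → ℕ) (m : ℕ) (σ : List ℕ) {k l : ℕ} (hkl : k ≤ l) {x : ℕ}
    (hx : x ∈ (stB Ψ m σ k).1) : x ∈ (stB Ψ m σ l).1 := by
  induction hkl with
  | refl => exact hx
  | step _ ih =>
    simp only [stB]
    split_ifs with h1 h2
    · exact ih
    · exact List.mem_cons_of_mem _ ih
    · exact ih

theorem V_trB (Ψ : List ℕ → ℕ) (m : ℕ) (σ : List ℕ) : (V (trB Ψ m) σ).card ≤ m + 1 := by
  have hsub : V (trB Ψ m) σ ⊆ (stB Ψ m σ σ.length).1.toFinset := by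
    intro x hx
    obtain ⟨τ, ⟨ρ, rfl⟩, rfl⟩ := mem_V.1 hx
    rw [List.mem_toFinset]
    refine stB_mono Ψ m (τ ++ ρ) (k := τ.length) (by simp) ?_
    rw [stB_append Ψ m τ ρ le_rfl]
    exact (stB_len Ψ m τ τ.length).2
  exact (Finset.card_le_card hsub).trans ((List.toFinset_card_le _).trans (stB_len Ψ m σ _).1)

theorem computable_trB {Ψ : List ℕ → ℕ} (h : Computable Ψ) (m : ℕ) : Computable (trB Ψ m) := by
  have hΨ : Computable fun x : List ℕ × (ℕ × (List ℕ × ℕ)) => Ψ (x.1.take (x.2.1 + 1)) :=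
    h.comp (Primrec.list_take.to_comp.comp (Computable.succ.comp (Computable.fst.comp
      Computable.snd)) Computable.fst)
  have h2 : Computable fun x : List ℕ × (ℕ × (List ℕ × ℕ)) => x.2.2 :=
    Computable.snd.comp Computable.snd
  have hmem : Primrec₂ fun (x : ℕ) (l : List ℕ) => decide (x ∈ l) := by
    have h3 : Primrec₂ fun (x : ℕ) (l : List ℕ) => decide (l.idxOf x < l.length) :=
      Primrec.nat_lt.decide.comp (Primrec.list_idxOf.comp Primrec.fst Primrec.snd)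
        (Primrec.list_length.comp Primrec.snd)
    refine h3.of_eq fun x l => ?_
    simp [List.idxOf_lt_length_iff]
  have hstep : Computable₂ fun (σ : List ℕ) (q : ℕ × (List ℕ × ℕ)) =>
      if Ψ (σ.take (q.1 + 1)) ∈ q.2.1 then (q.2.1, Ψ (σ.take (q.1 + 1)))
      else if q.2.1.length < m then (Ψ (σ.take (q.1 + 1)) :: q.2.1, Ψ (σ.take (q.1 + 1)))
      else q.2 := by
    refine computable_ite ?_ ((Computable.fst.comp h2).pair hΨ) (computable_ite ?_ ?_ h2)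
    · exact hmem.to_comp.comp hΨ (Computable.fst.comp h2)
    · exact Primrec.nat_lt.decide.to_comp.comp (Computable.list_length.comp
        (Computable.fst.comp h2)) (Computable.const m)
    · exact (Computable.list_cons.comp hΨ (Computable.fst.comp h2)).pair hΨ
  have := Computable.nat_rec (f := fun σ : List ℕ => σ.length)
    Computable.list_length (Computable.const (([Ψ []], Ψ []) : List ℕ × ℕ)) hstep
  refine (Computable.snd.comp this).of_eq fun σ => ?_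
  unfold trB
  congr 1
  generalize σ.length = k
  induction k with
  | zero => rfl
  | succ k ih => simp only [stB]; rw [← ih]

theorem trB_eq {Ψ : List ℕ → ℕ} {m : ℕ} {g : ℕ → ℕ} (h : (indx Ψ g).encard ≤ m) (n : ℕ) :
    trB Ψ m (seg g n) = Ψ (seg g n) := by
  classical
  have hcard : ∀ l : List ℕ, l.Nodup → (∀ x ∈ l, x ∈ indx Ψ g) → l.length ≤ m := by
    intro l h1 h2
    have h3 : ((l.toFinset : Finset ℕ) : Set ℕ) ⊆ indx Ψ g := by
      intro x hx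
      exact h2 x (by simpa using hx)
    have h4 := (Set.encard_le_encard h3).trans h
    rw [Set.encard_coe_eq_coe_finsetCard, List.toFinset_card_of_nodup h1] at h4
    exact_mod_cast h4
  have key : ∀ N k, k ≤ N → (stB Ψ m (seg g N) k).1.Nodup ∧
      (∀ x ∈ (stB Ψ m (seg g N) k).1, x ∈ indx Ψ g) ∧ (stB Ψ m (seg g N) k).2 = Ψ (seg g k) := by
    intro N k
    induction k with
    | zero =>
      intro _
      simp only [stB, List.nodup_singleton, List.mem_singleton, forall_eq, seg_zero, and_true,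
        true_and]
      exact ⟨0, by simp⟩
    | succ k ih =>
      intro hk
      obtain ⟨h1, h2, h3⟩ := ih (by omega)
      have hin : Ψ (seg g (k + 1)) ∈ indx Ψ g := ⟨k + 1, rfl⟩
      simp only [stB, seg_take, min_eq_left hk]
      split_ifs with h4 h5
      · exact ⟨h1, h2, rfl⟩
      · refine ⟨List.nodup_cons.2 ⟨h4, h1⟩, ?_, rfl⟩
        intro x hx
        rcases List.mem_cons.1 hx with rfl | hx
        · exact hin
        · exact h2 x hx
      · exfalso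
        apply h5
        have := hcard (Ψ (seg g (k + 1)) :: (stB Ψ m (seg g N) k).1)
          (List.nodup_cons.2 ⟨h4, h1⟩) (by
            intro x hx
            rcases List.mem_cons.1 hx with rfl | hx
            · exact hin
            · exact h2 x hx)
        simp only [List.length_cons] at this
        omega
  unfold trB
  rw [seg_length, (key n n le_rfl).2.2]

end Pool.Agent.LearnDeg
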