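import Pool.Agent.LearnDeg.Solv

/-!
# The five sentences in terms of Turing reducibility
-/

namespace Pool.Agent.LearnDeg

/-- Quotient by mutual reducibility. -/
def Dq (𝓡 : Set Rl) : Type := Quot fun P Q : Set (ℕ → ℕ) => RR 𝓡 P Q ∧ RR 𝓡 Q P

/-- The class of a set. -/
def mk (𝓡 : Set Rl) (P : Set (ℕ → ℕ)) : Dq 𝓡 := Quot.mk _ P

/-- The order of the quotient. -/
def Le (𝓡 : Set Rl) (a b : Dq 𝓡) : Prop := ∃ P Q : Set (ℕ → ℕ), mk 𝓡 P = a ∧ mk 𝓡 Q = b ∧ RR 𝓡 P Q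

theorem mk_surj (𝓡 : Set Rl) : Function.Surjective (mk 𝓡) := Quot.mk_surjective

/-- Minimal solvable elements above a set. -/
def mins (P : Set (ℕ → ℕ)) : Set (ℕ → ℕ) := {f | (∃ p ∈ P, TLe p f) ∧ ∀ p ∈ P, TLe p f → TLe f p}

section
variable {𝓡 : Set Rl} (hG : Good 𝓡) (hS : SD 𝓡)

include hG in
theorem mk_eq {P Q : Set (ℕ → ℕ)} : mk 𝓡 P = mk 𝓡 Q ↔ RR 𝓡 P Q ∧ RR 𝓡 Q P := by
  have eqv : Equivalence fun P Q : Set (ℕ → ℕ) => RR 𝓡 P Q ∧ RR 𝓡 Q P :=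
    ⟨fun P => ⟨hG.refl P, hG.refl P⟩, fun h => ⟨h.2, h.1⟩,
      fun h h' => ⟨hG.trans h.1 h'.1, hG.trans h'.2 h.2⟩⟩
  constructor
  · intro h
    have h1 := Quot.eq.1 h
    rwa [eqv.eqvGen_iff] at h1
  · intro h
    exact Quot.sound h

include hG in
theorem le_mk {P Q : Set (ℕ → ℕ)} : Le 𝓡 (mk 𝓡 P) (mk 𝓡 Q) ↔ RR 𝓡 P Q := by
  constructor
  · rintro ⟨P', Q', hP, hQ, h⟩
    exact hG.trans ((mk_eq hG).1 hP).2 (hG.trans h ((mk_eq hG).1 hQ).1)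
  · intro h
    exact ⟨P, Q, rfl, rfl, h⟩

include hG in
theorem sat_Dq (φ : Fm) (P : Set (ℕ → ℕ)) :
    sat (Le 𝓡) φ (fun _ => mk 𝓡 P) ↔ sat (RR 𝓡) φ (fun _ => P) :=
  sat_surj (RR 𝓡) (Le 𝓡) (mk 𝓡) (mk_surj 𝓡) (fun _ _ => le_mk hG) φ (fun _ => P)

include hG hS in
theorem solv_iff (d : Dq 𝓡) : SolvP (Le 𝓡) d ↔ ∃ f, d = mk 𝓡 {f} := by
  obtain ⟨A, rfl⟩ := mk_surj 𝓡 d
  have h1 : SolvP (Le 𝓡) (mk 𝓡 A) ↔ SolvP (RR 𝓡) A := by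
    have := sat_surj (RR 𝓡) (Le 𝓡) (mk 𝓡) (mk_surj 𝓡) (fun _ _ => le_mk hG) (Fm.solv 2)
      (fun _ => A)
    rw [sat_solv _ _ le_rfl, sat_solv _ _ le_rfl] at this
    exact this
  rw [h1]
  simp only [mk_eq hG]
  constructor
  · exact hS A
  · rintro ⟨f, h1, h2⟩
    exact solv_of_single hG h1 h2

include hG hS in
theorem forall_solv {p : Dq 𝓡 → Prop} :
    (∀ t, SolvP (Le 𝓡) t → p t) ↔ ∀ f, p (mk 𝓡 {f}) := by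
  constructor
  · intro h f
    exact h _ ((solv_iff hG hS _).2 ⟨f, rfl⟩)
  · intro h t ht
    obtain ⟨f, rfl⟩ := (solv_iff hG hS t).1 ht
    exact h f

include hG hS in
theorem exists_solv {p : Dq 𝓡 → Prop} :
    (∃ t, SolvP (Le 𝓡) t ∧ p t) ↔ ∃ f, p (mk 𝓡 {f}) := by
  constructor
  · rintro ⟨t, ht, h⟩
    obtain ⟨f, rfl⟩ := (solv_iff hG hS t).1 ht
    exact ⟨f, h⟩
  · rintro ⟨f, h⟩
    exact ⟨_, (solv_iff hG hS _).2 ⟨f, rfl⟩, h⟩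

include hG hS in
theorem min_iff (P : Set (ℕ → ℕ)) (d : Dq 𝓡) :
    MinP (Le 𝓡) (mk 𝓡 P) d ↔ ∃ f ∈ mins P, d = mk 𝓡 {f} := by
  unfold MinP
  constructor
  · rintro ⟨h1, h2, h3⟩
    obtain ⟨f, rfl⟩ := (solv_iff hG hS d).1 h1
    rw [forall_solv hG hS] at h3
    simp only [le_mk hG, hG.le_single, Set.mem_singleton_iff, exists_eq_left] at h2 h3
    refine ⟨f, ⟨h2, fun p hp hpf => h3 p ⟨p, hp, TLe.refl p⟩ hpf⟩, rfl⟩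
  · rintro ⟨f, ⟨h1, h2⟩, rfl⟩
    refine ⟨(solv_iff hG hS _).2 ⟨f, rfl⟩, ?_, ?_⟩
    · rw [le_mk hG, hG.le_single]; exact h1
    · rw [forall_solv hG hS]
      intro f'
      simp only [le_mk hG, hG.le_single, Set.mem_singleton_iff, exists_eq_left]
      rintro ⟨p, hp, hpf⟩ hf
      exact (h2 p hp (hpf.trans hf)).trans hpf

include hG hS in
theorem forall_min {P : Set (ℕ → ℕ)} {p : Dq 𝓡 → Prop} :
    (∀ t, MinP (Le 𝓡) (mk 𝓡 P) t → p t) ↔ ∀ f ∈ mins P, p (mk 𝓡 {f}) := by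
  constructor
  · intro h f hf
    exact h _ ((min_iff hG hS P _).2 ⟨f, hf, rfl⟩)
  · intro h t ht
    obtain ⟨f, hf, rfl⟩ := (min_iff hG hS P t).1 ht
    exact h f hf

include hG hS in
theorem exists_min {P : Set (ℕ → ℕ)} {p : Dq 𝓡 → Prop} :
    (∃ t, MinP (Le 𝓡) (mk 𝓡 P) t ∧ p t) ↔ ∃ f ∈ mins P, p (mk 𝓡 {f}) := by
  constructor
  · rintro ⟨t, ht, h⟩
    obtain ⟨f, hf, rfl⟩ := (min_iff hG hS P t).1 ht
    exact ⟨f, hf, h⟩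
  · rintro ⟨f, hf, h⟩
    exact ⟨_, (min_iff hG hS P _).2 ⟨f, hf, rfl⟩, h⟩

include hG in
theorem lj_iff (P Q R : Set (ℕ → ℕ)) :
    LJP (Le 𝓡) (mk 𝓡 P) (mk 𝓡 Q) (mk 𝓡 R) ↔ RR 𝓡 P (jn Q R) := by
  unfold LJP
  rw [(mk_surj 𝓡).forall]
  simp only [le_mk hG]
  exact hG.lj_iff

theorem jn_single (x y : ℕ → ℕ) : jn {x} {y} = {join x y} := by
  ext z; simp [jn]

include hG in
theorem lj_single (x y z : ℕ → ℕ) :
    LJP (Le 𝓡) (mk 𝓡 {x}) (mk 𝓡 {y}) (mk 𝓡 {z}) ↔ TLe x (join y z) := by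
  rw [lj_iff hG, jn_single, hG.single_single]

include hG in
theorem ml_iff (a b P Q : Set (ℕ → ℕ)) :
    MLP (Le 𝓡) (mk 𝓡 a) (mk 𝓡 b) (mk 𝓡 P) (mk 𝓡 Q) ↔ RR 𝓡 (mt a b) (jn P Q) := by
  unfold MLP
  rw [(mk_surj 𝓡).forall]
  simp only [le_mk hG, (mk_surj 𝓡).forall]
  exact hG.ml_iff

end

/-- `f` computes an element of `P`. -/
def Ab (P : Set (ℕ → ℕ)) (f : ℕ → ℕ) : Prop := ∃ x ∈ P, TLe x f

def T1 (𝓡 : Set Rl) : Prop :=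
  ∃ P, (¬ ∃ v, ∀ f ∈ mins P, TLe f v) ∧ ∀ f ∈ mins P, ∃ g a b,
    (∀ f' ∈ mins P, ¬ TLe f' f → ¬ TLe f (join f' g) ∧ ¬ TLe f' (join f g)) ∧
    (∀ y, Ab a y → TLe f y) ∧ (∀ y, Ab b y → ∃ f' ∈ mins P, ¬ TLe f' f ∧ TLe f' y) ∧
    RR 𝓡 (mt a b) (jn P {g})

def T2 (𝓡 : Set Rl) : Prop :=
  ∃ P, (¬ ∃ v, ∀ f ∈ mins P, TLe f v) ∧ ∀ u, ∃ v g a b,
    (∀ f ∈ mins P, TLe f u → Ab a f) ∧
    (∀ f ∈ mins P, Ab a f → TLe f v) ∧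
    (∀ y, Ab a y → ∃ f ∈ mins P, Ab a f ∧ TLe f y) ∧
    (∀ y, Ab b y → ∃ f ∈ mins P, ¬ Ab a f ∧ TLe f y) ∧
    (∀ f ∈ mins P, ∀ f' ∈ mins P, Ab a f → ¬ Ab a f' →
      ¬ TLe f' (join f g) ∧ ¬ TLe f (join f' g)) ∧
    RR 𝓡 (mt a b) (jn P {g})

def T3 (𝓡 : Set Rl) : Prop :=
  ∀ P, (∃ v, ∀ f ∈ mins P, TLe f v) → ∃ T, (∀ f ∈ mins P, Ab T f) ∧
    ∀ u z, ¬ TLe z u → ∀ Q, (∀ f ∈ mins P, Ab Q f) → ∃ g,
      (∀ f ∈ mins P, ∀ f' ∈ mins P, ¬ TLe f' f → ¬ TLe f' (join f g)) ∧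
      ¬ TLe z (join u g) ∧ RR 𝓡 Q (jn T {g})

def T4 (𝓡 : Set Rl) : Prop :=
  ∀ (f f' : ℕ → ℕ) (W : Set (ℕ → ℕ)), (∀ y, Ab W y → TLe f y ∨ TLe f' y) → ∃ a b,
    (∀ y, Ab a y → TLe f y) ∧ (∀ y, Ab b y → TLe f' y) ∧ RR 𝓡 (mt a b) W

def T5 (𝓡 : Set Rl) : Prop := ∀ a b, (∀ y, Ab b y → Ab a y) → RR 𝓡 a b

section
variable {𝓡 : Set Rl} (hG : Good 𝓡) (hS : SD 𝓡)

include hG hS in
theorem s1_iff : S1P (RR 𝓡) ↔ T1 𝓡 := by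
  have h0 : S1P (RR 𝓡) ↔ S1P (Le 𝓡) := by
    rw [← sat_s1 (Le 𝓡) (fun _ => mk 𝓡 ∅), sat_Dq hG, sat_s1]
  rw [h0]
  unfold S1P T1 Ab
  rw [(mk_surj 𝓡).exists]
  refine exists_congr fun P => ?_
  simp only [exists_solv hG hS, exists_min hG hS, forall_min hG hS, forall_solv hG hS]
  simp only [(mk_surj 𝓡).exists, le_mk hG, lj_single hG, ml_iff hG, hG.le_single,
    Set.mem_singleton_iff, exists_eq_left]

include hG hS in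
theorem s2_iff : S2P (RR 𝓡) ↔ T2 𝓡 := by
  have h0 : S2P (RR 𝓡) ↔ S2P (Le 𝓡) := by
    rw [← sat_s2 (Le 𝓡) (fun _ => mk 𝓡 ∅), sat_Dq hG, sat_s2]
  rw [h0]
  unfold S2P T2 Ab
  rw [(mk_surj 𝓡).exists]
  refine exists_congr fun P => ?_
  simp only [exists_solv hG hS, exists_min hG hS, forall_min hG hS, forall_solv hG hS]
  simp only [(mk_surj 𝓡).exists, le_mk hG, lj_single hG, ml_iff hG, hG.le_single,
    Set.mem_singleton_iff, exists_eq_left]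

include hG hS in
theorem s3_iff : S3P (RR 𝓡) ↔ T3 𝓡 := by
  have h0 : S3P (RR 𝓡) ↔ S3P (Le 𝓡) := by
    rw [← sat_s3 (Le 𝓡) (fun _ => mk 𝓡 ∅), sat_Dq hG, sat_s3]
  rw [h0]
  unfold S3P T3 Ab
  rw [(mk_surj 𝓡).forall]
  refine forall_congr' fun P => ?_
  simp only [exists_solv hG hS, exists_min hG hS, forall_min hG hS, forall_solv hG hS]
  simp only [(mk_surj 𝓡).exists, (mk_surj 𝓡).forall, le_mk hG, lj_single hG, lj_iff hG,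
    hG.le_single, Set.mem_singleton_iff, exists_eq_left]

include hG hS in
theorem s4_iff : S4P (RR 𝓡) ↔ T4 𝓡 := by
  have h0 : S4P (RR 𝓡) ↔ S4P (Le 𝓡) := by
    rw [← sat_s4 (Le 𝓡) (fun _ => mk 𝓡 ∅), sat_Dq hG, sat_s4]
  rw [h0]
  unfold S4P T4 Ab
  have key : ∀ a b W, (∀ w : Dq 𝓡, Le 𝓡 w (mk 𝓡 a) → Le 𝓡 w (mk 𝓡 b) → Le 𝓡 w (mk 𝓡 W)) ↔
      RR 𝓡 (mt a b) W := by
    intro a b W
    rw [(mk_surj 𝓡).forall]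
    simp only [le_mk hG]
    exact ⟨fun H => H _ (hG.mt_le_left _ _) (hG.mt_le_right _ _),
      fun H w h1 h2 => hG.trans (hG.le_mt h1 h2) H⟩
  simp only [forall_solv hG hS]
  refine forall_congr' fun f => forall_congr' fun f' => ?_
  rw [(mk_surj 𝓡).forall]
  refine forall_congr' fun W => ?_
  refine imp_congr ?_ ?_
  · simp only [le_mk hG, hG.le_single, Set.mem_singleton_iff, exists_eq_left]
  · rw [(mk_surj 𝓡).exists]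
    refine exists_congr fun a => ?_
    rw [(mk_surj 𝓡).exists]
    refine exists_congr fun b => ?_
    rw [key]
    simp only [le_mk hG, hG.le_single, Set.mem_singleton_iff, exists_eq_left]

include hG hS in
theorem s5_iff : S5P (RR 𝓡) ↔ T5 𝓡 := by
  have h0 : S5P (RR 𝓡) ↔ S5P (Le 𝓡) := by
    rw [← sat_s5 (Le 𝓡) (fun _ => mk 𝓡 ∅), sat_Dq hG, sat_s5]
  rw [h0]
  unfold S5P T5 Ab
  simp only [forall_solv hG hS]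
  simp only [(mk_surj 𝓡).forall, le_mk hG, hG.le_single]

end

end Pool.Agent.LearnDeg
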