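import Pool.Agent.LearnDeg.Family
import Pool.Agent.LearnDeg.Sem

/-!
# The first sentence
-/

namespace Pool.Agent.LearnDeg

open Filter Encodable

theorem mins_range {ι : Type*} {f : ι → ℕ → ℕ} (hf : ∀ i j, TLe (f i) (f j) → i = j)
    {y : ℕ → ℕ} : y ∈ mins (Set.range f) ↔ ∃ i, TLe (f i) y ∧ TLe y (f i) := by
  constructor
  · rintro ⟨⟨_, ⟨i, rfl⟩, h1⟩, h2⟩
    exact ⟨i, h1, h2 _ ⟨i, rfl⟩ h1⟩
  · rintro ⟨i, h1, h2⟩
    refine ⟨⟨_, ⟨i, rfl⟩, h1⟩, ?_⟩
    rintro _ ⟨j, rfl⟩ h3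
    have := hf j i (h3.trans h2)
    subst this
    exact h2

/-- A set that is covered by countably many lower cones, in the sense of a countable labelling, is
bounded. -/
theorem bounded_of_label {M : Set (ℕ → ℕ)} {D : Type*} [Countable D] (d : (ℕ → ℕ) → D)
    (h : ∀ f ∈ M, ∀ f' ∈ M, d f = d f' → TLe f' f) : ∃ v, ∀ f ∈ M, TLe f v := by
  classical
  obtain ⟨v, hv⟩ := exists_upper (Set.countable_range
    (fun δ : D => if h : ∃ f ∈ M, d f = δ then h.choose else fun _ => 0))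
  refine ⟨v, fun f hf => ?_⟩
  have hex : ∃ f' ∈ M, d f' = d f := ⟨f, hf, rfl⟩
  have h1 := hv _ ⟨d f, rfl⟩
  simp only [dif_pos hex] at h1
  exact (h _ hex.choose_spec.1 f hf hex.choose_spec.2).trans h1

theorem seg_join_eq {p g p' g' : ℕ → ℕ} {s : ℕ} (h : seg (join p g) s = seg (join p' g') s) :
    seg (join p' g) s = seg (join p g) s := by
  apply List.ext_getElem?
  intro i
  have h1 := congrArg (fun l => l[i]?) h
  simp only [seg_getElem?] at h1 ⊢
  split_ifs with hi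
  · rw [if_pos hi, if_pos hi] at h1
    have h2 := Nat.pair_eq_pair.1 (Option.some.inj h1)
    simp only [join, h2.1]
  · rfl

theorem not_T1 {𝓡 : Set Rl} (h : Sub 𝓡 R1) : ¬ T1 𝓡 := by
  rintro ⟨P, hunb, H⟩
  apply hunb
  -- collect the data
  have key : ∀ f ∈ mins P, ∃ (p g : ℕ → ℕ) (a b : Set (ℕ → ℕ)) (e s : ℕ), p ∈ P ∧ TLe p f ∧
      (∀ f' ∈ mins P, ¬ TLe f' f → ¬ TLe f (join f' g) ∧ ¬ TLe f' (join f g)) ∧
      (∀ y, Ab a y → TLe f y) ∧ (∀ q ∈ P, ∃ h ∈ mt a b, Phi e (join q g) = (h : ℕ → ℕ)) ∧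
      run e (seg (join p g) s) 0 = some 0 := by
    intro f hf
    obtain ⟨g, a, b, h1, h2, h3, h4⟩ := H f hf
    obtain ⟨⟨p, hp, hpf⟩, _⟩ := id hf
    obtain ⟨_, ⟨e, rfl⟩, he⟩ := RR.mono h h4
    have he' : ∀ q ∈ P, ∃ h ∈ mt a b, Phi e (join q g) = (h : ℕ → ℕ) :=
      fun q hq => he (join q g) ⟨q, hq, g, rfl, rfl⟩
    obtain ⟨y, hy, hPy⟩ := he' p hp
    have hle : TLe y (join f g) :=
      TLe.trans ⟨e, hPy⟩ (TLe.join_le_join hpf (TLe.refl g))
    have hy0 : y 0 = 0 := by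
      rcases hy with ⟨q, hq, rfl⟩ | ⟨q, hq, rfl⟩
      · rfl
      · exfalso
        obtain ⟨f', hf', h5, h6⟩ := h3 (join f g) ⟨q, hq, (TLe.of_cons 1 q).trans hle⟩
        exact (h1 f' hf' h5).2 h6
    obtain ⟨s, hs⟩ := Phi_eq_iff.1 hPy 0
    rw [hy0] at hs
    exact ⟨p, g, a, b, e, s, hp, hpf, h1, h2, he', hs⟩
  choose! p g a b e s hpP hpf hnice ha he hs using key
  refine bounded_of_label (fun f => (e f, s f, seg (join (p f) (g f)) (s f))) ?_
  intro f hf f' hf' hd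
  simp only [Prod.mk.injEq] at hd
  obtain ⟨h1, h2, h3⟩ := hd
  rw [← h2] at h3
  have h4 := seg_join_eq h3
  obtain ⟨y, hy, hPy⟩ := he f hf (p f') (hpP f' hf')
  have h5 : run (e f) (seg (join (p f') (g f)) (s f)) 0 = some 0 := by
    rw [h4]; exact hs f hf
  have hy0 : 0 = y 0 := run_eq_of_Phi hPy h5
  by_contra hcon
  rcases hy with ⟨q, hq, rfl⟩ | ⟨q, hq, rfl⟩
  · refine (hnice f hf f' hf' hcon).1 (ha f hf _ ⟨q, hq, ?_⟩)
    exact (TLe.of_cons 0 q).trans (TLe.trans ⟨_, hPy⟩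
      (TLe.join_le_join (hpf f' hf') (TLe.refl _)))
  · simp at hy0

/-! ### Truth in the larger classes -/

/-- The index of the map sending the join of `y` and `g` to `y` with a new first entry. -/
theorem exists_outIx (i : ℕ) : ∃ e : ℕ, ∀ y g : ℕ → ℕ, Phi e (join y g) = (cons i y : ℕ → ℕ) := by
  obtain ⟨s, _, H⟩ := exists_cmp
  obtain ⟨c, _, hc⟩ := exists_consIx
  obtain ⟨q, hq⟩ := exists_fstIx
  exact ⟨s q (c i), fun y g => H _ _ _ _ _ (hq y g) (hc i y)⟩

theorem primrec_agree : PrimrecPred fun σ : List ℕ =>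
    ∀ v ∈ σ, v.unpair.1.unpair.1 = v.unpair.2 := by
  have h : PrimrecPred fun v : ℕ => v.unpair.1.unpair.1 = v.unpair.2 :=
    Primrec.eq.comp (Primrec.fst.comp (Primrec.unpair.comp (Primrec.fst.comp Primrec.unpair)))
      (Primrec.snd.comp Primrec.unpair)
  exact h.forall_mem_list

open Classical in
theorem T1_of_sub {𝓡 : Set Rl} (h : Sub (RL L2) 𝓡) : T1 𝓡 := by
  obtain ⟨O, _, x, k, hU, _, _, hdom, hind⟩ := exists_family
  let f : O → ℕ → ℕ := fun α => join (x α) (k α)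
  -- independence
  have hI : ∀ γ α, α ≠ γ → ∀ r, Idl (insert (k α) (Set.range x)) r → ¬ TLe (k γ) r :=
    fun γ α hne r hr hcon => hind γ α hne (Idl.down hr hcon)
  have hx : ∀ δ α, Idl (insert (k α) (Set.range x)) (x δ) :=
    fun δ α => Idl.of_mem (Set.mem_insert_of_mem _ ⟨δ, rfl⟩)
  have hk : ∀ α, Idl (insert (k α) (Set.range x)) (k α) := fun α => Idl.of_mem (Set.mem_insert _ _)
  have hanti : ∀ α β, TLe (f α) (f β) → α = β := by
    intro α β hle
    by_contra hne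
    exact hI α β (Ne.symm hne) _ ((hx β β).join (hk β)) ((TLe.right _ _).trans hle)
  have hxinj : ∀ α β, α ≠ β → ∃ m, x α m ≠ x β m := by
    intro α β hne
    rcases lt_or_gt_of_ne hne with hlt | hlt
    · obtain ⟨m, hm⟩ := (hdom α β hlt).exists
      exact ⟨m, hm.ne⟩
    · obtain ⟨m, hm⟩ := (hdom β α hlt).exists
      exact ⟨m, hm.ne'⟩
  refine ⟨Set.range f, ?_, ?_⟩
  · rintro ⟨v, hv⟩
    have h1 : Function.Injective f := fun α β hαβ => hanti α β (hαβ ▸ TLe.refl _)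
    have h2 : (Set.range f).Countable := (countable_lower v).mono (by
      rintro _ ⟨α, rfl⟩
      exact hv _ ((mins_range hanti).2 ⟨α, TLe.refl _, TLe.refl _⟩))
    have h3 : Countable O := by
      have := h2.preimage_of_injOn (f := f) (h1.injOn)
      rwa [Set.preimage_range, Set.countable_univ_iff] at this
    exact not_countable h3
  · intro y hy
    obtain ⟨β, hβ1, hβ2⟩ := (mins_range hanti).1 hy
    refine ⟨x β, {f β}, {z | ∃ α, α ≠ β ∧ z = f α}, ?_, ?_, ?_, RR.mono h ?_⟩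
    · intro y' hy' hne
      obtain ⟨α, hα1, hα2⟩ := (mins_range hanti).1 hy'
      have hαβ : α ≠ β := by
        rintro rfl
        exact hne (hα2.trans hβ1)
      constructor
      · intro hcon
        refine hI β α hαβ (join (f α) (x β)) (((hx α α).join (hk α)).join (hx β α)) ?_
        exact (TLe.right _ _).trans (hβ1.trans (hcon.trans
          (TLe.join_le_join hα2 (TLe.refl _))))
      · intro hcon
        refine hI α β (Ne.symm hαβ) (join (f β) (x β)) (((hx β β).join (hk β)).join (hx β β)) ?_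
        exact (TLe.right _ _).trans (hα1.trans (hcon.trans
          (TLe.join_le_join hβ2 (TLe.refl _))))
    · rintro z ⟨_, rfl, hz⟩
      exact hβ2.trans hz
    · rintro z ⟨_, ⟨α, hα, rfl⟩, hz⟩
      refine ⟨f α, (mins_range hanti).2 ⟨α, TLe.refl _, TLe.refl _⟩, ?_, hz⟩
      intro hcon
      exact hα (hanti α β (hcon.trans hβ2))
    · obtain ⟨e0, he0⟩ := exists_outIx 0
      obtain ⟨e1, he1⟩ := exists_outIx 1
      let Ψ : List ℕ → ℕ := fun σ =>
        if ∀ v ∈ σ, v.unpair.1.unpair.1 = v.unpair.2 then e0 else e1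
      have hΨc : Computable Ψ :=
        (Primrec.ite primrec_agree (Primrec.const e0) (Primrec.const e1)).to_comp
      have hpot : Pot Ψ (fun σ => if ∀ v ∈ σ, v.unpair.1.unpair.1 = v.unpair.2 then 1 else 0) := by
        intro σ a
        by_cases h1 : ∀ v ∈ σ ++ [a], v.unpair.1.unpair.1 = v.unpair.2
        · have h2 : ∀ v ∈ σ, v.unpair.1.unpair.1 = v.unpair.2 :=
            fun v hv => h1 v (List.mem_append_left _ hv)
          simp only [Ψ, if_pos h1, if_pos h2]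
          exact ⟨le_rfl, fun h => absurd rfl h⟩
        · by_cases h2 : ∀ v ∈ σ, v.unpair.1.unpair.1 = v.unpair.2
          · simp only [Ψ, if_neg h1, if_pos h2]
            exact ⟨by omega, fun _ => by omega⟩
          · simp only [Ψ, if_neg h1, if_neg h2]
            exact ⟨le_rfl, fun h => absurd rfl h⟩
      refine ⟨_, ⟨Ψ, ⟨hΨc, _, hpot⟩, rfl⟩, ?_⟩
      rintro _ ⟨_, ⟨α, rfl⟩, _, rfl, rfl⟩
      by_cases hαβ : α = β
      · subst hαβ
        refine ⟨cons 0 (f α), Or.inl ⟨f α, rfl, rfl⟩, e0, Eventually.of_forall fun n => ?_, he0 _ _⟩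
        simp only [Ψ]
        rw [if_pos]
        intro v hv
        obtain ⟨i, _, rfl⟩ := List.mem_map.1 hv
        simp [join, f]
      · refine ⟨cons 1 (f α), Or.inr ⟨f α, ⟨α, hαβ, rfl⟩, rfl⟩, e1, ?_, he1 _ _⟩
        obtain ⟨m, hm⟩ := hxinj α β hαβ
        filter_upwards [eventually_gt_atTop m] with n hn
        simp only [Ψ]
        rw [if_neg]
        intro hall
        have := hall (join (f α) (x β) m) (List.mem_map.2 ⟨m, List.mem_range.2 hn, rfl⟩)
        simp [join, f] at this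
        exact hm this

end Pool.Agent.LearnDeg
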