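import Pool.Agent.LearnDeg.Family
import Pool.Agent.LearnDeg.Sem

/-!
# The fourth and the fifth sentence
-/

namespace Pool.Agent.LearnDeg

open Filter Encodable

theorem exists_antichain : ∃ f : ℕ → ℕ → ℕ, ∀ i j, i ≠ j → ¬ TLe (f i) (f j) := by
  obtain ⟨O, _, x, k, hU, _, _, _, h⟩ := exists_family
  have : Infinite O := inferInstance
  let ι : ℕ ↪ O := Infinite.natEmbedding O
  refine ⟨fun n => k (ι n), fun i j hij hcon => ?_⟩
  refine h (ι i) (ι j) (fun h => hij (ι.injective h).symm) ?_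
  exact Idl.down (Idl.of_mem (Set.mem_insert _ _)) hcon

/-! ### The fifth sentence -/

theorem T5_R7 : T5 R7 := by
  intro a b h
  refine ⟨_, rfl, fun g hg => ?_⟩
  exact h g ⟨g, hg, TLe.refl g⟩

theorem not_T5 {𝓡 : Set Rl} (hG : Good 𝓡) (hc : CF 𝓡) : ¬ T5 𝓡 := by
  intro hT
  obtain ⟨f, hf⟩ := exists_antichain
  have hne : 𝓡.Nonempty := by
    obtain ⟨T, hT, _⟩ := hG.index 0
    exact ⟨T, hT⟩
  obtain ⟨O, hO⟩ := hc.1.exists_eq_range hne
  have hO' : ∀ e, O e ∈ 𝓡 := fun e => hO ▸ Set.mem_range_self e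
  have hcn : ∀ n, ∃ c, ∀ h, O n (f n) h → h 0 ≠ c := by
    intro n
    obtain ⟨c, hc'⟩ := ((hc.2 _ (hO' n) (f n)).image fun h => h 0).exists_notMem
    exact ⟨c, fun h hh hhc => hc' ⟨h, hh, hhc⟩⟩
  choose c hc' using hcn
  obtain ⟨R, hR, H⟩ := hT {x | ∃ n, x = cons (c n) (f n)} (Set.range f) (by
    rintro y ⟨_, ⟨n, rfl⟩, hy⟩
    exact ⟨_, ⟨n, rfl⟩, (TLe.cons _ _).trans hy⟩)
  obtain ⟨e, rfl⟩ : R ∈ Set.range O := hO ▸ hR
  obtain ⟨_, ⟨n, rfl⟩, hh⟩ := H (f e) ⟨e, rfl⟩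
  have h1 : TLe (f n) (f e) := (TLe.of_cons _ _).trans (hG.turing _ hR _ _ hh)
  have h2 : n = e := by
    by_contra hne
    exact hf n e hne h1
  subst h2
  exact hc' n _ hh rfl

/-! ### The fourth sentence -/

theorem T4_of_sub {𝓡 : Set Rl} (h : Sub (FU R1) 𝓡) : T4 𝓡 := by
  intro f f' W hW
  refine ⟨{y | y ∈ W ∧ TLe f y}, {y | y ∈ W ∧ TLe f' y}, ?_, ?_, RR.mono h ?_⟩
  · rintro y ⟨x, ⟨_, hx⟩, hxy⟩
    exact hx.trans hxy
  · rintro y ⟨x, ⟨_, hx⟩, hxy⟩
    exact hx.trans hxy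
  · obtain ⟨c, _, hc⟩ := exists_consIx
    refine ⟨_, ⟨{(fun (g f : ℕ → ℕ) => Phi (c 0) g = f), (fun (g f : ℕ → ℕ) => Phi (c 1) g = f)},
      ⟨by simp, ?_⟩, rfl⟩, ?_⟩
    · rintro _ (rfl | rfl)
      exacts [⟨c 0, rfl⟩, ⟨c 1, rfl⟩]
    · intro y hy
      rcases hW y ⟨y, hy, TLe.refl y⟩ with h1 | h1
      · exact ⟨cons 0 y, Or.inl ⟨y, ⟨hy, h1⟩, rfl⟩, _, Or.inl rfl, hc 0 y⟩
      · exact ⟨cons 1 y, Or.inr ⟨y, ⟨hy, h1⟩, rfl⟩, _, Or.inr rfl, hc 1 y⟩

/-- Concatenation of a string and a function. -/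
def app (σ : List ℕ) (h : ℕ → ℕ) : ℕ → ℕ := σ.foldr cons h

theorem app_TLe (σ : List ℕ) (h : ℕ → ℕ) : TLe (app σ h) h := by
  induction σ with
  | nil => exact TLe.refl h
  | cons a σ ih => exact (TLe.cons a _).trans ih

theorem TLe_app (σ : List ℕ) (h : ℕ → ℕ) : TLe h (app σ h) := by
  induction σ with
  | nil => exact TLe.refl h
  | cons a σ ih => exact ih.trans (TLe.of_cons a _)

theorem seg_app (σ : List ℕ) (h : ℕ → ℕ) : seg (app σ h) σ.length = σ := by
  induction σ with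
  | nil => simp
  | cons a σ ih =>
    show seg (cons a (app σ h)) (σ.length + 1) = _
    rw [seg_cons, ih]

theorem app_add (σ : List ℕ) (h : ℕ → ℕ) (n : ℕ) : app σ h (σ.length + n) = h n := by
  induction σ with
  | nil => simp [app]
  | cons a σ ih =>
    have : (a :: σ).length + n = (σ.length + n) + 1 := by simp; omega
    rw [this]
    exact ih

/-- Tagged copy of a function. -/
def tg (b : ℕ) (f : ℕ → ℕ) : ℕ → ℕ := fun n => Nat.pair b (Nat.pair n (f n))

theorem tg_TLe (b : ℕ) (f : ℕ → ℕ) : TLe (tg b f) f := by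
  refine TLe.of_search (fun σ n => (σ[n]?).map fun v => Nat.pair b (Nat.pair n v)) ?_ ?_ ?_
  · refine Primrec.to_comp ?_
    refine Primrec.option_map (Primrec.list_getElem?.comp Primrec.fst Primrec.snd) ?_
    exact Primrec₂.natPair.comp (Primrec.const b)
      (Primrec₂.natPair.comp (Primrec.snd.comp Primrec.fst) Primrec.snd)
  · intro n t k hk
    rw [seg_getElem?] at hk
    split_ifs at hk
    · simpa [tg] using hk.symm
    · simp at hk
  · intro n
    refine ⟨n + 1, ?_⟩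
    rw [seg_getElem?_of_lt (by omega)]
    simp

theorem TLe_tg (b : ℕ) (f : ℕ → ℕ) : TLe f (tg b f) := by
  have := TLe.map (q := fun n => n.unpair.2.unpair.2)
    (Primrec.to_comp (Primrec.snd.comp (Primrec.unpair.comp (Primrec.snd.comp Primrec.unpair))))
    (tg b f)
  simpa [tg] using this

theorem TLe_of_tags {f x : ℕ → ℕ} {M : ℕ}
    (h1 : ∀ m, M ≤ m → (x m).unpair.1 = 0 → (x m).unpair.2.unpair.2 = f (x m).unpair.2.unpair.1)
    (h2 : ∀ n, ∃ m, M ≤ m ∧ x m = tg 0 f n) : TLe f x := by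
  refine TLe.of_search (fun σ n => (σ[σ.length - 1]?).bind fun v =>
    if M < σ.length ∧ v.unpair.1 = 0 ∧ v.unpair.2.unpair.1 = n then some v.unpair.2.unpair.2
    else none) ?_ ?_ ?_
  · refine Primrec.to_comp ?_
    refine Primrec.option_bind (Primrec.list_getElem?.comp Primrec.fst
      (Primrec.pred.comp (Primrec.list_length.comp Primrec.fst))) ?_
    have a1 : Primrec fun p : (List ℕ × ℕ) × ℕ => p.2.unpair.1 :=
      Primrec.fst.comp (Primrec.unpair.comp Primrec.snd)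
    have a2 : Primrec fun p : (List ℕ × ℕ) × ℕ => p.2.unpair.2 :=
      Primrec.snd.comp (Primrec.unpair.comp Primrec.snd)
    have a3 : Primrec fun p : (List ℕ × ℕ) × ℕ => p.2.unpair.2.unpair.1 :=
      Primrec.fst.comp (Primrec.unpair.comp a2)
    have a4 : Primrec fun p : (List ℕ × ℕ) × ℕ => p.2.unpair.2.unpair.2 :=
      Primrec.snd.comp (Primrec.unpair.comp a2)
    exact Primrec.ite (PrimrecPred.and (Primrec.nat_lt.comp (Primrec.const M)
      (Primrec.list_length.comp (Primrec.fst.comp Primrec.fst)))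
      (PrimrecPred.and (Primrec.eq.comp a1 (Primrec.const 0))
        (Primrec.eq.comp a3 (Primrec.snd.comp Primrec.fst))))
      (Primrec.option_some.comp a4) (Primrec.const none)
  · intro n t k hk
    simp only [Option.bind_eq_some_iff, seg_length, seg_getElem?] at hk
    obtain ⟨v, hv, hk⟩ := hk
    split_ifs at hv hk with h3 h4
    obtain ⟨h5, h6, h7⟩ := h4
    have hv' : x (t - 1) = v := Option.some.inj hv
    subst hv'
    have h8 := h1 (t - 1) (by omega) h6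
    rw [h7] at h8
    rw [← h8]
    exact (Option.some.inj hk).symm
  · intro n
    obtain ⟨m, hm, hx⟩ := h2 n
    refine ⟨m + 1, ?_⟩
    simp only [seg_length, Nat.add_sub_cancel]
    rw [seg_getElem?_of_lt (by omega), hx]
    simp [tg, Nat.lt_succ_of_le hm]

/-- First digit of the value computed by the current guess. -/
def Ans (Ψ : List ℕ → ℕ) (τ : List ℕ) : Option ℕ := run (Ψ τ) τ 0

theorem ident_ans {Ψ : List ℕ → ℕ} {y h : ℕ → ℕ} (hI : Ident Ψ y h) :
    ∀ᶠ n in atTop, Ans Ψ (seg y n) = some (h 0) := by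
  obtain ⟨e, h1, h2⟩ := hI
  obtain ⟨s, hs⟩ := Phi_eq_iff.1 h2 0
  filter_upwards [h1, eventually_ge_atTop s] with n hn hn'
  rw [Ans, hn]
  exact run_mono (seg_prefix hn') hs

theorem not_T4 {𝓡 : Set Rl} (h : Sub 𝓡 (RL L4)) : ¬ T4 𝓡 := by
  intro hT
  obtain ⟨F, hF⟩ := exists_antichain
  set f := F 0 with hf
  set f' := F 1 with hf'
  have hff' : ¬ TLe f f' := hF 0 1 (by norm_num)
  have hf'f : ¬ TLe f' f := hF 1 0 (by norm_num)
  obtain ⟨a, b, ha, hb, hR⟩ := hT f f' {y | TLe f y ∨ TLe f' y} (by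
    rintro y ⟨x, hx | hx, hxy⟩
    exacts [Or.inl (hx.trans hxy), Or.inr (hx.trans hxy)])
  obtain ⟨_, ⟨Ψ, _, rfl⟩, H⟩ := RR.mono h hR
  -- answers on copies
  have hA0 : ∀ σ, ∀ᶠ n in atTop, Ans Ψ (seg (app σ (tg 0 f)) n) = some 0 := by
    intro σ
    obtain ⟨p, hp, hI⟩ := H (app σ (tg 0 f)) (Or.inl ((TLe_tg 0 f).trans (TLe_app _ _)))
    have h1 := ident_TLe hI
    rcases hp with ⟨q, hq, rfl⟩ | ⟨q, hq, rfl⟩
    · exact ident_ans hI
    · exfalso
      apply hf'f
      have h2 := hb _ ⟨q, hq, (TLe.of_cons 1 q).trans h1⟩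
      exact h2.trans ((app_TLe _ _).trans (tg_TLe 0 f))
  have hA1 : ∀ σ, ∀ᶠ n in atTop, Ans Ψ (seg (app σ (tg 1 f')) n) = some 1 := by
    intro σ
    obtain ⟨p, hp, hI⟩ := H (app σ (tg 1 f')) (Or.inr ((TLe_tg 1 f').trans (TLe_app _ _)))
    have h1 := ident_TLe hI
    rcases hp with ⟨q, hq, rfl⟩ | ⟨q, hq, rfl⟩
    · exfalso
      apply hff'
      have h2 := ha _ ⟨q, hq, (TLe.of_cons 0 q).trans h1⟩
      exact h2.trans ((app_TLe _ _).trans (tg_TLe 1 f'))
    · exact ident_ans hI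
  -- constraint: correct tags
  let c : ℕ → ℕ → ℕ := fun _ t =>
    if t.unpair.2.unpair.1 = 0 → t.unpair.2.unpair.2.unpair.2 = f t.unpair.2.unpair.2.unpair.1
    then 0 else 1
  have hc : ∀ N m v, c N (Nat.pair m v) = 0 ↔
      (v.unpair.1 = 0 → v.unpair.2.unpair.2 = f v.unpair.2.unpair.1) := by
    intro N m v
    simp only [c, Nat.unpair_pair]
    by_cases hh : (v.unpair.1 = 0 → v.unpair.2.unpair.2 = f v.unpair.2.unpair.1)
    · simp
    · simp only [if_neg hh, one_ne_zero, false_iff]; exact hh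
  have hcop : ∀ (y : ℕ → ℕ) (a N : ℕ) (b : ℕ) (g : ℕ → ℕ), (b = 0 → g = f) →
      Resp (c N) a (app (seg y a) (tg b g)) := by
    intro y a N b g hbg m hm
    obtain ⟨i, rfl⟩ : ∃ i, m = (seg y a).length + i := ⟨m - a, by simp; omega⟩
    rw [app_add, hc N]
    simp only [tg, Nat.unpair_pair]
    intro hb0
    rw [hbg hb0]
  have hsegapp : ∀ (y : ℕ → ℕ) (a : ℕ) (g : ℕ → ℕ), seg (app (seg y a) g) a = seg y a := by
    intro y a g
    have := seg_app (seg y a) g
    rwa [seg_length] at this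
  obtain ⟨x, hx1, hx2⟩ := exists_generic c
    (fun N m => ⟨Nat.pair 1 0, (hc N m _).2 (by simp)⟩) (fun N m v hh => hh)
    (fun k => if k.unpair.1 = 0 then {x | ∃ n, k.unpair.2 ≤ n ∧ Ans Ψ (seg x n) = some 0}
      else if k.unpair.1 = 1 then {x | ∃ n, k.unpair.2 ≤ n ∧ Ans Ψ (seg x n) = some 1}
      else {x | ∃ m, k.unpair.2.unpair.1 ≤ m ∧ x m = tg 0 f k.unpair.2.unpair.2}) (by
      intro k y a N
      split_ifs with h0 h1
      · obtain ⟨n, hn1, hn2, hn3⟩ := ((hA0 (seg y a)).and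
          ((eventually_ge_atTop k.unpair.2).and (eventually_ge_atTop a))).exists
        refine ⟨app (seg y a) (tg 0 f), n, hn3, hsegapp y a _, hcop y a N 0 f (fun _ => rfl),
          fun x hx _ => ⟨n, hn2, by rw [hx]; exact hn1⟩⟩
      · obtain ⟨n, hn1, hn2, hn3⟩ := ((hA1 (seg y a)).and
          ((eventually_ge_atTop k.unpair.2).and (eventually_ge_atTop a))).exists
        refine ⟨app (seg y a) (tg 1 f'), n, hn3, hsegapp y a _, hcop y a N 1 f' (by simp),
          fun x hx _ => ⟨n, hn2, by rw [hx]; exact hn1⟩⟩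
      · -- put the symbol after enough padding
        set M := k.unpair.2.unpair.1
        set n := k.unpair.2.unpair.2
        let g : ℕ → ℕ := fun i => if i = M then tg 0 f n else Nat.pair 1 0
        refine ⟨app (seg y a) g, a + M + 1, by omega, hsegapp y a _, ?_, ?_⟩
        · intro m hm
          obtain ⟨i, rfl⟩ : ∃ i, m = (seg y a).length + i := ⟨m - a, by simp; omega⟩
          rw [app_add, hc N]
          simp only [g]
          split_ifs <;> simp [tg]
        · intro x hx _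
          refine ⟨a + M, by omega, ?_⟩
          have h3 := congrArg (fun l => l[a + M]?) hx
          simp only [seg_getElem?_of_lt (show a + M < a + M + 1 by omega)] at h3
          have h4 := app_add (seg y a) g M
          rw [seg_length] at h4
          rw [Option.some.inj h3, h4]
          simp [g])
  have hfx : TLe f x := by
    obtain ⟨M, hM⟩ := eventually_atTop.1 (hx1 0)
    refine TLe_of_tags (M := M) (fun m hm => (hc 0 m (x m)).1 (hM m hm)) fun n => ?_
    have := hx2 (Nat.pair 2 (Nat.pair M n))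
    simpa using this
  obtain ⟨p, hp, hI⟩ := H x (Or.inl hfx)
  obtain ⟨N, hN⟩ := eventually_atTop.1 (ident_ans hI)
  have h0 := hx2 (Nat.pair 0 N)
  have h1 := hx2 (Nat.pair 1 N)
  simp only [Nat.unpair_pair, if_true, one_ne_zero, if_false, Set.mem_ofPred_eq] at h0 h1
  obtain ⟨n, hn, hn'⟩ := h0
  obtain ⟨m, hm, hm'⟩ := h1
  rw [hN n hn] at hn'
  rw [hN m hm, hn'] at hm'
  simp at hm'

end Pool.Agent.LearnDeg
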