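import Pool.Agent.LearnDeg.Trace
import Pool.Agent.LearnDeg.T45
import Pool.Agent.LearnDeg.T1

/-!
# The third sentence
-/

namespace Pool.Agent.LearnDeg

open Filter Encodable

/-! ### Falsity -/

/-- The index of the map sending `n`, the join of the columns and `g` to the join of the `n`-th
column and `g`. -/
theorem exists_colIx : ∃ c : ℕ, ∀ (y : ℕ → ℕ → ℕ) (g : ℕ → ℕ) (n : ℕ),
    Phi c (cons n (join (columns y) g)) = (join (y n) g : ℕ → ℕ) := by
  obtain ⟨c, hc⟩ := exists_index_of_search (fun σ i => (σ[0]?).bind fun n =>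
    (σ[Nat.pair n i + 1]?).bind fun a => (σ[i + 1]?).map fun b =>
      Nat.pair a.unpair.1 b.unpair.2) (by
    refine Primrec.to_comp ?_
    refine Primrec.option_bind (Primrec.list_getElem?.comp Primrec.fst (Primrec.const 0)) ?_
    refine Primrec.option_bind (Primrec.list_getElem?.comp (Primrec.fst.comp Primrec.fst)
      (Primrec.succ.comp (Primrec₂.natPair.comp Primrec.snd (Primrec.snd.comp Primrec.fst)))) ?_
    refine Primrec.option_map (Primrec.list_getElem?.comp
      (Primrec.fst.comp (Primrec.fst.comp Primrec.fst))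
      (Primrec.succ.comp (Primrec.snd.comp (Primrec.fst.comp Primrec.fst)))) ?_
    exact Primrec₂.natPair.comp (Primrec.fst.comp (Primrec.unpair.comp
      (Primrec.snd.comp Primrec.fst))) (Primrec.snd.comp (Primrec.unpair.comp Primrec.snd)))
  refine ⟨c, fun y g n => hc _ _ ?_ ?_⟩
  · intro i t k hk
    simp only [Option.bind_eq_some_iff, Option.map_eq_some_iff, seg_getElem?] at hk
    obtain ⟨n', h1, a, h2, b, h3, h4⟩ := hk
    split_ifs at h1 h2 h3
    have h1' : n = n' := Option.some.inj h1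
    subst h1'
    have h2' : join (columns y) g (Nat.pair n i) = a := Option.some.inj h2
    have h3' : join (columns y) g i = b := Option.some.inj h3
    rw [← h4, ← h2', ← h3']
    simp [join, columns]
  · intro i
    refine ⟨Nat.pair n i + i + 2, ?_⟩
    rw [seg_getElem?_of_lt (by omega)]
    simp only [Option.bind_some, cons_zero]
    rw [seg_getElem?_of_lt (by omega), seg_getElem?_of_lt (by omega)]
    simp

theorem not_T3 {𝓡 : Set Rl} (h : Sub 𝓡 (FU R1)) : ¬ T3 𝓡 := by
  classical
  intro hT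
  obtain ⟨f, hf⟩ := exists_antichain
  have hf' : ∀ i j, TLe (f i) (f j) → i = j := fun i j hij => by
    by_contra hne
    exact hf i j hne hij
  have hfm : ∀ n, f n ∈ mins (Set.range f) := fun n =>
    (mins_range hf').2 ⟨n, TLe.refl _, TLe.refl _⟩
  obtain ⟨v, hv⟩ := exists_upper (Set.countable_range f)
  obtain ⟨T, hTlow, H⟩ := hT (Set.range f) ⟨v, by
    intro g hg
    obtain ⟨n, _, h2⟩ := (mins_range hf').1 hg
    exact h2.trans (hv _ ⟨n, rfl⟩)⟩
  choose y hyT hyf using fun n => hTlow (f n) (hfm n)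
  obtain ⟨z, hz⟩ := exists_notMem_of_countable (countable_lower (columns y))
  obtain ⟨g, hnice, hzg, hR⟩ := H (columns y) z hz
    {x | ∃ n, x = cons (encode (seg z n)) (f n)} (by
      intro g hg
      obtain ⟨n, h1, _⟩ := (mins_range hf').1 hg
      exact ⟨_, ⟨n, rfl⟩, (TLe.cons _ _).trans h1⟩)
  apply hzg
  obtain ⟨_, ⟨S, ⟨hS, hS'⟩, rfl⟩, hred⟩ := RR.mono h hR
  obtain ⟨c, hc⟩ := exists_colIx
  obtain ⟨s, _, hs⟩ := exists_cmp
  have : ∃ E : Rl → ℕ, ∀ r ∈ S, r = fun (g f : ℕ → ℕ) => Phi (E r) g = f := by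
    choose! E hE using hS'
    exact ⟨E, fun r hr => hE hr⟩
  obtain ⟨E, hE⟩ := this
  refine TLe_of_trace ((hS.image fun r => s c (E r)).toFinset) fun n => ?_
  obtain ⟨h', ⟨m, rfl⟩, r, hr, hrel⟩ := hred (join (y n) g) ⟨y n, hyT n, g, rfl, rfl⟩
  rw [hE r hr] at hrel
  have hmn : m = n := by
    by_contra hne
    refine hnice (f n) (hfm n) (f m) (hfm m) (hf m n hne) ?_
    exact (TLe.of_cons _ _).trans (TLe.trans ⟨_, hrel⟩
      (TLe.join_le_join (hyf n) (TLe.refl _)))
  subst hmn
  obtain ⟨t, ht⟩ := Phi_eq_iff.1 (hs _ _ _ _ _ (hc y g m) hrel) 0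
  refine ⟨s c (E r), ?_, t, ht⟩
  rw [Set.Finite.mem_toFinset]
  exact ⟨r, hr, rfl⟩

/-! ### Truth -/

/-- Constraint of the limit coding of `e`. -/
def clim (e : ℕ → ℕ) (N : ℕ) (t : ℕ) : ℕ :=
  ((((List.range N).map e)[t.unpair.1.unpair.1]?).map
    fun w => if t.unpair.2 = w then 0 else 1).getD 0

theorem clim_eq_zero {e : ℕ → ℕ} {N m v : ℕ} :
    clim e N (Nat.pair m v) = 0 ↔ (m.unpair.1 < N → v = e m.unpair.1) := by
  have h1 : ((List.range N).map e)[m.unpair.1]? = if m.unpair.1 < N then some (e m.unpair.1)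
      else none := seg_getElem? e N m.unpair.1
  unfold clim
  simp only [Nat.unpair_pair, h1]
  by_cases h : m.unpair.1 < N
  · by_cases h2 : v = e m.unpair.1 <;> simp [h, h2]
  · simp [h]

theorem computable_clim (e : ℕ → ℕ) (N : ℕ) : Computable (clim e N) := by
  refine Primrec.to_comp ?_
  unfold clim
  have a1 : Primrec fun t : ℕ => t.unpair.1.unpair.1 :=
    Primrec.fst.comp (Primrec.unpair.comp (Primrec.fst.comp Primrec.unpair))
  have a2 : Primrec₂ fun (t w : ℕ) => if t.unpair.2 = w then 0 else 1 :=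
    Primrec.ite (Primrec.eq.comp (Primrec.snd.comp (Primrec.unpair.comp Primrec.fst)) Primrec.snd)
      (Primrec.const 0) (Primrec.const 1)
  exact Primrec.option_getD.comp (Primrec.option_map
    (Primrec.list_getElem?.comp (Primrec.const _) a1) a2) (Primrec.const 0)

/-- Last value of the second component at a place coding `n`. -/
def lv (σ : List ℕ) (n : ℕ) : ℕ → ℕ
  | 0 => 0
  | k + 1 => if k.unpair.1 = n then (σ.getD k 0).unpair.2 else lv σ n k

theorem primrec_lv : Primrec₂ fun (σ : List ℕ) (n : ℕ) => lv σ n σ.length := by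
  have h : Primrec₂ fun (p : List ℕ × ℕ) (q : ℕ × ℕ) =>
      if q.1.unpair.1 = p.2 then (p.1.getD q.1 0).unpair.2 else q.2 := by
    refine Primrec.ite (Primrec.eq.comp (Primrec.fst.comp (Primrec.unpair.comp
      (Primrec.fst.comp Primrec.snd))) (Primrec.snd.comp Primrec.fst)) ?_
      (Primrec.snd.comp Primrec.snd)
    exact Primrec.snd.comp (Primrec.unpair.comp ((Primrec.list_getD 0).comp
      (Primrec.fst.comp Primrec.fst) (Primrec.fst.comp Primrec.snd)))
  refine (Primrec.nat_rec' (f := fun p : List ℕ × ℕ => p.1.length)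
    (Primrec.list_length.comp Primrec.fst) (Primrec.const 0) h).of_eq ?_
  rintro ⟨σ, n⟩
  show _ = lv σ n σ.length
  generalize σ.length = k
  induction k with
  | zero => rfl
  | succ k ih => simp only [lv]; rw [← ih]

theorem lv_seg {X Y : ℕ → ℕ} {n w M : ℕ}
    (h : ∀ m, M ≤ m → m.unpair.1 = n → Y m = w) (t k : ℕ) (hk : k ≤ t)
    (hk' : Nat.pair n M < k) : lv (seg (join X Y) t) n k = w := by
  have hgetD : ∀ i < t, ((seg (join X Y) t).getD i 0).unpair.2 = Y i := by
    intro i hi
    rw [List.getD_eq_getElem?_getD, seg_getElem?_of_lt hi]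
    simp [join]
  induction k with
  | zero => omega
  | succ k ih =>
    simp only [lv]
    split_ifs with h1
    · rw [hgetD k (by omega)]
      refine h k ?_ h1
      by_contra hlt
      push Not at hlt
      rcases Nat.lt_succ_iff_lt_or_eq.1 hk' with h2 | h2
      · have := Nat.right_le_pair n M
        omega
      · have := Nat.right_le_pair n M
        omega
    · rcases Nat.lt_succ_iff_lt_or_eq.1 hk' with h2 | h2
      · exact ih (by omega) h2
      · exfalso
        apply h1
        rw [← h2]; simp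

theorem T3_of_sub {𝓡 : Set Rl} (h : Sub (RL L4) 𝓡) : T3 𝓡 := by
  classical
  rintro P ⟨v, hv⟩
  have hcount : (mins P).Countable := (countable_lower v).mono fun f hf => hv f hf
  rcases (mins P).eq_empty_or_nonempty with hemp | hne
  · refine ⟨∅, by simp [hemp], fun u z hzu Q _ => ⟨fun _ => 0, by simp [hemp], ?_, ?_⟩⟩
    · intro hcon
      exact hzu (hcon.trans (TLe.join (TLe.refl _) (TLe.of_computable (Computable.const 0) _)))
    · obtain ⟨T, hT, _⟩ := h (Ident fun _ => 0) ⟨_, Computable.const 0, rfl⟩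
      refine ⟨T, hT, ?_⟩
      rintro _ ⟨_, h0, _⟩
      exact absurd h0 (Set.notMem_empty _)
  · obtain ⟨F, hF⟩ := hcount.exists_eq_range hne
    have hFm : ∀ n, F n ∈ mins P := fun n => hF ▸ Set.mem_range_self n
    refine ⟨{x | ∃ n, x = cons n (F n)}, ?_, ?_⟩
    · intro f hf
      obtain ⟨n, rfl⟩ : f ∈ Set.range F := hF ▸ hf
      exact ⟨_, ⟨n, rfl⟩, TLe.cons _ _⟩
    · intro u z hzu Q hQ
      choose q hqQ hq using fun n => hQ (F n) (hFm n)
      choose e he using hq
      -- the pairs to be kept apart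
      let W : Set ((ℕ → ℕ) × (ℕ → ℕ)) :=
        insert (z, u) {p | p.1 ∈ mins P ∧ p.2 ∈ mins P ∧ ¬ TLe p.1 p.2}
      have hW : W.Countable := by
        refine Set.Countable.insert _ ((hcount.prod hcount).mono ?_)
        rintro ⟨a, b⟩ ⟨h1, h2, _⟩
        exact ⟨h1, h2⟩
      have hW' : ∀ p ∈ W, ¬ TLe p.1 p.2 := by
        rintro p (rfl | hp)
        exacts [hzu, hp.2.2]
      obtain ⟨R, hR⟩ := hW.exists_eq_range (Set.insert_nonempty _ _)
      obtain ⟨g, hg1, hg2⟩ := exists_avoid (clim e)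
        (fun N m => ⟨e m.unpair.1, clim_eq_zero.2 fun _ => rfl⟩)
        (fun N m v h => clim_eq_zero.2 fun h' => clim_eq_zero.1 h (by omega))
        (fun j => (R j).1) (fun j => (R j).2) (by
          intro j N hcon
          have h1 : R j ∈ W := hR ▸ Set.mem_range_self j
          exact hW' _ h1 (hcon.trans (TLe.join (TLe.refl _)
            (TLe.of_computable (computable_clim e N) _))))
      have hg3 : ∀ p ∈ W, ¬ TLe p.1 (join p.2 g) := by
        intro p hp
        obtain ⟨j, rfl⟩ : p ∈ Set.range R := hR ▸ hp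
        exact hg2 j
      refine ⟨g, ?_, hg3 (z, u) (Set.mem_insert _ _), RR.mono h ?_⟩
      · intro f hf f' hf' hnle
        exact hg3 (f', f) (Set.mem_insert_of_mem _ ⟨hf', hf, hnle⟩)
      · -- the learner
        obtain ⟨s, hs, H⟩ := exists_cmp
        obtain ⟨E0, hE0⟩ : ∃ E0 : ℕ, ∀ (n : ℕ) (f g : ℕ → ℕ), Phi E0 (join (cons n f) g) = f := by
          obtain ⟨a, ha⟩ := exists_fstIx
          obtain ⟨t, _, ht⟩ := exists_tl
          obtain ⟨i, hi⟩ := exists_idIx
          exact ⟨s a (t i), fun n f g => H _ _ _ _ _ (ha _ _) (ht _ _ _ _ (hi f))⟩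
        let Ψ : List ℕ → ℕ := fun σ => s E0 (lv σ σ.headI.unpair.1 σ.length)
        have hΨ : Computable Ψ := by
          refine hs.comp (Computable.const E0) (Primrec.to_comp ?_)
          exact primrec_lv.comp Primrec.id
            (Primrec.fst.comp (Primrec.unpair.comp Primrec.list_headI))
        refine ⟨_, ⟨Ψ, hΨ, rfl⟩, ?_⟩
        rintro _ ⟨_, ⟨n, rfl⟩, g', hg', rfl⟩
        rw [Set.mem_singleton_iff.1 hg']
        refine ⟨q n, hqQ n, s E0 (e n), ?_, H _ _ _ _ _ (hE0 n (F n) g) (he n)⟩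
        obtain ⟨M, hM⟩ := eventually_atTop.1 (hg1 (n + 1))
        filter_upwards [eventually_gt_atTop (Nat.pair n M)] with t ht
        have hhead : (seg (join (cons n (F n)) g) t).headI.unpair.1 = n := by
          obtain ⟨t', rfl⟩ : ∃ t', t = t' + 1 := ⟨t - 1, by omega⟩
          simp [seg, List.range_succ_eq_map, join]
        simp only [Ψ, hhead, seg_length]
        rw [lv_seg (w := e n) (M := M) ?_ t t le_rfl ht]
        intro m hm hmn
        have := clim_eq_zero.1 (hM m hm) (by omega)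
        rw [this, hmn]

end Pool.Agent.LearnDeg
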