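import Pool.Agent.LearnDeg.T2
import Pool.Agent.LearnDeg.T3
import Pool.Agent.LearnDeg.Accept

/-!
# The seven degree structures are pairwise not elementarily equivalent
-/

namespace Pool.Agent.LearnDeg

open FirstOrder

/-- The families of relations belonging to the classes. -/
def fams : Fin 7 → Set Rl := ![R1, RL L2, RL L3, RL L4, FU R1, FU (RL L4), R7]

theorem red_classes (i : Fin 7) (P Q : Set (ℕ → ℕ)) :
    Red (classes Phi i) P Q ↔ RR (fams i) P Q := by
  fin_cases i
  · exact red_one P Q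
  · exact red_two P Q
  · exact red_three P Q
  · exact red_four P Q
  · exact red_five P Q
  · exact red_six P Q
  · exact red_seven P Q

theorem good_fams (i : Fin 7) : Good (fams i) := by
  fin_cases i
  · exact good_R1
  · exact good_R2
  · exact good_R3
  · exact good_R4
  · exact good_FU good_R1
  · exact good_FU good_R4
  · exact good_R7

theorem sd_fams (i : Fin 7) : SD (fams i) := by
  fin_cases i
  · exact fun A h => single_of_solv good_R1 CF_R1 h
  · exact fun A h => single_of_solv good_R2 (CF_RL fun _ h => h.1) h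
  · exact fun A h => single_of_solv good_R3 (CF_RL fun _ h => h.1) h
  · exact fun A h => single_of_solv good_R4 (CF_RL subset_rfl) h
  · exact fun A h => single_of_solv (good_FU good_R1) (CF_FU CF_R1) h
  · exact fun A h => single_of_solv (good_FU good_R4) (CF_FU (CF_RL subset_rfl)) h
  · exact fun A h => single_of_solv_R7 h

theorem red_eq (i : Fin 7) : Red (classes Phi i) = RR (fams i) := by
  funext P Q
  exact propext (red_classes i P Q)

theorem red_refl (i : Fin 7) (P : Set (ℕ → ℕ)) : Red (classes Phi i) P P := by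
  rw [red_eq]; exact (good_fams i).refl P

theorem red_trans (i : Fin 7) (P Q R : Set (ℕ → ℕ)) (h : Red (classes Phi i) P Q)
    (h' : Red (classes Phi i) Q R) : Red (classes Phi i) P R := by
  rw [red_eq] at h h' ⊢; exact (good_fams i).trans h h'

/-- Elementarily equivalent structures agree on the five sentences. -/
theorem agree {i j : Fin 7}
    (h : Language.order.ElementarilyEquivalent (Deg (classes Phi i)) (Deg (classes Phi j))) :
    (T1 (fams i) ↔ T1 (fams j)) ∧ (T2 (fams i) ↔ T2 (fams j)) ∧ (T3 (fams i) ↔ T3 (fams j)) ∧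
      (T4 (fams i) ↔ T4 (fams j)) ∧ (T5 (fams i) ↔ T5 (fams j)) := by
  have := ee_iff (red_refl i) (red_trans i) (red_refl j) (red_trans j) h
  simp only [red_eq] at this
  rwa [s1_iff (good_fams i) (sd_fams i), s1_iff (good_fams j) (sd_fams j),
    s2_iff (good_fams i) (sd_fams i), s2_iff (good_fams j) (sd_fams j),
    s3_iff (good_fams i) (sd_fams i), s3_iff (good_fams j) (sd_fams j),
    s4_iff (good_fams i) (sd_fams i), s4_iff (good_fams j) (sd_fams j),
    s5_iff (good_fams i) (sd_fams i), s5_iff (good_fams j) (sd_fams j)] at this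

theorem sub_R1_R4 : Sub R1 (RL L4) := sub_R1_R2.trans (sub_RL fun _ h => h.1)

theorem sub_R3_R6 : Sub (RL L3) (FU (RL L4)) := sub_R3_R4.trans sub_FU

theorem sub_R5_R6 : Sub (FU R1) (FU (RL L4)) := sub_FU_FU sub_R1_R4

/-! Truth values. -/

theorem t1_0 : ¬ T1 (fams 0) := not_T1 (Sub.refl _)
theorem t1_1 : T1 (fams 1) := T1_of_sub (Sub.refl _)

theorem t2_0 : ¬ T2 (fams 0) := not_T2 sub_R1_R2
theorem t2_1 : ¬ T2 (fams 1) := not_T2 (Sub.refl _)
theorem t2_2 : T2 (fams 2) := T2_of_sub (Sub.refl _)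
theorem t2_3 : T2 (fams 3) := T2_of_sub sub_R3_R4
theorem t2_4 : T2 (fams 4) := T2_of_sub sub_R3_R5
theorem t2_5 : T2 (fams 5) := T2_of_sub sub_R3_R6
theorem t2_6 : T2 (fams 6) := T2_of_sub (sub_R7 good_R3)

theorem t3_2 : ¬ T3 (fams 2) := not_T3 sub_R3_R5
theorem t3_3 : T3 (fams 3) := T3_of_sub (Sub.refl _)
theorem t3_4 : ¬ T3 (fams 4) := not_T3 (Sub.refl _)
theorem t3_5 : T3 (fams 5) := T3_of_sub sub_FU
theorem t3_6 : T3 (fams 6) := T3_of_sub (sub_R7 good_R4)

theorem t4_2 : ¬ T4 (fams 2) := not_T4 sub_R3_R4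
theorem t4_3 : ¬ T4 (fams 3) := not_T4 (Sub.refl _)
theorem t4_4 : T4 (fams 4) := T4_of_sub (Sub.refl _)
theorem t4_5 : T4 (fams 5) := T4_of_sub sub_R5_R6
theorem t4_6 : T4 (fams 6) := T4_of_sub (sub_R7 (good_FU good_R1))

theorem t5_5 : ¬ T5 (fams 5) := not_T5 (good_FU good_R4) (CF_FU (CF_RL subset_rfl))
theorem t5_6 : T5 (fams 6) := T5_R7

theorem not_ee_of_lt {i j : Fin 7} (hij : i < j) :
    ¬ Language.order.ElementarilyEquivalent (Deg (classes Phi i)) (Deg (classes Phi j)) := by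
  intro h
  obtain ⟨h1, h2, h3, h4, h5⟩ := agree h
  fin_cases i <;> fin_cases j <;> first
    | exact absurd hij (by decide)
    | exact t1_0 (h1.2 t1_1)
    | exact t2_0 (h2.2 t2_2)
    | exact t2_0 (h2.2 t2_3)
    | exact t2_0 (h2.2 t2_4)
    | exact t2_0 (h2.2 t2_5)
    | exact t2_0 (h2.2 t2_6)
    | exact t2_1 (h2.2 t2_2)
    | exact t2_1 (h2.2 t2_3)
    | exact t2_1 (h2.2 t2_4)
    | exact t2_1 (h2.2 t2_5)
    | exact t2_1 (h2.2 t2_6)
    | exact t3_2 (h3.2 t3_3)
    | exact t4_2 (h4.2 t4_4)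
    | exact t3_2 (h3.2 t3_5)
    | exact t3_2 (h3.2 t3_6)
    | exact t4_3 (h4.2 t4_4)
    | exact t4_3 (h4.2 t4_5)
    | exact t4_3 (h4.2 t4_6)
    | exact t3_4 (h3.2 t3_5)
    | exact t3_4 (h3.2 t3_6)
    | exact t5_5 (h5.2 t5_6)

theorem main : (∃ Φ, Acceptable Φ) ∧ ∀ Φ, Acceptable Φ →
    (∀ i, (∀ P, Red (classes Φ i) P P) ∧
      ∀ P Q R, Red (classes Φ i) P Q → Red (classes Φ i) Q R → Red (classes Φ i) P R) ∧
    ∀ i j, i ≠ j →
      ¬ Language.order.ElementarilyEquivalent (Deg (classes Φ i)) (Deg (classes Φ j)) := by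
  refine ⟨⟨Phi, acceptable_Phi⟩, fun Φ hΦ => ⟨fun i => ?_, fun i j hij => ?_⟩⟩
  · rw [classes_eq hΦ i]
    exact ⟨red_refl i, red_trans i⟩
  · rw [classes_eq hΦ i, classes_eq hΦ j]
    intro h
    rcases lt_or_gt_of_ne hij with hlt | hgt
    · exact not_ee_of_lt hlt h
    · exact not_ee_of_lt hgt h.symm

end Pool.Agent.LearnDeg
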