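import Pool.Agent.LearnDeg.Classes
import Pool.Agent.LearnDeg.Form

/-!
# The degrees of singletons are the ones with a strong successor
-/

namespace Pool.Agent.LearnDeg

open Filter Encodable

theorem solv_of_single {𝓡 : Set Rl} (hG : Good 𝓡) {A : Set (ℕ → ℕ)} {f : ℕ → ℕ}
    (h1 : RR 𝓡 A {f}) (h2 : RR 𝓡 {f} A) : SolvP (RR 𝓡) A := by
  refine ⟨{x | ∃ g, ¬ TLe g f ∧ x = join f g}, ⟨?_, ?_⟩, ?_⟩
  · refine hG.trans h1 ?_
    obtain ⟨e, he⟩ := exists_fstIx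
    refine hG.of_index e ?_
    rintro _ ⟨g, _, rfl⟩
    exact ⟨f, rfl, he f g⟩
  · intro h
    obtain ⟨_, ⟨g, hg, rfl⟩, hx⟩ := hG.le_single.1 (hG.trans h h1)
    exact hg ((TLe.right f g).trans hx)
  · rintro C ⟨h3, h4⟩
    have h5 : ∀ c ∈ C, ¬ TLe c f := by
      intro c hc hcf
      exact h4 (hG.trans (hG.le_single.2 ⟨c, hc, hcf⟩) h2)
    have h6 : RR 𝓡 (jn {f} C) C := hG.jn_le (hG.trans h2 h3) (hG.refl C)
    refine hG.trans (hG.of_subset ?_) h6
    rintro _ ⟨f', rfl, c, hc, rfl⟩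
    exact ⟨c, h5 c hc, rfl⟩

theorem exists_caseIx (a : ℕ) : ∃ e : ℕ, ∀ x : ℕ → ℕ,
    (x 0 = a → Phi e x = cons 0 x) ∧ (x 0 ≠ a → Phi e x = cons 1 x) := by
  obtain ⟨e, he⟩ := exists_index_of_search (fun σ n =>
    if σ = [] then none else ((if σ.headI = a then 0 else 1) :: σ)[n]?) (by
    refine Primrec.to_comp ?_
    refine Primrec.ite (Primrec.eq.comp Primrec.fst (Primrec.const [])) (Primrec.const none) ?_
    refine Primrec.list_getElem?.comp (Primrec.list_cons.comp ?_ Primrec.fst) Primrec.snd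
    exact Primrec.ite (Primrec.eq.comp (Primrec.list_headI.comp Primrec.fst) (Primrec.const a))
      (Primrec.const 0) (Primrec.const 1))
  have key : ∀ (x : ℕ → ℕ) (c : ℕ), (c = if x 0 = a then 0 else 1) → Phi e x = cons c x := by
    intro x c hc
    have hh : ∀ t, ((if (seg x (t + 1)).headI = a then 0 else 1) :: seg x (t + 1)) =
        seg (cons c x) (t + 2) := by
      intro t
      have : (seg x (t + 1)).headI = x 0 := by
        simp [seg, List.range_succ_eq_map]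
      rw [seg_cons, this, hc]
    refine he x (cons c x) ?_ ?_
    · intro n t k hk
      cases t with
      | zero => simp at hk
      | succ t =>
        simp only [hh] at hk
        rw [if_neg (by intro h; have := congrArg List.length h; simp at this), seg_getElem?] at hk
        split_ifs at hk
        exact (Option.some.inj hk).symm
    · intro n
      refine ⟨n + 1, ?_⟩
      simp only [hh]
      rw [if_neg (by intro h; have := congrArg List.length h; simp at this),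
        seg_getElem?_of_lt (by omega)]
      simp
  exact ⟨e, fun x => ⟨fun h => key x 0 (by simp [h]), fun h => key x 1 (by simp [h])⟩⟩

theorem Good.mt_le_union {𝓡 : Set Rl} (hG : Good 𝓡) {P Q : Set (ℕ → ℕ)} (a : ℕ)
    (hP : ∀ x ∈ P, x 0 = a) (hQ : ∀ x ∈ Q, x 0 ≠ a) : RR 𝓡 (mt P Q) (P ∪ Q) := by
  obtain ⟨e, he⟩ := exists_caseIx a
  refine hG.of_index e ?_
  rintro x (hx | hx)
  · exact ⟨_, Or.inl ⟨x, hx, rfl⟩, (he x).1 (hP x hx)⟩
  · exact ⟨_, Or.inr ⟨x, hx, rfl⟩, (he x).2 (hQ x hx)⟩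

theorem Good.le_finite {𝓡 : Set Rl} (hG : Good 𝓡) {B D : Set (ℕ → ℕ)} (hD : D.Finite)
    (hinj : Set.InjOn (fun d : ℕ → ℕ => d 0) D) (h : ∀ d ∈ D, RR 𝓡 B {d}) : RR 𝓡 B D := by
  induction D, hD using Set.Finite.induction_on with
  | empty => exact hG.of_index 0 (by simp)
  | @insert d D hd _ ih =>
    have h1 : RR 𝓡 B D := ih (hinj.mono (Set.subset_insert _ _))
      (fun x hx => h x (Set.mem_insert_of_mem _ hx))
    have h2 : RR 𝓡 B {d} := h d (Set.mem_insert _ _)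
    refine hG.trans (hG.le_mt h2 h1) ?_
    rw [Set.insert_eq]
    refine hG.mt_le_union (d 0) (by simp) ?_
    intro x hx hxd
    have := hinj (Set.mem_insert_of_mem _ hx) (Set.mem_insert _ _) hxd
    exact hd (this ▸ hx)

theorem single_of_solv {𝓡 : Set Rl} (hG : Good 𝓡) (hc : CF 𝓡) {A : Set (ℕ → ℕ)}
    (h : SolvP (RR 𝓡) A) : ∃ f, RR 𝓡 A {f} ∧ RR 𝓡 {f} A := by
  classical
  by_contra hno
  push Not at hno
  obtain ⟨B, ⟨hAB, hBA⟩, hB⟩ := h
  have hBf : ∀ f ∈ A, RR 𝓡 B {f} := by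
    intro f hf
    have h1 : RR 𝓡 A {f} := hG.of_subset (by simpa using hf)
    exact hB {f} ⟨h1, hno f h1⟩
  have hBc : ∀ n, ∀ f ∈ A, RR 𝓡 B {cons n f} := fun n f hf =>
    hG.trans (hBf f hf) (hG.single_single.2 (TLe.of_cons n f))
  have hne : 𝓡.Nonempty := by
    obtain ⟨T, hT, _⟩ := hG.index 0
    exact ⟨T, hT⟩
  obtain ⟨O, hO⟩ := hc.1.exists_eq_range hne
  have hO' : ∀ e, O e ∈ 𝓡 := fun e => hO ▸ Set.mem_range_self e
  let Inv : Set (ℕ → ℕ) × Set (ℕ → ℕ) → Prop := fun p =>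
    p.1.Finite ∧ p.2.Finite ∧ Set.InjOn (fun d : ℕ → ℕ => d 0) p.1 ∧
      (∀ d ∈ p.1, ∃ n, ∃ f ∈ A, d = cons n f) ∧ ∀ d ∈ p.1, d ∉ p.2
  have step : ∀ e p, Inv p → ∃ p', Inv p' ∧ p.1 ⊆ p'.1 ∧ p.2 ⊆ p'.2 ∧
      (∃ f ∈ A, ∃ h ∈ p'.1, ∀ y ∈ B, ¬ O e (join f h) y) ∧
      (∃ f ∈ A, ∀ y, O e f y → y ∈ p'.2) := by
    rintro e ⟨D, G⟩ ⟨hD, hGf, hinj, hform, hdis⟩
    simp only at hD hGf hinj hform hdis
    -- a fresh first coordinate
    obtain ⟨n, hn⟩ : ∃ n, n ∉ (fun d : ℕ → ℕ => d 0) '' (D ∪ G) :=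
      ((hD.union hGf).image _).exists_notMem
    have hn1 : ∀ x ∈ D ∪ G, x 0 ≠ n := fun x hx hxn => hn ⟨x, hx, hxn⟩
    obtain ⟨f, hfA, hf⟩ : ∃ f ∈ A, ∀ y ∈ B, ¬ O e (join f (cons n f)) y := by
      by_contra hcon
      push Not at hcon
      apply hBA
      have h1 : RR 𝓡 B {x | ∃ f ∈ A, x = join f (cons n f)} := by
        refine ⟨O e, hO' e, ?_⟩
        rintro _ ⟨f, hf, rfl⟩
        exact hcon f hf
      refine hG.trans h1 ?_
      obtain ⟨s, _, H⟩ := exists_pr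
      obtain ⟨i, hi⟩ := exists_idIx
      obtain ⟨c, _, hc'⟩ := exists_consIx
      exact hG.of_index (s i (c n)) fun f hf => ⟨_, ⟨f, hf, rfl⟩, H _ _ _ _ _ (hi f) (hc' n f)⟩
    set D' := insert (cons n f) D with hD'
    have hD'f : D'.Finite := hD.insert _
    have hinj' : Set.InjOn (fun d : ℕ → ℕ => d 0) D' := by
      intro x hx y hy hxy
      simp only at hxy
      rcases hx with rfl | hx <;> rcases hy with rfl | hy
      · rfl
      · exact absurd hxy.symm (hn1 y (Or.inl hy))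
      · exact absurd hxy (hn1 x (Or.inl hx))
      · exact hinj hx hy hxy
    have hform' : ∀ d ∈ D', ∃ n, ∃ f ∈ A, d = cons n f := by
      rintro d (rfl | hd)
      · exact ⟨n, f, hfA, rfl⟩
      · exact hform d hd
    have hnot : ¬ RR 𝓡 D' A := by
      intro hcon
      apply hBA
      refine hG.trans (hG.le_finite hD'f hinj' ?_) hcon
      intro d hd
      obtain ⟨n, f, hf, rfl⟩ := hform' d hd
      exact hBc n f hf
    obtain ⟨f', hf'A, hf'⟩ : ∃ f' ∈ A, ∀ y ∈ D', ¬ O e f' y := by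
      by_contra hcon
      push Not at hcon
      exact hnot ⟨O e, hO' e, hcon⟩
    refine ⟨(D', G ∪ {y | O e f' y}), ⟨hD'f, hGf.union (hc.2 _ (hO' e) f'), hinj', hform', ?_⟩,
      Set.subset_insert _ _, Set.subset_union_left, ⟨f, hfA, cons n f, Set.mem_insert _ _, hf⟩,
      ⟨f', hf'A, fun y hy => Or.inr hy⟩⟩
    intro d hd hd'
    simp only at hd hd'
    rcases hd' with hd' | hd'
    · rcases hd with rfl | hd
      · exact hn1 _ (Or.inr hd') rfl
      · exact hdis d hd hd'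
    · exact hf' d hd hd'
  choose! F hF using step
  let p : ℕ → Set (ℕ → ℕ) × Set (ℕ → ℕ) := fun n => Nat.rec (∅, ∅) (fun e q => F e q) n
  have hp0 : Inv (p 0) := by
    refine ⟨Set.finite_empty, Set.finite_empty, ?_, ?_, ?_⟩ <;> simp [p]
  have hp : ∀ n, Inv (p n) := by
    intro n
    induction n with
    | zero => exact hp0
    | succ n ih => exact (hF n (p n) ih).1
  have hmono : ∀ m n, m ≤ n → (p m).1 ⊆ (p n).1 ∧ (p m).2 ⊆ (p n).2 := by
    intro m n hmn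
    induction hmn with
    | refl => exact ⟨subset_rfl, subset_rfl⟩
    | @step n _ ih =>
      have := hF n (p n) (hp n)
      exact ⟨ih.1.trans this.2.1, ih.2.trans this.2.2.1⟩
  let D : Set (ℕ → ℕ) := ⋃ n, (p n).1
  have hnotD : ¬ RR 𝓡 D A := by
    rintro ⟨R, hR, H⟩
    obtain ⟨e, rfl⟩ : R ∈ Set.range O := hO ▸ hR
    obtain ⟨f, hf, hf'⟩ := (hF e (p e) (hp e)).2.2.2.2
    obtain ⟨y, hyD, hy⟩ := H f hf
    obtain ⟨k, hk⟩ := Set.mem_iUnion.1 hyD
    have h1 : y ∈ (p (e + 1)).2 := hf' y hy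
    have h2 := (hmono k (max k (e + 1)) (le_max_left _ _)).1 hk
    have h3 := (hmono (e + 1) (max k (e + 1)) (le_max_right _ _)).2 h1
    exact (hp (max k (e + 1))).2.2.2.2 y h2 h3
  have hC : RR 𝓡 A (jn A D) ∧ ¬ RR 𝓡 (jn A D) A :=
    ⟨hG.le_jn_left A D, fun h => hnotD (hG.trans (hG.le_jn_right A D) h)⟩
  obtain ⟨R, hR, H⟩ := hB (jn A D) hC
  obtain ⟨e, rfl⟩ : R ∈ Set.range O := hO ▸ hR
  obtain ⟨f, hf, h, hh, hf'⟩ := (hF e (p e) (hp e)).2.2.2.1
  obtain ⟨y, hyB, hy⟩ := H (join f h) ⟨f, hf, h, Set.mem_iUnion.2 ⟨e + 1, hh⟩, rfl⟩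
  exact hf' y hyB hy

theorem single_of_solv_R7 {A : Set (ℕ → ℕ)} (h : SolvP (RR R7) A) :
    ∃ f, RR R7 A {f} ∧ RR R7 {f} A := by
  have hG := good_R7
  by_contra hno
  push Not at hno
  obtain ⟨B, ⟨hAB, hBA⟩, hB⟩ := h
  apply hBA
  refine ⟨_, rfl, fun f hf => ?_⟩
  have h1 : RR R7 A {f} := hG.of_subset (by simpa using hf)
  exact hG.le_single.1 (hB {f} ⟨h1, hno f h1⟩)

/-- The family defines degrees of singletons by strong successors. -/
def SD (𝓡 : Set Rl) : Prop := ∀ A, SolvP (RR 𝓡) A → ∃ f, RR 𝓡 A {f} ∧ RR 𝓡 {f} A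

end Pool.Agent.LearnDeg
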