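import Pool.Agent.LearnDeg.T1
import Pool.Agent.LearnDeg.T45

/-!
# The second sentence
-/

namespace Pool.Agent.LearnDeg

open Filter Encodable

/-! ### Truth -/

open Classical in
theorem T2_of_sub {𝓡 : Set Rl} (h : Sub (RL L3) 𝓡) : T2 𝓡 := by
  obtain ⟨O, _, x, k, hU, hbd, hIio, hdom, hind⟩ := exists_family
  let f : O → ℕ → ℕ := fun α => join (x α) (k α)
  -- independence
  have hI : ∀ γ α, α ≠ γ → ∀ r, Idl (insert (k α) (Set.range x)) r → ¬ TLe (k γ) r :=
    fun γ α hne r hr hcon => hind γ α hne (Idl.down hr hcon)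
  have hx : ∀ δ α, Idl (insert (k α) (Set.range x)) (x δ) :=
    fun δ α => Idl.of_mem (Set.mem_insert_of_mem _ ⟨δ, rfl⟩)
  have hk : ∀ α, Idl (insert (k α) (Set.range x)) (k α) := fun α => Idl.of_mem (Set.mem_insert _ _)
  have hanti : ∀ α β, TLe (f α) (f β) → α = β := by
    intro α β hle
    by_contra hne
    exact hI α β (Ne.symm hne) _ ((hx β β).join (hk β)) ((TLe.right _ _).trans hle)
  have hsep : ∀ α γ β, α ≠ γ → ¬ TLe (f γ) (join (f α) (x β)) := by
    intro α γ β hne hcon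
    exact hI γ α hne _ (((hx α α).join (hk α)).join (hx β α)) ((TLe.right _ _).trans hcon)
  have hinj : Function.Injective f := fun α β hαβ => hanti α β (hαβ ▸ TLe.refl _)
  have hcnt : ∀ v, {α | TLe (f α) v}.Countable := by
    intro v
    exact (countable_lower v).preimage_of_injOn (f := f) hinj.injOn
  refine ⟨Set.range f, ?_, fun u => ?_⟩
  · rintro ⟨v, hv⟩
    have h1 : (Set.univ : Set O).Countable := (hcnt v).mono fun α _ =>
      hv _ ((mins_range hanti).2 ⟨α, TLe.refl _, TLe.refl _⟩)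
    rw [Set.countable_univ_iff] at h1
    exact not_countable h1
  · obtain ⟨β, hβ⟩ := hbd _ (hcnt u)
    obtain ⟨v, hv⟩ := exists_upper ((hIio β).image f)
    have hAb : ∀ γ, Ab (f '' Set.Iio β) (f γ) → γ < β := by
      rintro γ ⟨_, ⟨α, hα, rfl⟩, h1⟩
      rw [← hanti α γ h1]
      exact hα
    refine ⟨v, x β, f '' Set.Iio β, f '' Set.Ici β, ?_, ?_, ?_, ?_, ?_, RR.mono h ?_⟩
    · intro y hy hyu
      obtain ⟨α, h1, h2⟩ := (mins_range hanti).1 hy
      exact ⟨f α, ⟨α, hβ α (h1.trans hyu), rfl⟩, h1⟩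
    · rintro y hy ⟨_, ⟨α, hα, rfl⟩, h3⟩
      obtain ⟨γ, h1, h2⟩ := (mins_range hanti).1 hy
      have := hanti α γ (h3.trans h2)
      subst this
      exact h2.trans (hv _ ⟨α, hα, rfl⟩)
    · rintro y ⟨_, ⟨α, hα, rfl⟩, h3⟩
      exact ⟨f α, (mins_range hanti).2 ⟨α, TLe.refl _, TLe.refl _⟩, ⟨f α, ⟨α, hα, rfl⟩, TLe.refl _⟩,
        h3⟩
    · rintro y ⟨_, ⟨α, hα, rfl⟩, h3⟩
      exact ⟨f α, (mins_range hanti).2 ⟨α, TLe.refl _, TLe.refl _⟩,
        fun hcon => absurd (hAb α hcon) (not_lt_of_ge hα), h3⟩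
    · intro y hy y' hy' ha hna
      obtain ⟨α, h1, h2⟩ := (mins_range hanti).1 hy
      obtain ⟨γ, h3, h4⟩ := (mins_range hanti).1 hy'
      have hαγ : α ≠ γ := by
        rintro rfl
        apply hna
        obtain ⟨w, hw, hwy⟩ := ha
        exact ⟨w, hw, hwy.trans (h2.trans h3)⟩
      constructor
      · intro hcon
        exact hsep α γ β hαγ (h3.trans (hcon.trans (TLe.join_le_join h2 (TLe.refl _))))
      · intro hcon
        exact hsep γ α β (Ne.symm hαγ) (h1.trans (hcon.trans (TLe.join_le_join h4 (TLe.refl _))))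
    · obtain ⟨e0, he0⟩ := exists_outIx 0
      obtain ⟨e1, he1⟩ := exists_outIx 1
      let Ψ : List ℕ → ℕ := fun σ =>
        if (σ.getD (σ.length - 1) 0).unpair.1.unpair.1 < (σ.getD (σ.length - 1) 0).unpair.2
        then e0 else e1
      have hΨc : Computable Ψ := by
        have a1 : Primrec fun σ : List ℕ => σ.getD (σ.length - 1) 0 :=
          (Primrec.list_getD 0).comp Primrec.id (Primrec.pred.comp Primrec.list_length)
        exact (Primrec.ite (Primrec.nat_lt.comp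
          (Primrec.fst.comp (Primrec.unpair.comp (Primrec.fst.comp (Primrec.unpair.comp a1))))
          (Primrec.snd.comp (Primrec.unpair.comp a1)))
          (Primrec.const e0) (Primrec.const e1)).to_comp
      have hV : ∀ σ, (V Ψ σ).card ≤ 2 := by
        intro σ
        have : V Ψ σ ⊆ {e0, e1} := by
          intro y hy
          obtain ⟨τ, _, rfl⟩ := mem_V.1 hy
          simp only [Ψ]
          split_ifs <;> simp
        exact (Finset.card_le_card this).trans Finset.card_le_two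
      have hΨv : ∀ α n, 0 < n → Ψ (seg (join (f α) (x β)) n) =
          if x α (n - 1) < x β (n - 1) then e0 else e1 := by
        intro α n hn
        simp only [Ψ, seg_length]
        rw [List.getD_eq_getElem?_getD, seg_getElem?_of_lt (by omega)]
        simp [join, f]
      refine ⟨_, ⟨Ψ, ⟨hΨc, 2, hV⟩, rfl⟩, ?_⟩
      rintro _ ⟨_, ⟨α, rfl⟩, g', hg', rfl⟩
      rw [Set.mem_singleton_iff.1 hg']
      rcases lt_or_ge α β with hlt | hge
      · refine ⟨cons 0 (f α), Or.inl ⟨f α, ⟨α, hlt, rfl⟩, rfl⟩, e0, ?_, he0 _ _⟩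
        obtain ⟨M, hM⟩ := eventually_atTop.1 (hdom α β hlt)
        filter_upwards [eventually_gt_atTop M] with n hn
        rw [hΨv α n (by omega), if_pos (hM (n - 1) (by omega))]
      · refine ⟨cons 1 (f α), Or.inr ⟨f α, ⟨α, hge, rfl⟩, rfl⟩, e1, ?_, he1 _ _⟩
        have : ∀ᶠ m in atTop, ¬ x α m < x β m := by
          rcases eq_or_lt_of_le hge with rfl | hlt
          · exact Eventually.of_forall fun m => lt_irrefl _
          · filter_upwards [hdom β α hlt] with m hm
            exact not_lt_of_gt hm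
        obtain ⟨M, hM⟩ := eventually_atTop.1 this
        filter_upwards [eventually_gt_atTop M] with n hn
        rw [hΨv α n (by omega), if_neg (hM (n - 1) (by omega))]

/-! ### Falsity -/

theorem not_T2 {𝓡 : Set Rl} (h : Sub 𝓡 (RL L2)) : ¬ T2 𝓡 := by
  classical
  rintro ⟨P, hunb, H⟩
  choose v g a b h1 h2 h3 h4 h5 h6 using H
  have h7 : ∀ u, ∃ Ψ ∈ L2, ∀ q ∈ P, ∃ y ∈ mt (a u) (b u), Ident Ψ (join q (g u)) y := by
    intro u
    obtain ⟨_, ⟨Ψ, hΨ, rfl⟩, hred⟩ := RR.mono h (h6 u)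
    exact ⟨Ψ, hΨ, fun q hq => hred _ ⟨q, hq, g u, rfl, rfl⟩⟩
  choose Ψ hΨ hred using h7
  have hp : ∀ f ∈ mins P, ∃ p ∈ P, TLe p f := fun f hf => hf.1
  choose! p hpP hpf using hp
  -- limit answers
  have hans0 : ∀ u, ∀ f ∈ mins P, Ab (a u) f →
      ∀ᶠ n in atTop, Ans (Ψ u) (seg (join (p f) (g u)) n) = some 0 := by
    intro u f hf hab
    obtain ⟨y, hy, hI⟩ := hred u (p f) (hpP f hf)
    have hle : TLe y (join f (g u)) :=
      (ident_TLe hI).trans (TLe.join_le_join (hpf f hf) (TLe.refl _))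
    rcases hy with ⟨q, hq, rfl⟩ | ⟨q, hq, rfl⟩
    · exact ident_ans hI
    · exfalso
      obtain ⟨f', hf', h8, h9⟩ := h4 u (join f (g u)) ⟨q, hq, (TLe.of_cons 1 q).trans hle⟩
      exact (h5 u f hf f' hf' hab h8).1 h9
  have hans1 : ∀ u, ∀ f ∈ mins P, ¬ Ab (a u) f →
      ∀ᶠ n in atTop, Ans (Ψ u) (seg (join (p f) (g u)) n) = some 1 := by
    intro u f hf hab
    obtain ⟨y, hy, hI⟩ := hred u (p f) (hpP f hf)
    have hle : TLe y (join f (g u)) :=
      (ident_TLe hI).trans (TLe.join_le_join (hpf f hf) (TLe.refl _))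
    rcases hy with ⟨q, hq, rfl⟩ | ⟨q, hq, rfl⟩
    · exfalso
      obtain ⟨f', hf', h8, h9⟩ := h3 u (join f (g u)) ⟨q, hq, (TLe.of_cons 0 q).trans hle⟩
      exact (h5 u f' hf' f hf h8 hab).2 h9
    · exact ident_ans hI
  -- a learner chosen cofinally
  obtain ⟨Ψ₀, hΨ₀⟩ : ∃ Ψ₀, ∀ u, ∃ u', TLe u u' ∧ Ψ u' = Ψ₀ := by
    by_contra hcon
    push Not at hcon
    choose w hw using hcon
    obtain ⟨u, hu⟩ := exists_upper (countable_L4.image w)
    exact hw (Ψ u) u (hu _ ⟨Ψ u, (hΨ u).1, rfl⟩) rfl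
  have hΨ₀L : Ψ₀ ∈ L2 := by
    obtain ⟨u', _, hu'⟩ := hΨ₀ (fun _ => 0)
    rw [← hu']; exact hΨ u'
  obtain ⟨_, c, hc⟩ := hΨ₀L
  let Unc : List ℕ → Prop := fun σ => ¬ ∃ v, ∀ f ∈ mins P, seg (p f) σ.length = σ → TLe f v
  let Cof : List ℕ → Prop := fun γ =>
    ∀ u, ∃ u', Ψ u' = Ψ₀ ∧ TLe u u' ∧ seg (g u') γ.length = γ
  have lemU : ∀ σ, Unc σ → ∀ w, ∃ f ∈ mins P, seg (p f) σ.length = σ ∧ ¬ TLe f w ∧
      ∀ n, Unc (seg (p f) n) := by
    intro σ hσ w
    have hb : ∀ τ : List ℕ, ∃ vτ, ¬ Unc τ → ∀ f ∈ mins P, seg (p f) τ.length = τ → TLe f vτ := by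
      intro τ
      by_cases hτ : Unc τ
      · exact ⟨fun _ => 0, fun hn => absurd hτ hn⟩
      · obtain ⟨vτ, hvτ⟩ := not_not.1 hτ
        exact ⟨vτ, fun _ => hvτ⟩
    choose vτ hvτ using hb
    obtain ⟨u, hu⟩ := exists_upper ((Set.countable_range vτ).insert w)
    by_contra hcon
    apply hσ
    refine ⟨u, fun f hf hfσ => ?_⟩
    by_contra hfu
    apply hcon
    refine ⟨f, hf, hfσ, fun hfw => hfu (hfw.trans (hu w (Set.mem_insert _ _))), fun n => ?_⟩
    by_contra hn
    have hn' : ¬ Unc (seg (p f) n) := fun h => h hn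
    refine hfu ((hvτ _ hn' f hf ?_).trans (hu _ (Set.mem_insert_of_mem _ ⟨_, rfl⟩)))
    rw [seg_length]
  have lemC : ∀ γ, Cof γ → ∀ u, ∃ u', Ψ u' = Ψ₀ ∧ TLe u u' ∧ seg (g u') γ.length = γ ∧
      ∀ n, Cof (seg (g u') n) := by
    intro γ hγ u
    have hb : ∀ τ : List ℕ, ∃ uτ, ¬ Cof τ → ∀ u', Ψ u' = Ψ₀ → TLe uτ u' →
        seg (g u') τ.length ≠ τ := by
      intro τ
      by_cases hτ : Cof τ
      · exact ⟨fun _ => 0, fun hn => absurd hτ hn⟩
      · simp only [Cof, not_forall, not_exists, not_and] at hτ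
        obtain ⟨uτ, huτ⟩ := hτ
        exact ⟨uτ, fun _ => huτ⟩
    choose uτ huτ using hb
    obtain ⟨u₁, hu₁⟩ := exists_upper ((Set.countable_range uτ).insert u)
    obtain ⟨u', hu', hle, hseg⟩ := hγ u₁
    refine ⟨u', hu', (hu₁ u (Set.mem_insert _ _)).trans hle, hseg, fun n => ?_⟩
    by_contra hn
    refine huτ _ hn u' hu' ((hu₁ _ (Set.mem_insert_of_mem _ ⟨_, rfl⟩)).trans hle) ?_
    rw [seg_length]
  have hext : ∀ (q q' r r' : ℕ → ℕ) (n m : ℕ), n ≤ m → seg q' n = seg q n → seg r' n = seg r n →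
      seg (join q r) n <+: seg (join q' r') m := by
    intro q q' r r' n m hnm hq hr
    have : seg (join q r) n = seg (join q' r') n := by
      apply List.ext_getElem?
      intro i
      have e1 := congrArg (fun l => l[i]?) hq
      have e2 := congrArg (fun l => l[i]?) hr
      simp only [seg_getElem?] at e1 e2 ⊢
      split_ifs with hi
      · rw [if_pos hi, if_pos hi] at e1 e2
        simp only [join, Option.some.inj e1, Option.some.inj e2]
      · rfl
    rw [this]
    exact seg_prefix hnm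
  -- every state can be extended to one with smaller potential
  have main : ∀ N, ∀ (q r : ℕ → ℕ) (n : ℕ), c (seg (join q r) n) ≤ N → Unc (seg q n) →
      Cof (seg r n) → False := by
    intro N
    induction N using Nat.strong_induction_on with
    | _ N ih =>
      intro q r n hcN hU hC
      -- first move: answer 0
      obtain ⟨f, hf, hfs, _, hfU⟩ := lemU _ hU (fun _ => 0)
      obtain ⟨u, hu, hfu, hus, huC⟩ := lemC _ hC f
      rw [seg_length] at hfs hus
      have hA := hans0 u f hf (h1 u f hf hfu)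
      rw [hu] at hA
      obtain ⟨m, hm, hnm⟩ := (hA.and (eventually_ge_atTop n)).exists
      -- second move: answer 1
      obtain ⟨u', hu', _, hus', huC'⟩ := lemC _ (huC m) (fun _ => 0)
      obtain ⟨f', hf', hfs', hfv', hfU'⟩ := lemU _ (hfU m) (v u')
      rw [seg_length] at hfs' hus'
      have hB := hans1 u' f' hf' (fun hab => hfv' (h2 u' f' hf' hab))
      rw [hu'] at hB
      obtain ⟨m', hm', hnm'⟩ := (hB.and (eventually_ge_atTop m)).exists
      have p1 := hext q (p f) r (g u) n m hnm hfs hus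
      have p2 := hext (p f) (p f') (g u) (g u') m m' hnm' hfs' hus'
      have c1 := (hc.of_pre p1).1
      have c2 := (hc.of_pre p2).2 (by
        intro heq
        unfold Ans at hm hm'
        have := run_mono p2 hm
        rw [heq, this] at hm'
        simp at hm')
      exact ih _ (lt_of_lt_of_le c2 (c1.trans hcN)) (p f') (g u') m' le_rfl (hfU' m') (huC' m')
  refine main _ (fun _ => 0) (fun _ => 0) 0 le_rfl ?_ ?_
  · simp only [Unc, seg_zero, List.length_nil, true_imp_iff]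
    exact hunb
  · intro u
    obtain ⟨u', h8, h9⟩ := hΨ₀ u
    exact ⟨u', h9, h8, by simp⟩

end Pool.Agent.LearnDeg
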