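import Pool.Agent.LearnDeg.Turing

/-!
# Finitely many functionals one of which gives the right initial segment
-/

namespace Pool.Agent.LearnDeg

open Filter Encodable

/-- Coding of strings by numbers. -/
def dl (k : ℕ) : List ℕ := Denumerable.ofNat (List ℕ) k

theorem dl_encode (σ : List ℕ) : dl (encode σ) = σ := by simp [dl]

theorem primrec_dl : Primrec dl := Primrec.ofNat (List ℕ)

/-- The value found on the finite string, decoded. -/
def vl (e : ℕ) (ρ : List ℕ) (n : ℕ) : Option (List ℕ) := (run e (n :: ρ) 0).map dl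

theorem primrec_vl : Primrec fun p : ℕ × List ℕ × ℕ => vl p.1 p.2.1 p.2.2 := by
  unfold vl
  refine Primrec.option_map (f := fun p : ℕ × List ℕ × ℕ => run p.1 (p.2.2 :: p.2.1) 0) ?_ ?_
  · exact primrec_run.comp (Primrec.fst.pair ((Primrec.list_cons.comp
      (Primrec.snd.comp Primrec.snd) (Primrec.fst.comp Primrec.snd)).pair (Primrec.const 0)))
  · exact (primrec_dl.comp Primrec.snd).to₂

/-- The search. -/
def Gs (L L' L'' : List ℕ) (e₁ N k₀ : ℕ) (ζ : List ℕ) (ρ : List ℕ) (m : ℕ) : Option ℕ :=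
  if (N < ρ.length.unpair.1 ∧ m < ρ.length.unpair.1) ∧
      (∀ e ∈ L, (vl e ρ ρ.length.unpair.1).isSome = true) ∧
      (∀ e ∈ L', ¬ (vl e ρ ρ.length.unpair.1).map (List.take k₀) = some ζ) ∧
      (∀ e ∈ L'', (vl e ρ ρ.length.unpair.1).bind (fun τ => τ[m]?) =
        (vl e₁ ρ ρ.length.unpair.1).bind (fun τ => τ[m]?))
  then (vl e₁ ρ ρ.length.unpair.1).bind (fun τ => τ[m]?) else none

section
attribute [local irreducible] vl

theorem computable_Gs (L L' L'' : List ℕ) (e₁ N k₀ : ℕ) (ζ : List ℕ) :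
    Computable₂ (Gs L L' L'' e₁ N k₀ ζ) := by
  refine Primrec.to_comp ?_
  unfold Gs
  have a1 : Primrec fun p : List ℕ × ℕ => p.1.length.unpair.1 :=
    Primrec.fst.comp (Primrec.unpair.comp (Primrec.list_length.comp Primrec.fst))
  have a2 : Primrec fun q : ℕ × List ℕ × ℕ => vl q.1 q.2.1 q.2.1.length.unpair.1 :=
    primrec_vl.comp (Primrec.fst.pair ((Primrec.fst.comp Primrec.snd).pair (a1.comp Primrec.snd)))
  have a3 : Primrec fun q : ℕ × List ℕ × ℕ =>
      (vl q.1 q.2.1 q.2.1.length.unpair.1).bind (fun τ => τ[q.2.2]?) := by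
    refine Primrec.option_bind a2 ?_
    exact Primrec.list_getElem?.comp Primrec.snd (Primrec.snd.comp (Primrec.snd.comp Primrec.fst))
  have a4 : Primrec fun p : List ℕ × ℕ =>
      (vl e₁ p.1 p.1.length.unpair.1).bind (fun τ => τ[p.2]?) :=
    a3.comp ((Primrec.const e₁).pair Primrec.id)
  have h1 : PrimrecPred fun p : List ℕ × ℕ =>
      N < p.1.length.unpair.1 ∧ p.2 < p.1.length.unpair.1 :=
    (Primrec.nat_lt.comp (Primrec.const N) a1).and (Primrec.nat_lt.comp Primrec.snd a1)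
  have h2 : PrimrecPred fun p : List ℕ × ℕ =>
      ∀ e ∈ L, (vl e p.1 p.1.length.unpair.1).isSome = true := by
    have hR : PrimrecRel fun (e : ℕ) (p : List ℕ × ℕ) =>
        (vl e p.1 p.1.length.unpair.1).isSome = true :=
      Primrec.eq.comp (Primrec.option_isSome.comp a2) (Primrec.const true)
    exact hR.forall_mem_list.comp (Primrec.const L) Primrec.id
  have h3 : PrimrecPred fun p : List ℕ × ℕ =>
      ∀ e ∈ L', ¬ (vl e p.1 p.1.length.unpair.1).map (List.take k₀) = some ζ := by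
    have hR : PrimrecRel fun (e : ℕ) (p : List ℕ × ℕ) =>
        ¬ (vl e p.1 p.1.length.unpair.1).map (List.take k₀) = some ζ := by
      refine PrimrecPred.not (Primrec.eq.comp ?_ (Primrec.const (some ζ)))
      exact Primrec.option_map a2 (Primrec.list_take.comp (Primrec.const k₀) Primrec.snd)
    exact hR.forall_mem_list.comp (Primrec.const L') Primrec.id
  have h4 : PrimrecPred fun p : List ℕ × ℕ =>
      ∀ e ∈ L'', (vl e p.1 p.1.length.unpair.1).bind (fun τ => τ[p.2]?) =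
        (vl e₁ p.1 p.1.length.unpair.1).bind (fun τ => τ[p.2]?) := by
    have hR : PrimrecRel fun (e : ℕ) (p : List ℕ × ℕ) =>
        (vl e p.1 p.1.length.unpair.1).bind (fun τ => τ[p.2]?) =
        (vl e₁ p.1 p.1.length.unpair.1).bind (fun τ => τ[p.2]?) :=
      Primrec.eq.comp a3 (a4.comp Primrec.snd)
    exact hR.forall_mem_list.comp (Primrec.const L'') Primrec.id
  exact Primrec.ite (h1.and (h2.and (h3.and h4))) a4 (Primrec.const none)

end

theorem take_mono {σ τ : List ℕ} {k k' : ℕ} (h : k ≤ k') (hk : σ.take k' = τ.take k') :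
    σ.take k = τ.take k := by
  have := congrArg (List.take k) hk
  rwa [List.take_take, List.take_take, min_eq_left h] at this

/-- Bounded trace lemma. -/
theorem TLe_of_trace {z X : ℕ → ℕ} (E : Finset ℕ)
    (h : ∀ n, ∃ e ∈ E, ∃ s, run e (seg (cons n X) s) 0 = some (encode (seg z n))) : TLe z X := by
  classical
  -- values
  let C : ℕ → ℕ → List ℕ → Prop := fun e n τ => ∃ t, vl e (seg X t) n = some τ
  have hCmono : ∀ e n τ t t', t ≤ t' → vl e (seg X t) n = some τ → vl e (seg X t') n = some τ := by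
    intro e n τ t t' htt' ht
    obtain ⟨k, hk, rfl⟩ := Option.map_eq_some_iff.1 ht
    have h1 : n :: seg X t <+: n :: seg X t' := by
      rw [← seg_cons, ← seg_cons]
      exact seg_prefix (by omega)
    rw [vl, run_mono h1 hk]
    rfl
  have hCu : ∀ e n τ τ', C e n τ → C e n τ' → τ = τ' := by
    rintro e n τ τ' ⟨t, ht⟩ ⟨t', ht'⟩
    have h1 := hCmono e n τ t (max t t') (le_max_left _ _) ht
    have h2 := hCmono e n τ' t' (max t t') (le_max_right _ _) ht'
    rw [h1] at h2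
    exact Option.some.inj h2
  have hright : ∀ n, ∃ e ∈ E, C e n (seg z n) := by
    intro n
    obtain ⟨e, he, s, hs⟩ := h n
    refine ⟨e, he, s, ?_⟩
    have h1 : run e (n :: seg X s) 0 = some (encode (seg z n)) := by
      rw [← seg_cons]
      exact run_mono (seg_prefix (by omega)) hs
    rw [vl, h1]
    simp [dl_encode]
  -- maximal set of functionals converging together infinitely often
  obtain ⟨D, hD1, hD2⟩ : ∃ D ∈ E.powerset.filter (fun D => {n | ∀ e ∈ D, ∃ τ, C e n τ}.Infinite),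
      ∀ D' ∈ E.powerset.filter (fun D => {n | ∀ e ∈ D, ∃ τ, C e n τ}.Infinite),
        D'.card ≤ D.card := by
    apply Finset.exists_max_image
    refine ⟨∅, ?_⟩
    simp [Set.infinite_univ]
  simp only [Finset.mem_filter, Finset.mem_powerset] at hD1 hD2
  obtain ⟨hDE, hDinf⟩ := hD1
  have hfin1 : ∀ e ∈ E, e ∉ D → {n | (∃ τ, C e n τ) ∧ ∀ d ∈ D, ∃ τ, C d n τ}.Finite := by
    intro e he heD
    by_contra hinf
    have := hD2 (insert e D) ⟨Finset.insert_subset he hDE, by
      convert hinf using 1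
      simp only [Set.Infinite, Finset.forall_mem_insert]⟩
    rw [Finset.card_insert_of_notMem heD] at this
    omega
  obtain ⟨n₀, hn₀⟩ : ∃ n₀, ∀ n, n₀ < n → (∀ d ∈ D, ∃ τ, C d n τ) → ∀ e ∈ E, (∃ τ, C e n τ) →
      e ∈ D := by
    have hfin : (⋃ e ∈ E \ D, {n | (∃ τ, C e n τ) ∧ ∀ d ∈ D, ∃ τ, C d n τ}).Finite := by
      refine Set.Finite.biUnion (Finset.finite_toSet _) ?_
      intro e he
      have he' := Finset.mem_sdiff.1 (Finset.mem_coe.1 he)
      exact hfin1 e he'.1 he'.2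
    obtain ⟨n₀, hn₀⟩ := hfin.bddAbove
    refine ⟨n₀, fun n hn hd e he hc => ?_⟩
    by_contra heD
    have : n ≤ n₀ := hn₀ (Set.mem_biUnion (Finset.mem_coe.2 (Finset.mem_sdiff.2 ⟨he, heD⟩)) ⟨hc, hd⟩)
    omega
  let W : Set ℕ := {n | n₀ < n ∧ ∀ d ∈ D, ∃ τ, C d n τ}
  have hWinf : W.Infinite := by
    have : W = {n | ∀ d ∈ D, ∃ τ, C d n τ} \ {n | n ≤ n₀} := by
      ext n; simp [W]; tauto
    rw [this]
    exact hDinf.sdiff (Set.finite_le_nat n₀)
  -- maximal set of functionals that are wrong together infinitely often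
  let Wr : ℕ → ℕ → ℕ → Prop := fun e n k => ∃ τ, C e n τ ∧ τ.take k ≠ seg z k
  have hWr : ∀ e n k k', k ≤ k' → Wr e n k → Wr e n k' := by
    rintro e n k k' hkk' ⟨τ, hτ, hne⟩
    refine ⟨τ, hτ, fun heq => hne ?_⟩
    have h1 : τ.take k = (seg z k').take k := by
      rw [← heq, List.take_take, min_eq_left hkk']
    rw [h1, seg_take, min_eq_left hkk']
  obtain ⟨E', hE1, hE2⟩ : ∃ E' ∈ D.powerset.filter
      (fun E' => ∃ k, {n | n ∈ W ∧ ∀ e ∈ E', Wr e n k}.Infinite),
      ∀ E'' ∈ D.powerset.filter (fun E' => ∃ k, {n | n ∈ W ∧ ∀ e ∈ E', Wr e n k}.Infinite),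
        E''.card ≤ E'.card := by
    apply Finset.exists_max_image
    refine ⟨∅, ?_⟩
    simp only [Finset.mem_filter, Finset.empty_mem_powerset, true_and, Finset.notMem_empty,
      IsEmpty.forall_iff, implies_true, and_true]
    exact ⟨0, hWinf⟩
  simp only [Finset.mem_filter, Finset.mem_powerset] at hE1 hE2
  obtain ⟨hE'D, k₀, hk₀⟩ := hE1
  let W' : Set ℕ := {n | n ∈ W ∧ ∀ e ∈ E', Wr e n k₀}
  have hW'inf : W'.Infinite := hk₀
  have hcorrect : ∀ n ∈ W', k₀ ≤ n → ∃ e ∈ D \ E', C e n (seg z n) := by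
    intro n hn hkn
    obtain ⟨e, he, hC⟩ := hright n
    have heD : e ∈ D := hn₀ n hn.1.1 hn.1.2 e he ⟨_, hC⟩
    refine ⟨e, Finset.mem_sdiff.2 ⟨heD, fun heE' => ?_⟩, hC⟩
    obtain ⟨τ, hτ, hne⟩ := hn.2 e heE'
    rw [hCu e n τ _ hτ hC, seg_take, min_eq_left hkn] at hne
    exact hne rfl
  have hfin2 : ∀ k, k₀ ≤ k → {n | n ∈ W' ∧ ∃ e ∈ D \ E', Wr e n k}.Finite := by
    intro k hk
    have : {n | n ∈ W' ∧ ∃ e ∈ D \ E', Wr e n k} ⊆ ⋃ e ∈ D \ E', {n | n ∈ W' ∧ Wr e n k} := by
      rintro n ⟨h1, e, he, h2⟩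
      exact Set.mem_biUnion (Finset.mem_coe.2 he) ⟨h1, h2⟩
    refine Set.Finite.subset (Set.Finite.biUnion (Finset.finite_toSet _) ?_) this
    intro e he
    obtain ⟨heD, heE'⟩ := Finset.mem_sdiff.1 (Finset.mem_coe.1 he)
    by_contra hinf
    have := hE2 (insert e E') ⟨Finset.insert_subset heD hE'D, k, by
      refine Set.Infinite.mono ?_ hinf
      rintro n ⟨h1, h2⟩
      refine ⟨h1.1, fun e' he' => ?_⟩
      rcases Finset.mem_insert.1 he' with rfl | he'
      · exact h2
      · exact hWr e' n k₀ k hk (h1.2 e' he')⟩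
    rw [Finset.card_insert_of_notMem heE'] at this
    omega
  obtain ⟨n₁, hn₁, hn₁'⟩ := hW'inf.exists_gt k₀
  obtain ⟨e₁, he₁, _⟩ := hcorrect n₁ hn₁ hn₁'.le
  refine TLe.of_search (Gs D.toList E'.toList (D \ E').toList e₁ (max n₀ k₀) k₀ (seg z k₀))
    (computable_Gs _ _ _ _ _ _ _) ?_ ?_
  · intro m t a ha
    unfold Gs at ha
    rw [seg_length] at ha
    split_ifs at ha with hcond
    obtain ⟨⟨hN, hm⟩, h1, h2, h3⟩ := hcond
    set n := t.unpair.1 with hn
    simp only [Finset.mem_toList] at h1 h2 h3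
    have hconv : ∀ d ∈ D, ∃ τ, C d n τ := by
      intro d hd
      obtain ⟨τ, hτ⟩ := Option.isSome_iff_exists.1 (h1 d hd)
      exact ⟨τ, t, hτ⟩
    have hnW' : n ∈ W' := by
      refine ⟨⟨by omega, hconv⟩, fun e he => ?_⟩
      obtain ⟨τ, hτ⟩ := Option.isSome_iff_exists.1 (h1 e (hE'D he))
      refine ⟨τ, ⟨t, hτ⟩, fun heq => h2 e he ?_⟩
      rw [hτ]
      simp [heq]
    obtain ⟨e, he, t', ht'⟩ := hcorrect n hnW' (by omega)
    obtain ⟨τ, hτ⟩ := Option.isSome_iff_exists.1 (h1 e (Finset.mem_sdiff.1 he).1)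
    have hτz : τ = seg z n := hCu e n _ _ ⟨t, hτ⟩ ⟨t', ht'⟩
    have h4 := h3 e he
    rw [← h4, hτ, hτz, Option.bind_some, seg_getElem?_of_lt hm] at ha
    exact (Option.some.inj ha).symm
  · intro m
    have hk : k₀ ≤ max (m + 1) k₀ := le_max_right _ _
    obtain ⟨n, hn, hngt⟩ := (hW'inf.sdiff (hfin2 _ hk)).exists_gt (max (max n₀ k₀) m)
    have hnW' : n ∈ W' := hn.1
    have hnot : ∀ e ∈ D \ E', ¬ Wr e n (max (m + 1) k₀) := fun e he hw => hn.2 ⟨hnW', e, he, hw⟩
    -- all values have appeared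
    choose! V hV using (fun d (hd : d ∈ D) => hnW'.1.2 d hd)
    choose! S hS using hV
    refine ⟨Nat.pair n (D.sup S), ?_⟩
    have hle : ∀ d ∈ D, S d ≤ Nat.pair n (D.sup S) := fun d hd =>
      (Finset.le_sup hd).trans (Nat.right_le_pair _ _)
    have hval : ∀ d ∈ D, vl d (seg X (Nat.pair n (D.sup S))) n = some (V d) := fun d hd =>
      hCmono d n (V d) (S d) _ (hle d hd) (hS d hd)
    have hgood : ∀ e ∈ D \ E', (vl e (seg X (Nat.pair n (D.sup S))) n).bind (fun τ => τ[m]?) =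
        some (z m) := by
      intro e he
      have heD := (Finset.mem_sdiff.1 he).1
      rw [hval e heD, Option.bind_some]
      have h1 : (V e).take (max (m + 1) k₀) = seg z (max (m + 1) k₀) := by
        by_contra hne
        exact hnot e he ⟨V e, ⟨_, hS e heD⟩, hne⟩
      have h2 : ((V e).take (max (m + 1) k₀))[m]? = some (z m) := by
        rw [h1, seg_getElem?_of_lt]
        exact lt_of_lt_of_le (Nat.lt_succ_self m) (le_max_left _ _)
      rw [List.getElem?_take] at h2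
      split_ifs at h2 with h3
      exact h2
    unfold Gs
    rw [seg_length, Nat.unpair_pair]
    simp only
    rw [if_pos, hgood e₁ he₁]
    · simp
    · refine ⟨⟨by omega, by omega⟩, ?_, ?_, ?_⟩
      · intro e he
        rw [hval e (Finset.mem_toList.1 he)]; rfl
      · intro e he hcon
        have he' := Finset.mem_toList.1 he
        rw [hval e (hE'D he')] at hcon
        obtain ⟨τ, hτ, hne⟩ := hnW'.2 e he'
        have h5 : τ = V e := hCu e n _ _ hτ ⟨_, hS e (hE'D he')⟩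
        rw [h5] at hne
        exact hne (Option.some.inj hcon)
      · intro e he
        rw [hgood e (Finset.mem_toList.1 he), hgood e₁ he₁]

end Pool.Agent.LearnDeg
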