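import Pool.Agent.LearnDeg.Comp

/-!
# Index functions and Turing reducibility
-/

namespace Pool.Agent.LearnDeg

open Nat.Partrec (Code)
open Encodable

/-! ### Approximations to the value of a functional -/

/-- Values of the functional read off a finite string, at most `j` of them. -/
def approxAux (e : ℕ) (σ : List ℕ) : ℕ → List ℕ
  | 0 => []
  | j + 1 => Option.casesOn (run e σ (approxAux e σ j).length) (approxAux e σ j)
      (fun k => approxAux e σ j ++ [k])

/-- Values of the `e`-th functional read off the finite string `σ`. -/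
def approx (e : ℕ) (σ : List ℕ) : List ℕ := approxAux e σ σ.length

theorem approxAux_spec (e : ℕ) (σ : List ℕ) (j : ℕ) :
    (∀ i k, (approxAux e σ j)[i]? = some k → run e σ i = some k) ∧
    (approxAux e σ j).length ≤ j ∧
    ((approxAux e σ j).length < j → run e σ (approxAux e σ j).length = none) := by
  induction j with
  | zero => simp [approxAux]
  | succ j ih =>
    obtain ⟨h1, h2, h3⟩ := ih
    rcases hr : run e σ (approxAux e σ j).length with _ | k
    · have : approxAux e σ (j + 1) = approxAux e σ j := by simp only [approxAux]; rw [hr]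
      rw [this]
      exact ⟨h1, by omega, fun _ => hr⟩
    · have : approxAux e σ (j + 1) = approxAux e σ j ++ [k] := by simp only [approxAux]; rw [hr]
      rw [this]
      have hj : (approxAux e σ j).length = j := by
        by_contra hne
        have := h3 (by omega)
        rw [hr] at this; cases this
      refine ⟨fun i k' hk' => ?_, by simp; omega, fun hlt => ?_⟩
      · rw [List.getElem?_append] at hk'
        split_ifs at hk' with hi
        · exact h1 i k' hk'
        · have : i = (approxAux e σ j).length := by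
            by_contra hne
            have : 1 ≤ i - (approxAux e σ j).length := by omega
            rw [List.getElem?_eq_none (by simpa using this)] at hk'
            cases hk'
          subst this
          simp at hk'
          rw [hr, hk']
      · simp at hlt
        omega

theorem approx_prefix {e : ℕ} {σ τ : List ℕ} (h : σ <+: τ) : approx e σ <+: approx e τ := by
  obtain ⟨a1, a2, a3⟩ := approxAux_spec e σ σ.length
  obtain ⟨b1, b2, b3⟩ := approxAux_spec e τ τ.length
  have hl := h.length_le
  have hle : (approx e σ).length ≤ (approx e τ).length := by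
    by_contra hlt
    push Not at hlt
    have h4 : (approxAux e τ τ.length).length < τ.length := by
      unfold approx at hlt; omega
    have h5 := b3 h4
    have h6 : run e σ (approx e τ).length = some (approx e σ)[(approx e τ).length] :=
      a1 _ _ (by exact List.getElem?_eq_getElem hlt)
    have h7 := run_mono h h6
    unfold approx at h7
    rw [h5] at h7
    cases h7
  rw [List.prefix_iff_getElem?]
  intro i hi
  have h1 : run e σ i = some (approx e σ)[i] := a1 _ _ (List.getElem?_eq_getElem hi)
  have hi' : i < (approx e τ).length := by omega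
  have h2 : run e τ i = some (approx e τ)[i] := b1 _ _ (List.getElem?_eq_getElem hi')
  rw [run_mono h h1] at h2
  rw [List.getElem?_eq_getElem hi', ← h2]

theorem approx_seg {e : ℕ} {g f : ℕ → ℕ} (h : Phi e g = f) (s : ℕ) :
    approx e (seg g s) = seg f (approx e (seg g s)).length := by
  rw [eq_seg_iff]
  intro i k hk
  exact run_eq_of_Phi h ((approxAux_spec e (seg g s) (seg g s).length).1 i k hk)

theorem approx_length_large {e : ℕ} {g f : ℕ → ℕ} (h : Phi e g = f) (m : ℕ) :
    ∃ N, ∀ s, N ≤ s → m ≤ (approx e (seg g s)).length := by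
  have h1 := Phi_eq_iff.1 h
  choose S hS using h1
  refine ⟨m + (Finset.range m).sup S, fun s hs => ?_⟩
  by_contra hlt
  push Not at hlt
  have hlt' : (approx e (seg g s)).length < m := hlt
  have h3 := (approxAux_spec e (seg g s) (seg g s).length).2.2 (by
    rw [seg_length]; unfold approx at hlt; rw [seg_length] at hlt; omega)
  have h4 : S (approx e (seg g s)).length ≤ (Finset.range m).sup S :=
    Finset.le_sup (Finset.mem_range.2 hlt')
  have h5 := run_mono (seg_prefix (show S (approx e (seg g s)).length ≤ s by omega))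
    (hS (approx e (seg g s)).length)
  have h6 : run e (seg g s) (approx e (seg g s)).length = none := h3
  rw [h6] at h5
  cases h5

theorem primrec_approx : Primrec₂ approx := by
  have h : Primrec₂ fun (p : ℕ × List ℕ) (q : ℕ × List ℕ) =>
      (Option.casesOn (run p.1 p.2 q.2.length) q.2 (fun k => q.2 ++ [k]) : List ℕ) := by
    refine Primrec.option_casesOn (f := fun x : (ℕ × List ℕ) × (ℕ × List ℕ) => x.2.2)
      (g := fun x k => x.2.2 ++ [k])
      (primrec_run.comp ((Primrec.fst.comp Primrec.fst).pair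
        ((Primrec.snd.comp Primrec.fst).pair
          (Primrec.list_length.comp (Primrec.snd.comp Primrec.snd)))))
      (Primrec.snd.comp Primrec.snd) ?_
    exact Primrec.list_concat.comp (Primrec.snd.comp (Primrec.snd.comp Primrec.fst)) Primrec.snd
  refine (Primrec.nat_rec' (f := fun p : ℕ × List ℕ => p.2.length)
    (Primrec.list_length.comp Primrec.snd) (Primrec.const ([] : List ℕ)) h).of_eq ?_
  rintro ⟨e, σ⟩
  show _ = approxAux e σ σ.length
  generalize σ.length = j
  induction j with
  | zero => rfl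
  | succ j ih =>
    simp only [approxAux]
    rw [← ih]

/-! ### Operations on Baire space -/

/-- `g` with one new first entry. -/
def cons (a : ℕ) (g : ℕ → ℕ) : ℕ → ℕ := fun n => Nat.casesOn n a g

@[simp] theorem cons_zero (a : ℕ) (g : ℕ → ℕ) : cons a g 0 = a := rfl
@[simp] theorem cons_succ (a : ℕ) (g : ℕ → ℕ) (n : ℕ) : cons a g (n + 1) = g n := rfl

theorem cons_inj {a b : ℕ} {g h : ℕ → ℕ} (e : cons a g = cons b h) : a = b ∧ g = h := by
  refine ⟨congrFun e 0, funext fun n => congrFun e (n + 1)⟩

theorem seg_cons (a : ℕ) (g : ℕ → ℕ) (n : ℕ) : seg (cons a g) (n + 1) = a :: seg g n := by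
  apply List.ext_getElem?
  intro i
  rw [seg_getElem?]
  cases i with
  | zero => simp
  | succ i => simp [seg_getElem?]

/-- The join of two functions. -/
def join (f g : ℕ → ℕ) : ℕ → ℕ := fun n => Nat.pair (f n) (g n)

theorem join_inj {f g f' g' : ℕ → ℕ} (e : join f g = join f' g') : f = f' ∧ g = g' := by
  have h : ∀ n, f n = f' n ∧ g n = g' n := fun n => Nat.pair_eq_pair.1 (congrFun e n)
  exact ⟨funext fun n => (h n).1, funext fun n => (h n).2⟩

/-! ### Index functions -/

/-- Composition of functionals. -/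
theorem exists_cmp : ∃ s : ℕ → ℕ → ℕ, Computable₂ s ∧ ∀ a b (g f h : ℕ → ℕ),
    Phi a g = f → Phi b f = h → Phi (s a b) g = h := by
  obtain ⟨s, hs, H⟩ := exists_index (α := ℕ × ℕ) (fun p σ n => run p.2 (approx p.1 σ) n) (by
    refine Primrec.to_comp ?_
    exact primrec_run.comp ((Primrec.snd.comp Primrec.fst).pair
      ((primrec_approx.comp (Primrec.fst.comp Primrec.fst) (Primrec.fst.comp Primrec.snd)).pair
        (Primrec.snd.comp Primrec.snd))))
  refine ⟨fun a b => s (a, b), hs.to₂, ?_⟩
  intro a b g f h hf hh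
  refine H (a, b) g h ?_ ?_
  · intro n t k hk
    simp only at hk
    rw [approx_seg hf] at hk
    exact run_eq_of_Phi hh hk
  · intro n
    obtain ⟨t, ht⟩ := Phi_eq_iff.1 hh n
    obtain ⟨N, hN⟩ := approx_length_large hf t
    refine ⟨N, ?_⟩
    simp only
    rw [approx_seg hf, run_mono (seg_prefix (hN N le_rfl)) ht]
    simp

/-- Pairing of functionals. -/
theorem exists_pr : ∃ s : ℕ → ℕ → ℕ, Computable₂ s ∧ ∀ a b (g f h : ℕ → ℕ),
    Phi a g = f → Phi b g = h → Phi (s a b) g = join f h := by
  obtain ⟨s, hs, H⟩ := exists_index (α := ℕ × ℕ) (fun p σ n =>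
      (run p.1 σ n).bind fun x => (run p.2 σ n).map fun y => Nat.pair x y) (by
    refine Primrec.to_comp ?_
    refine Primrec.option_bind
      (f := fun x : (ℕ × ℕ) × List ℕ × ℕ => run x.1.1 x.2.1 x.2.2)
      (g := fun (x : (ℕ × ℕ) × List ℕ × ℕ) (k : ℕ) => (run x.1.2 x.2.1 x.2.2).map fun y =>
        Nat.pair k y)
      (primrec_run.comp ((Primrec.fst.comp Primrec.fst).pair Primrec.snd)) ?_
    refine Primrec.option_map
      (f := fun x : ((ℕ × ℕ) × List ℕ × ℕ) × ℕ => run x.1.1.2 x.1.2.1 x.1.2.2)
      (g := fun (x : ((ℕ × ℕ) × List ℕ × ℕ) × ℕ) (y : ℕ) => Nat.pair x.2 y)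
      (primrec_run.comp ((Primrec.snd.comp (Primrec.fst.comp Primrec.fst)).pair
        (Primrec.snd.comp Primrec.fst))) ?_
    exact Primrec₂.natPair.comp (Primrec.snd.comp Primrec.fst) Primrec.snd)
  refine ⟨fun a b => s (a, b), hs.to₂, ?_⟩
  intro a b g f h hf hh
  refine H (a, b) g (join f h) ?_ ?_
  · intro n t k hk
    simp only [Option.bind_eq_some_iff, Option.map_eq_some_iff] at hk
    obtain ⟨x, hx, y, hy, rfl⟩ := hk
    rw [run_eq_of_Phi hf hx, run_eq_of_Phi hh hy]; rfl
  · intro n
    obtain ⟨t, ht⟩ := Phi_eq_iff.1 hf n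
    obtain ⟨t', ht'⟩ := Phi_eq_iff.1 hh n
    refine ⟨max t t', ?_⟩
    simp only
    rw [run_mono (seg_prefix (le_max_left t t')) ht, run_mono (seg_prefix (le_max_right t t')) ht']
    simp

/-- Dropping the first entry of the argument. -/
theorem exists_tl : ∃ s : ℕ → ℕ, Computable s ∧ ∀ e c (g f : ℕ → ℕ),
    Phi e g = f → Phi (s e) (cons c g) = f := by
  obtain ⟨s, hs, H⟩ := exists_index (α := ℕ) (fun e σ n => run e σ.tail n) (by
    refine Primrec.to_comp ?_
    exact primrec_run.comp (Primrec.fst.pair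
      ((Primrec.list_tail.comp (Primrec.fst.comp Primrec.snd)).pair
        (Primrec.snd.comp Primrec.snd))))
  refine ⟨s, hs, fun e c g f hf => H e (cons c g) f ?_ ?_⟩
  · intro n t k hk
    cases t with
    | zero =>
      simp only [seg_zero, List.tail_nil] at hk
      have : run e (seg g 0) n = some k := by rw [seg_zero]; exact hk
      exact run_eq_of_Phi hf this
    | succ t =>
      simp only [seg_cons, List.tail_cons] at hk
      exact run_eq_of_Phi hf hk
  · intro n
    obtain ⟨t, ht⟩ := Phi_eq_iff.1 hf n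
    refine ⟨t + 1, ?_⟩
    simp only [seg_cons, List.tail_cons, ht]
    simp

/-- Case distinction by the first entry. -/
theorem exists_cs : ∃ s : ℕ → ℕ → ℕ, Computable₂ s ∧ ∀ a b (g f : ℕ → ℕ),
    (Phi a g = f → Phi (s a b) (cons 0 g) = f) ∧
    (Phi b g = f → Phi (s a b) (cons 1 g) = f) := by
  obtain ⟨s, hs, H⟩ := exists_index (α := ℕ × ℕ) (fun p σ n =>
      if σ = [] then none else if σ.headI = 0 then run p.1 σ.tail n else run p.2 σ.tail n) (by
    refine Primrec.to_comp ?_
    refine Primrec.ite (Primrec.eq.comp (Primrec.fst.comp Primrec.snd) (Primrec.const []))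
      (Primrec.const none) ?_
    refine Primrec.ite (Primrec.eq.comp (Primrec.list_headI.comp (Primrec.fst.comp Primrec.snd))
      (Primrec.const 0)) ?_ ?_
    · exact primrec_run.comp ((Primrec.fst.comp Primrec.fst).pair
        ((Primrec.list_tail.comp (Primrec.fst.comp Primrec.snd)).pair
          (Primrec.snd.comp Primrec.snd)))
    · exact primrec_run.comp ((Primrec.snd.comp Primrec.fst).pair
        ((Primrec.list_tail.comp (Primrec.fst.comp Primrec.snd)).pair
          (Primrec.snd.comp Primrec.snd))))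
  refine ⟨fun a b => s (a, b), hs.to₂, ?_⟩
  intro a b g f
  constructor
  · intro hf
    refine H (a, b) _ f ?_ ?_
    · intro n t k hk
      cases t with
      | zero => simp at hk
      | succ t =>
        simp only [seg_cons, List.tail_cons, List.headI_cons, if_true, reduceCtorEq, if_false] at hk
        exact run_eq_of_Phi hf hk
    · intro n
      obtain ⟨t, ht⟩ := Phi_eq_iff.1 hf n
      exact ⟨t + 1, by simp [seg_cons, ht]⟩
  · intro hf
    refine H (a, b) _ f ?_ ?_
    · intro n t k hk
      cases t with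
      | zero => simp at hk
      | succ t =>
        simp only [seg_cons, List.tail_cons, List.headI_cons, reduceCtorEq, if_false,
          one_ne_zero] at hk
        exact run_eq_of_Phi hf hk
    · intro n
      obtain ⟨t, ht⟩ := Phi_eq_iff.1 hf n
      exact ⟨t + 1, by simp [seg_cons, ht]⟩

/-- A functional given by a computable function on strings that only gives correct values and
gives a value eventually. -/
theorem exists_index_of_search (F : List ℕ → ℕ → Option ℕ) (hF : Computable₂ F) :
    ∃ e : ℕ, ∀ (g f : ℕ → ℕ), (∀ n t k, F (seg g t) n = some k → k = f n) →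
      (∀ n, ∃ t, F (seg g t) n ≠ none) → Phi e g = f := by
  obtain ⟨s, _, H⟩ := exists_index (α := Unit) (fun _ σ n => F σ n) (by
    exact hF.comp (Computable.fst.comp Computable.snd) (Computable.snd.comp Computable.snd))
  exact ⟨s (), H ()⟩

/-- Adding a first entry. -/
theorem exists_consIx : ∃ s : ℕ → ℕ, Computable s ∧ ∀ a (g : ℕ → ℕ),
    Phi (s a) g = cons a g := by
  obtain ⟨s, hs, H⟩ := exists_index (α := ℕ) (fun a σ n => (a :: σ)[n]?) (by
    refine Primrec.to_comp ?_
    exact Primrec.list_getElem?.comp (Primrec.list_cons.comp Primrec.fst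
      (Primrec.fst.comp Primrec.snd)) (Primrec.snd.comp Primrec.snd))
  refine ⟨s, hs, fun a g => H a g (cons a g) ?_ ?_⟩
  · intro n t k hk
    simp only [← seg_cons] at hk
    rw [seg_getElem?] at hk
    split_ifs at hk
    exact (Option.some.inj hk).symm
  · intro n
    refine ⟨n, ?_⟩
    simp only [← seg_cons]
    rw [seg_getElem?_of_lt (by omega)]
    simp

/-- Pointwise transformations. -/
theorem exists_mapIx (q : ℕ → ℕ) (hq : Computable q) :
    ∃ e : ℕ, ∀ (g : ℕ → ℕ), Phi e g = (fun n => q (g n) : ℕ → ℕ) := by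
  obtain ⟨e, he⟩ := exists_index_of_search (fun σ n => (σ[n]?).map q) (by
    exact Computable.option_map (Computable.list_getElem?.comp Computable.fst Computable.snd)
      (hq.comp Computable.snd).to₂)
  refine ⟨e, fun g => he g _ ?_ ?_⟩
  · intro n t k hk
    rw [seg_getElem?] at hk
    split_ifs at hk
    · simpa using hk.symm
    · simp at hk
  · intro n
    refine ⟨n + 1, ?_⟩
    rw [seg_getElem?_of_lt (by omega)]
    simp

theorem exists_idIx : ∃ e : ℕ, ∀ (g : ℕ → ℕ), Phi e g = g := exists_mapIx id Computable.id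

theorem exists_fstIx : ∃ e : ℕ, ∀ (f g : ℕ → ℕ), Phi e (join f g) = f := by
  obtain ⟨e, he⟩ := exists_mapIx (fun n => n.unpair.1)
    (Primrec.to_comp (Primrec.fst.comp Primrec.unpair))
  refine ⟨e, fun f g => ?_⟩
  rw [he]
  congr 1
  funext n
  simp [join]

theorem exists_sndIx : ∃ e : ℕ, ∀ (f g : ℕ → ℕ), Phi e (join f g) = g := by
  obtain ⟨e, he⟩ := exists_mapIx (fun n => n.unpair.2)
    (Primrec.to_comp (Primrec.snd.comp Primrec.unpair))
  refine ⟨e, fun f g => ?_⟩
  rw [he]
  congr 1
  funext n
  simp [join]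

theorem exists_constIx (f : ℕ → ℕ) (hf : Computable f) : ∃ e : ℕ, ∀ (g : ℕ → ℕ), Phi e g = f := by
  obtain ⟨e, he⟩ := exists_index_of_search (fun _ n => some (f n))
    (Computable.option_some.comp (hf.comp Computable.snd))
  exact ⟨e, fun g => he g f (fun n t k hk => (Option.some.inj hk).symm) (fun n => ⟨0, by simp⟩)⟩

/-! ### Turing reducibility -/

/-- `f` is Turing reducible to `g`. -/
def TLe (f g : ℕ → ℕ) : Prop := ∃ e, Phi e g = f

theorem TLe.refl (f : ℕ → ℕ) : TLe f f := by
  obtain ⟨e, he⟩ := exists_idIx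
  exact ⟨e, he f⟩

theorem TLe.trans {f g h : ℕ → ℕ} (h1 : TLe f g) (h2 : TLe g h) : TLe f h := by
  obtain ⟨s, _, H⟩ := exists_cmp
  obtain ⟨e1, h1⟩ := h1
  obtain ⟨e2, h2⟩ := h2
  exact ⟨_, H _ _ _ _ _ h2 h1⟩

theorem TLe.join {f g h : ℕ → ℕ} (h1 : TLe f h) (h2 : TLe g h) : TLe (join f g) h := by
  obtain ⟨s, _, H⟩ := exists_pr
  obtain ⟨e1, h1⟩ := h1
  obtain ⟨e2, h2⟩ := h2
  exact ⟨_, H _ _ _ _ _ h1 h2⟩

theorem TLe.left (f g : ℕ → ℕ) : TLe f (LearnDeg.join f g) := by
  obtain ⟨e, he⟩ := exists_fstIx
  exact ⟨e, he f g⟩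

theorem TLe.right (f g : ℕ → ℕ) : TLe g (LearnDeg.join f g) := by
  obtain ⟨e, he⟩ := exists_sndIx
  exact ⟨e, he f g⟩

theorem TLe.join_le_join {f g f' g' : ℕ → ℕ} (h1 : TLe f f') (h2 : TLe g g') :
    TLe (LearnDeg.join f g) (LearnDeg.join f' g') :=
  TLe.join (h1.trans (TLe.left _ _)) (h2.trans (TLe.right _ _))

theorem TLe.cons (a : ℕ) (g : ℕ → ℕ) : TLe (LearnDeg.cons a g) g := by
  obtain ⟨s, _, H⟩ := exists_consIx
  exact ⟨_, H a g⟩

theorem TLe.of_cons (a : ℕ) (g : ℕ → ℕ) : TLe g (LearnDeg.cons a g) := by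
  obtain ⟨s, _, H⟩ := exists_tl
  obtain ⟨e, he⟩ := exists_idIx
  exact ⟨_, H e a g g (he g)⟩

theorem TLe.of_computable {f : ℕ → ℕ} (hf : Computable f) (g : ℕ → ℕ) : TLe f g := by
  obtain ⟨e, he⟩ := exists_constIx f hf
  exact ⟨e, he g⟩

/-- A computable search relative to `g`, all of whose outputs are correct, and which always finds
an output. -/
theorem TLe.of_search {f g : ℕ → ℕ} (F : List ℕ → ℕ → Option ℕ) (hF : Computable₂ F)
    (h1 : ∀ n t k, F (seg g t) n = some k → k = f n) (h2 : ∀ n, ∃ t, F (seg g t) n ≠ none) :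
    TLe f g := by
  obtain ⟨e, he⟩ := exists_index_of_search F hF
  exact ⟨e, he g f h1 h2⟩

/-- Pointwise transformation. -/
theorem TLe.map {q : ℕ → ℕ} (hq : Computable q) (g : ℕ → ℕ) : TLe (fun n => q (g n)) g := by
  obtain ⟨e, he⟩ := exists_mapIx q hq
  exact ⟨e, he g⟩

/-- Reindexing. -/
theorem TLe.reindex {q : ℕ → ℕ} (hq : Computable q) (g : ℕ → ℕ) : TLe (fun n => g (q n)) g := by
  refine TLe.of_search (fun σ n => σ[q n]?)
    (Computable.list_getElem?.comp Computable.fst (hq.comp Computable.snd)) ?_ ?_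
  · intro n t k hk
    rw [seg_getElem?] at hk
    split_ifs at hk
    exact (Option.some.inj hk).symm
  · intro n
    refine ⟨q n + 1, ?_⟩
    rw [seg_getElem?_of_lt (by omega)]
    simp

/-- The function with given columns. -/
def columns (x : ℕ → ℕ → ℕ) : ℕ → ℕ := fun n => x n.unpair.1 n.unpair.2

theorem TLe.column (x : ℕ → ℕ → ℕ) (i : ℕ) : TLe (x i) (columns x) := by
  have h : TLe (fun n => columns x (Nat.pair i n)) (columns x) :=
    TLe.reindex (Primrec.to_comp (Primrec₂.natPair.comp (Primrec.const i) Primrec.id)) _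
  have : (fun n => columns x (Nat.pair i n)) = x i := by
    funext n; simp [columns]
  rwa [this] at h

/-- A countable set of functions has an upper bound. -/
theorem exists_upper {S : Set (ℕ → ℕ)} (hS : S.Countable) : ∃ v, ∀ x ∈ S, TLe x v := by
  rcases S.eq_empty_or_nonempty with h | h
  · exact ⟨fun _ => 0, by simp [h]⟩
  · obtain ⟨x, hx⟩ := hS.exists_eq_range h
    refine ⟨columns x, ?_⟩
    rw [hx]
    rintro _ ⟨i, rfl⟩
    exact TLe.column x i

/-- Lower cones are countable. -/
theorem countable_lower (v : ℕ → ℕ) : {x | TLe x v}.Countable := by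
  classical
  have : {x | TLe x v} ⊆ Set.range (fun e : ℕ =>
      (if h : ∃ f : ℕ → ℕ, Phi e v = f then h.choose else fun _ => 0 : ℕ → ℕ)) := by
    rintro x ⟨e, he⟩
    refine ⟨e, ?_⟩
    have h : ∃ f : ℕ → ℕ, Phi e v = f := ⟨x, he⟩
    simp only [dif_pos h]
    exact Phi_inj h.choose_spec he
  exact (Set.countable_range _).mono this

end Pool.Agent.LearnDeg
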